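import Mathlib

/-!
Abstract part: a linear order `L` with a filtration `lev : W → Set L` along a well order `W`
in which every cut of a level is filled by a large interval.  Every colouring of `L` which is
coarse with respect to `W` is preserved by a non-identity order automorphism.
-/

set_option autoImplicit false
set_option linter.unusedSectionVars false

namespace Pool.Agent.Hhelper36.ColOrder

open Set

universe u v

/-- Transfinite construction of an increasing family of good sets along a well order. -/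
theorem exists_chain {W : Type v} [LinearOrder W] [WellFoundedLT W] {α : Type u} (F0 : Set α)
    (Good : Set α → Prop) (R : W → Set α → Set α → Prop)
    (hub : ∀ (w : W) (f : W → Set α), (∀ v, v < w → Good (f v)) →
      (∀ u v, u ≤ v → v < w → f u ⊆ f v) → (∀ v, v < w → F0 ⊆ f v) →
      Good (F0 ∪ ⋃ v ∈ Iio w, f v))
    (step : ∀ w F, Good F → ∃ F', Good F' ∧ F ⊆ F' ∧ R w F F') :
    ∃ f : W → Set α, (∀ w, Good (f w)) ∧ (∀ u v, u ≤ v → f u ⊆ f v) ∧ (∀ w, F0 ⊆ f w) ∧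
      ∀ w, R w (F0 ∪ ⋃ v ∈ Iio w, f v) (f w) := by
  classical
  let nxt : W → Set α → Set α := fun w F => if h : Good F then (step w F h).choose else F
  have nxt_spec : ∀ w F, Good F → Good (nxt w F) ∧ F ⊆ nxt w F ∧ R w F (nxt w F) := by
    intro w F h
    have : nxt w F = (step w F h).choose := by simp [nxt, h]
    rw [this]
    exact (step w F h).choose_spec
  let body : (w : W) → ((v : W) → v < w → Set α) → Set α :=
    fun w ih => nxt w (F0 ∪ ⋃ (v : W), ⋃ (h : v < w), ih v h)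
  let f : W → Set α := WellFounded.fix (wellFounded_lt (α := W)) body
  have hf : ∀ w, f w = nxt w (F0 ∪ ⋃ v ∈ Iio w, f v) := by
    intro w
    have := WellFounded.fix_eq (wellFounded_lt (α := W)) body w
    simpa [body] using this
  have key : ∀ w, Good (f w) ∧ (∀ u, u ≤ w → f u ⊆ f w) ∧ F0 ⊆ f w ∧
      R w (F0 ∪ ⋃ v ∈ Iio w, f v) (f w) := by
    intro w
    induction w using WellFoundedLT.induction with
    | ind w ih =>
      have hU : Good (F0 ∪ ⋃ v ∈ Iio w, f v) :=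
        hub w f (fun v hv => (ih v hv).1) (fun u v huv hv => (ih v hv).2.1 u huv)
          (fun v hv => (ih v hv).2.2.1)
      obtain ⟨h1, h2, h3⟩ := nxt_spec w _ hU
      rw [← hf w] at h1 h2 h3
      refine ⟨h1, ?_, ?_, h3⟩
      · intro u hu
        rcases hu.eq_or_lt with rfl | hu
        · exact subset_rfl
        · refine subset_trans ?_ h2
          intro x hx
          right
          exact mem_biUnion (show u ∈ Iio w from hu) hx
      · exact subset_trans subset_union_left h2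
  exact ⟨f, fun w => (key w).1, fun u v h => (key v).2.1 u h, fun w => (key w).2.2.1,
    fun w => (key w).2.2.2⟩

/-- hereditary one-sided smallness with respect to a relation `r` -/
def HS {L : Type u} {W : Type v} (r : L → L → Prop) (lev : W → Set L) (P : Set L) : Prop :=
  ∃ w, ∀ p ∈ P, ∃ a ∈ lev w, ∃ p' ∈ P, r p a ∧ r a p'

/-- local smallness of a set -/
def Loc {L : Type u} [LinearOrder L] {W : Type v} (lev : W → Set L) (M : Set L) : Prop :=
  ∀ P ⊆ M, HS (· ≤ ·) lev P ∧ HS (· ≥ ·) lev P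

/-- A filtration of a linear order along a well order all of whose cuts are amply filled. -/
structure Filt (L : Type u) [LinearOrder L] (W : Type v) [LinearOrder W] where
  lev : W → Set L
  mono : Monotone lev
  cover : ∀ x, ∃ w, x ∈ lev w
  bdd : ∀ (w : W) (g : W → W), ∃ u, ∀ v, v < w → g v ≤ u
  fill : ∀ (w : W) (A B : Set L), A ⊆ lev w → B ⊆ lev w → (∀ a ∈ A, ∀ b ∈ B, a < b) →
    ∃ (w' : W) (y z : L → L),
      (∀ x ∈ lev w, y x ∈ lev w' ∧ z x ∈ lev w' ∧ y x < z x ∧ (∀ a ∈ A, a < y x) ∧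
        (∀ b ∈ B, z x < b)) ∧
      ∀ x ∈ lev w, ∀ x' ∈ lev w, x < x' → z x < y x'

section

variable {L : Type u} [LinearOrder L] {W : Type v} [LinearOrder W]

theorem Loc.mono {lev : W → Set L} {M N : Set L} (h : Loc lev N) (hMN : M ⊆ N) : Loc lev M :=
  fun P hP => h P (hP.trans hMN)

theorem hs_of_bdd {r : L → L → Prop} {lev : W → Set L} (hr : ∀ x, r x x) {w : W} {P : Set L}
    (hP : P ⊆ lev w) : HS r lev P :=
  ⟨w, fun p hp => ⟨p, hP hp, p, hp, hr p, hr p⟩⟩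

theorem loc_of_bdd {lev : W → Set L} {w : W} {M : Set L} (hM : M ⊆ lev w) : Loc lev M :=
  fun _ hP => ⟨hs_of_bdd (r := (· ≤ ·)) (fun x => le_refl x) (hP.trans hM),
    hs_of_bdd (r := (· ≥ ·)) (fun x => le_refl x) (hP.trans hM)⟩

theorem hs_union {r : L → L → Prop} {lev : W → Set L} (hm : Monotone lev) {P Q : Set L}
    (hP : HS r lev P) (hQ : HS r lev Q) : HS r lev (P ∪ Q) := by
  obtain ⟨w, hw⟩ := hP
  obtain ⟨w', hw'⟩ := hQ
  refine ⟨max w w', ?_⟩
  rintro p (hp | hp)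
  · obtain ⟨a, ha, p', hp', h⟩ := hw p hp
    exact ⟨a, hm (le_max_left _ _) ha, p', Or.inl hp', h⟩
  · obtain ⟨a, ha, p', hp', h⟩ := hw' p hp
    exact ⟨a, hm (le_max_right _ _) ha, p', Or.inr hp', h⟩

theorem loc_union {lev : W → Set L} (hm : Monotone lev) {M N : Set L}
    (hM : Loc lev M) (hN : Loc lev N) : Loc lev (M ∪ N) := by
  intro P hP
  have e : P = (P ∩ M) ∪ (P ∩ N) := by
    rw [← inter_union_distrib_left]
    exact (inter_eq_left.mpr hP).symm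
  rw [e]
  exact ⟨hs_union hm (hM _ inter_subset_right).1 (hN _ inter_subset_right).1,
    hs_union hm (hM _ inter_subset_right).2 (hN _ inter_subset_right).2⟩

theorem loc_iUnion (D : Filt L W) (w : W) (M : W → Set L)
    (hM : ∀ v, v < w → Loc D.lev (M v)) : Loc D.lev (⋃ v ∈ Iio w, M v) := by
  classical
  have gen : ∀ (r : L → L → Prop), (∀ v, v < w → ∀ P ⊆ M v, HS r D.lev P) →
      ∀ P ⊆ (⋃ v ∈ Iio w, M v), HS r D.lev P := by
    intro r h P hP
    have h' : ∀ v, ∃ w', v < w → ∀ p ∈ P ∩ M v, ∃ a ∈ D.lev w', ∃ p' ∈ P ∩ M v, r p a ∧ r a p' := by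
      intro v
      by_cases hv : v < w
      · obtain ⟨w', hw'⟩ := h v hv (P ∩ M v) inter_subset_right
        exact ⟨w', fun _ => hw'⟩
      · exact ⟨w, fun h => absurd h hv⟩
    choose g hg using h'
    obtain ⟨u, hu⟩ := D.bdd w g
    refine ⟨u, fun p hp => ?_⟩
    obtain ⟨v, hv, hpv⟩ := mem_iUnion₂.mp (hP hp)
    obtain ⟨a, ha, p', hp', h2⟩ := hg v hv p ⟨hp, hpv⟩
    exact ⟨a, D.mono (hu v hv) ha, p', hp'.1, h2⟩
  intro P hP
  exact ⟨gen _ (fun v hv P hP => (hM v hv P hP).1) P hP,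
    gen _ (fun v hv P hP => (hM v hv P hP).2) P hP⟩

/-- filling a cut given by two one-sidedly small sets -/
theorem fill_sets (D : Filt L W) (w : W) (P Q : Set L) (hP : HS (· ≤ ·) D.lev P)
    (hQ : HS (· ≥ ·) D.lev Q) (hPQ : ∀ p ∈ P, ∀ q ∈ Q, p < q) :
    ∃ (w' : W) (y z : L → L),
      (∀ x ∈ D.lev w, y x ∈ D.lev w' ∧ z x ∈ D.lev w' ∧ y x < z x ∧ (∀ a ∈ P, a < y x) ∧
        (∀ b ∈ Q, z x < b)) ∧
      ∀ x ∈ D.lev w, ∀ x' ∈ D.lev w, x < x' → z x < y x' := by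
  obtain ⟨w1, h1⟩ := hP
  obtain ⟨w2, h2⟩ := hQ
  set v := max w (max w1 w2) with hv
  have hw : w ≤ v := le_max_left _ _
  have hw1 : w1 ≤ v := (le_max_left _ _).trans (le_max_right _ _)
  have hw2 : w2 ≤ v := (le_max_right _ _).trans (le_max_right _ _)
  obtain ⟨w', y, z, hyz, hyz'⟩ := D.fill v {a | a ∈ D.lev v ∧ ∃ p ∈ P, a ≤ p}
    {b | b ∈ D.lev v ∧ ∃ q ∈ Q, q ≤ b} (fun a ha => ha.1) (fun b hb => hb.1) (by
      rintro a ⟨-, p, hp, hap⟩ b ⟨-, q, hq, hqb⟩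
      exact hap.trans_lt ((hPQ p hp q hq).trans_le hqb))
  refine ⟨w', y, z, ?_, ?_⟩
  · intro x hx
    obtain ⟨e1, e2, e3, e4, e5⟩ := hyz x (D.mono hw hx)
    refine ⟨e1, e2, e3, ?_, ?_⟩
    · intro p hp
      obtain ⟨a, ha, p', hp', hpa, hap'⟩ := h1 p hp
      exact lt_of_le_of_lt hpa (e4 a ⟨D.mono hw1 ha, p', hp', hap'⟩)
    · intro q hq
      obtain ⟨a, ha, q', hq', hqa, haq'⟩ := h2 q hq
      exact lt_of_lt_of_le (e5 a ⟨D.mono hw2 ha, q', hq', haq'⟩) hqa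
  · intro x hx x' hx' hxx'
    exact hyz' x (D.mono hw hx) x' (D.mono hw hx') hxx'

/-- the one-sided smallness of the image of the extension map, abstract form -/
theorem hs_image {lev : W → Set L} (hcover : ∀ x, ∃ w, x ∈ lev w) (F : Set (L × L)) (X : Set L)
    (g : L → L)
    (hmono : ∀ x ∈ X, ∀ x' ∈ X, x < x' → g x < g x')
    (hF1 : ∀ x ∈ X, ∀ q ∈ F, q.1 < x → q.2 < g x)
    (hF2 : ∀ x ∈ X, ∀ q ∈ F, x < q.1 → g x < q.2)
    (hne : ∀ x ∈ X, ∀ q ∈ F, q.1 ≠ x)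
    (hcls : ∀ x0 ∈ X, ∃ w, ∀ x ∈ X, ∀ x' ∈ X,
      (∀ q ∈ F, (q.1 < x0 ↔ q.1 < x) ∧ (x0 < q.1 ↔ x < q.1)) →
      (∀ q ∈ F, (q.1 < x0 ↔ q.1 < x') ∧ (x0 < q.1 ↔ x' < q.1)) →
      x < x' → ∃ a ∈ lev w, g x ≤ a ∧ a ≤ g x')
    (hloc : ∀ P ⊆ Prod.snd '' F, HS (· ≤ ·) lev P) :
    ∀ P ⊆ g '' X, HS (· ≤ ·) lev P := by
  intro P hP
  by_cases h1 : ∃ m ∈ P, ∀ p ∈ P, p ≤ m
  · obtain ⟨m, hm, hmax⟩ := h1
    obtain ⟨w, hw⟩ := hcover m
    exact ⟨w, fun p hp => ⟨m, hw, m, hm, hmax p hp, le_rfl⟩⟩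
  push Not at h1
  have hmono' : ∀ x ∈ X, ∀ x' ∈ X, g x < g x' → x < x' := by
    intro x hx x' hx' h
    by_contra hc
    rcases (not_lt.mp hc).eq_or_lt with e | e
    · rw [e] at h; exact lt_irrefl _ h
    · exact lt_asymm h (hmono x' hx' x hx e)
  by_cases h2 : ∃ x0 ∈ X, g x0 ∈ P ∧ ∀ x ∈ X, g x ∈ P → x0 < x → ¬ ∃ q ∈ F, x0 < q.1 ∧ q.1 < x
  · obtain ⟨x0, hx0, hx0P, hx0c⟩ := h2
    obtain ⟨w, hw⟩ := hcls x0 hx0
    refine ⟨w, fun p hp => ?_⟩
    have hmaxP : max p (g x0) ∈ P := by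
      rcases le_total p (g x0) with h | h
      · rw [max_eq_right h]; exact hx0P
      · rw [max_eq_left h]; exact hp
    obtain ⟨p2, hp2, hlt2⟩ := h1 _ hmaxP
    obtain ⟨p3, hp3, hlt3⟩ := h1 _ hp2
    obtain ⟨x2, hx2, rfl⟩ := hP hp2
    obtain ⟨x3, hx3, rfl⟩ := hP hp3
    have h02 : x0 < x2 := hmono' _ hx0 _ hx2 ((le_max_right _ _).trans_lt hlt2)
    have h23 : x2 < x3 := hmono' _ hx2 _ hx3 hlt3
    have cls : ∀ x ∈ X, g x ∈ P → x0 < x →
        (∀ q ∈ F, (q.1 < x0 ↔ q.1 < x) ∧ (x0 < q.1 ↔ x < q.1)) := by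
      intro x hx hgx hlt q hq
      have hn := hx0c x hx hgx hlt
      constructor
      · constructor
        · intro h; exact h.trans hlt
        · intro h
          by_contra hc
          rcases (not_lt.mp hc).eq_or_lt with e | e
          · exact hne x0 hx0 q hq e.symm
          · exact hn ⟨q, hq, e, h⟩
      · constructor
        · intro h
          by_contra hc
          rcases (not_lt.mp hc).eq_or_lt with e | e
          · exact hne x hx q hq e
          · exact hn ⟨q, hq, h, e⟩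
        · intro h; exact hlt.trans h
    obtain ⟨a, ha, h4, h5⟩ := hw x2 hx2 x3 hx3 (cls x2 hx2 hp2 h02)
      (cls x3 hx3 hp3 (h02.trans h23)) h23
    exact ⟨a, ha, g x3, hp3, ((le_max_left _ _).trans hlt2.le).trans h4, h5⟩
  · push Not at h2
    obtain ⟨w, hw⟩ := hloc {r | ∃ q ∈ F, q.2 = r ∧ ∃ x ∈ X, g x ∈ P ∧ q.1 < x} (by
      rintro r ⟨q, hq, rfl, -⟩
      exact ⟨q, hq, rfl⟩)
    refine ⟨w, fun p hp => ?_⟩
    obtain ⟨x, hx, rfl⟩ := hP hp
    obtain ⟨x1, hx1, hx1P, hlt, q, hq, hq1, hq2⟩ := h2 x hx hp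
    obtain ⟨a, ha, r, ⟨q', hq', rfl, x'', hx'', hx''P, hlt''⟩, h3, h4⟩ :=
      hw q.2 ⟨q, hq, rfl, x1, hx1, hx1P, hq2⟩
    exact ⟨a, ha, g x'', hx''P, (hF2 x hx q hq hq1).le.trans h3,
      h4.trans (hF1 x'' hx'' q' hq' hlt'').le⟩

/-- A colour and order preserving partial isomorphism with locally small domain and range. -/
structure PI {K : Type*} (lev : W → Set L) (c : L → K) (F : Set (L × L)) : Prop where
  ord : ∀ p ∈ F, ∀ q ∈ F, p.1 < q.1 ↔ p.2 < q.2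
  col : ∀ p ∈ F, c p.1 = c p.2
  loc1 : Loc lev (Prod.fst '' F)
  loc2 : Loc lev (Prod.snd '' F)

theorem PI.swap {K : Type*} {lev : W → Set L} {c : L → K} {F : Set (L × L)} (h : PI lev c F) :
    PI lev c (Prod.swap '' F) := by
  have e1 : Prod.fst '' (Prod.swap '' F) = Prod.snd '' F := by
    rw [image_image]; simp
  have e2 : Prod.snd '' (Prod.swap '' F) = Prod.fst '' F := by
    rw [image_image]; simp
  refine ⟨?_, ?_, ?_, ?_⟩
  · rintro _ ⟨p, hp, rfl⟩ _ ⟨q, hq, rfl⟩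
    exact (h.ord p hp q hq).symm
  · rintro _ ⟨p, hp, rfl⟩
    exact (h.col p hp).symm
  · rw [e1]; exact h.loc2
  · rw [e2]; exact h.loc1

/-- all colours that occur are dense -/
def Dense {K : Type*} (lev : W → Set L) (c : L → K) : Prop :=
  ∀ (w : W) (A B : Set L), A ⊆ lev w → B ⊆ lev w → (∀ a ∈ A, ∀ b ∈ B, a < b) →
    ∀ x0 : L, ∃ x, c x = c x0 ∧ (∀ a ∈ A, a < x) ∧ (∀ b ∈ B, x < b)

theorem extend_dom {K : Type*} (D : Filt L W) (c : L → K) (hd : Dense D.lev c) (w : W)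
    (F : Set (L × L)) (hF : PI D.lev c F) :
    ∃ F', PI D.lev c F' ∧ F ⊆ F' ∧ D.lev w ⊆ Prod.fst '' F' := by
  classical
  let X : Set L := D.lev w \ (Prod.fst '' F)
  let Pl : L → Set L := fun x => {r | ∃ q ∈ F, q.2 = r ∧ q.1 < x}
  let Qr : L → Set L := fun x => {r | ∃ q ∈ F, q.2 = r ∧ x < q.1}
  have hPQ : ∀ x, ∀ p ∈ Pl x, ∀ q ∈ Qr x, p < q := by
    rintro x _ ⟨p, hp, rfl, hpx⟩ _ ⟨q, hq, rfl, hxq⟩
    exact (hF.ord p hp q hq).mp (hpx.trans hxq)
  have hP : ∀ x, HS (· ≤ ·) D.lev (Pl x) := fun x => (hF.loc2 _ (by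
    rintro _ ⟨p, hp, rfl, -⟩; exact ⟨p, hp, rfl⟩)).1
  have hQ : ∀ x, HS (· ≥ ·) D.lev (Qr x) := fun x => (hF.loc2 _ (by
    rintro _ ⟨p, hp, rfl, -⟩; exact ⟨p, hp, rfl⟩)).2
  -- choose filling data depending on the pair of sets only
  have hfill : ∀ PQ : Set L × Set L, ∃ (d : W × (L → L) × (L → L)),
      (HS (· ≤ ·) D.lev PQ.1 ∧ HS (· ≥ ·) D.lev PQ.2 ∧ (∀ p ∈ PQ.1, ∀ q ∈ PQ.2, p < q)) →
      (∀ x ∈ D.lev w, d.2.1 x ∈ D.lev d.1 ∧ d.2.2 x ∈ D.lev d.1 ∧ d.2.1 x < d.2.2 x ∧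
        (∀ a ∈ PQ.1, a < d.2.1 x) ∧ (∀ b ∈ PQ.2, d.2.2 x < b)) ∧
      ∀ x ∈ D.lev w, ∀ x' ∈ D.lev w, x < x' → d.2.2 x < d.2.1 x' := by
    rintro ⟨P, Q⟩
    by_cases h : HS (· ≤ ·) D.lev P ∧ HS (· ≥ ·) D.lev Q ∧ (∀ p ∈ P, ∀ q ∈ Q, p < q)
    · obtain ⟨w', y, z, h1, h2⟩ := fill_sets D w P Q h.1 h.2.1 h.2.2
      exact ⟨(w', y, z), fun _ => ⟨h1, h2⟩⟩
    · exact ⟨(w, id, id), fun h' => absurd h' h⟩
  choose d hd' using hfill
  have hdx : ∀ x0, (∀ x ∈ D.lev w, (d (Pl x0, Qr x0)).2.1 x ∈ D.lev (d (Pl x0, Qr x0)).1 ∧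
        (d (Pl x0, Qr x0)).2.2 x ∈ D.lev (d (Pl x0, Qr x0)).1 ∧
        (d (Pl x0, Qr x0)).2.1 x < (d (Pl x0, Qr x0)).2.2 x ∧
        (∀ a ∈ Pl x0, a < (d (Pl x0, Qr x0)).2.1 x) ∧
        (∀ b ∈ Qr x0, (d (Pl x0, Qr x0)).2.2 x < b)) ∧
      ∀ x ∈ D.lev w, ∀ x' ∈ D.lev w, x < x' →
        (d (Pl x0, Qr x0)).2.2 x < (d (Pl x0, Qr x0)).2.1 x' :=
    fun x0 => hd' (Pl x0, Qr x0) ⟨hP x0, hQ x0, hPQ x0⟩
  -- the new values
  have hg : ∀ x, ∃ y, x ∈ X → c y = c x ∧ (d (Pl x, Qr x)).2.1 x < y ∧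
      y < (d (Pl x, Qr x)).2.2 x := by
    intro x
    by_cases hx : x ∈ X
    · obtain ⟨e1, e2, e3, -, -⟩ := (hdx x).1 x hx.1
      obtain ⟨y, hy, hy1, hy2⟩ := hd (d (Pl x, Qr x)).1 {(d (Pl x, Qr x)).2.1 x}
        {(d (Pl x, Qr x)).2.2 x} (by simpa using e1) (by simpa using e2) (by
          rintro a rfl b rfl; exact e3) x
      exact ⟨y, fun _ => ⟨hy, hy1 _ rfl, hy2 _ rfl⟩⟩
    · exact ⟨x, fun h => absurd h hx⟩
  choose g hg using hg
  have hne : ∀ x ∈ X, ∀ q ∈ F, q.1 ≠ x := fun x hx q hq e => hx.2 ⟨q, hq, e⟩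
  have hF1 : ∀ x ∈ X, ∀ q ∈ F, q.1 < x → q.2 < g x := by
    intro x hx q hq h
    exact (((hdx x).1 x hx.1).2.2.2.1 q.2 ⟨q, hq, rfl, h⟩).trans (hg x hx).2.1
  have hF2 : ∀ x ∈ X, ∀ q ∈ F, x < q.1 → g x < q.2 := by
    intro x hx q hq h
    exact (hg x hx).2.2.trans (((hdx x).1 x hx.1).2.2.2.2 q.2 ⟨q, hq, rfl, h⟩)
  have hcl : ∀ x ∈ X, ∀ x' ∈ X,
      (∀ q ∈ F, (q.1 < x ↔ q.1 < x') ∧ (x < q.1 ↔ x' < q.1)) → Pl x = Pl x' ∧ Qr x = Qr x' := by
    intro x hx x' hx' h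
    constructor
    · ext r
      constructor
      · rintro ⟨q, hq, rfl, h1⟩; exact ⟨q, hq, rfl, (h q hq).1.mp h1⟩
      · rintro ⟨q, hq, rfl, h1⟩; exact ⟨q, hq, rfl, (h q hq).1.mpr h1⟩
    · ext r
      constructor
      · rintro ⟨q, hq, rfl, h1⟩; exact ⟨q, hq, rfl, (h q hq).2.mp h1⟩
      · rintro ⟨q, hq, rfl, h1⟩; exact ⟨q, hq, rfl, (h q hq).2.mpr h1⟩
  have hmono : ∀ x ∈ X, ∀ x' ∈ X, x < x' → g x < g x' := by
    intro x hx x' hx' hlt
    by_cases hs : ∃ q ∈ F, x < q.1 ∧ q.1 < x'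
    · obtain ⟨q, hq, h1, h2⟩ := hs
      exact (hF2 x hx q hq h1).trans (hF1 x' hx' q hq h2)
    · have hc : ∀ q ∈ F, (q.1 < x ↔ q.1 < x') ∧ (x < q.1 ↔ x' < q.1) := by
        intro q hq
        constructor
        · constructor
          · intro h; exact h.trans hlt
          · intro h
            by_contra hc
            rcases (not_lt.mp hc).eq_or_lt with e | e
            · exact hne x hx q hq e.symm
            · exact hs ⟨q, hq, e, h⟩
        · constructor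
          · intro h
            by_contra hc
            rcases (not_lt.mp hc).eq_or_lt with e | e
            · exact hne x' hx' q hq e
            · exact hs ⟨q, hq, h, e⟩
          · intro h; exact hlt.trans h
      obtain ⟨e1, e2⟩ := hcl x hx x' hx' hc
      have h3 := (hdx x).2 x hx.1 x' hx'.1 hlt
      have h4 := (hg x' hx').2.1
      rw [← e1, ← e2] at h4
      exact (hg x hx).2.2.trans (h3.trans h4)
  have hcls : ∀ x0 ∈ X, ∃ v, ∀ x ∈ X, ∀ x' ∈ X,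
      (∀ q ∈ F, (q.1 < x0 ↔ q.1 < x) ∧ (x0 < q.1 ↔ x < q.1)) →
      (∀ q ∈ F, (q.1 < x0 ↔ q.1 < x') ∧ (x0 < q.1 ↔ x' < q.1)) →
      x < x' → ∃ a ∈ D.lev v, g x ≤ a ∧ a ≤ g x' := by
    intro x0 hx0
    refine ⟨(d (Pl x0, Qr x0)).1, fun x hx x' hx' h1 h2 hlt => ?_⟩
    obtain ⟨e1, e2⟩ := hcl x0 hx0 x hx h1
    obtain ⟨e3, e4⟩ := hcl x0 hx0 x' hx' h2
    refine ⟨(d (Pl x0, Qr x0)).2.2 x, ((hdx x0).1 x hx.1).2.1, ?_, ?_⟩
    · have := (hg x hx).2.2
      rw [← e1, ← e2] at this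
      exact this.le
    · have h3 := (hdx x0).2 x hx.1 x' hx'.1 hlt
      have h4 := (hg x' hx').2.1
      rw [← e3, ← e4] at h4
      exact (h3.trans h4).le
  have hlocg : Loc D.lev (g '' X) := by
    intro P hP'
    refine ⟨hs_image D.cover F X g hmono hF1 hF2 hne hcls (fun P hP => (hF.loc2 P hP).1) P hP', ?_⟩
    -- the dual statement
    have := hs_image (L := Lᵒᵈ) (W := W) (lev := fun w => (D.lev w : Set L)) D.cover F X g
      (fun x hx x' hx' h => hmono x' hx' x hx h)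
      (fun x hx q hq h => hF2 x hx q hq h)
      (fun x hx q hq h => hF1 x hx q hq h)
      hne
      (by
        intro x0 hx0
        obtain ⟨v, hv⟩ := hcls x0 hx0
        refine ⟨v, fun x hx x' hx' h1 h2 hlt => ?_⟩
        obtain ⟨a, ha, h3, h4⟩ := hv x' hx' x hx
          (fun q hq => ⟨(h2 q hq).2, (h2 q hq).1⟩)
          (fun q hq => ⟨(h1 q hq).2, (h1 q hq).1⟩) hlt
        exact ⟨a, ha, h4, h3⟩)
      (fun P hP => (hF.loc2 P hP).2) P hP'
    exact this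
  refine ⟨F ∪ (fun x => (x, g x)) '' X, ?_, subset_union_left, ?_⟩
  · refine ⟨?_, ?_, ?_, ?_⟩
    · rintro p (hp | ⟨x, hx, rfl⟩) q (hq | ⟨x', hx', rfl⟩)
      · exact hF.ord p hp q hq
      · constructor
        · intro h; exact hF1 x' hx' p hp h
        · intro h
          by_contra hc
          rcases (not_lt.mp hc).eq_or_lt with e | e
          · exact hne x' hx' p hp e.symm
          · exact lt_asymm h (hF2 x' hx' p hp e)
      · constructor
        · intro h; exact hF2 x hx q hq h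
        · intro h
          by_contra hc
          rcases (not_lt.mp hc).eq_or_lt with e | e
          · exact hne x hx q hq e
          · exact lt_asymm h (hF1 x hx q hq e)
      · constructor
        · intro h; exact hmono x hx x' hx' h
        · intro h
          by_contra hc
          rcases (not_lt.mp hc).eq_or_lt with e | e
          · simp only at e h
            rw [e] at h
            exact lt_irrefl _ h
          · exact lt_asymm h (hmono x' hx' x hx e)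
    · rintro p (hp | ⟨x, hx, rfl⟩)
      · exact hF.col p hp
      · exact (hg x hx).1.symm
    · rw [image_union, image_image]
      refine loc_union D.mono hF.loc1 (loc_of_bdd (w := w) ?_)
      rintro _ ⟨x, hx, rfl⟩
      exact hx.1
    · rw [image_union, image_image]
      exact loc_union D.mono hF.loc2 hlocg
  · intro x hx
    by_cases h : x ∈ Prod.fst '' F
    · rw [image_union]; exact Or.inl h
    · exact ⟨(x, g x), Or.inr ⟨x, ⟨hx, h⟩, rfl⟩, rfl⟩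

theorem extend_both {K : Type*} (D : Filt L W) (c : L → K) (hd : Dense D.lev c) (w : W)
    (F : Set (L × L)) (hF : PI D.lev c F) :
    ∃ F', PI D.lev c F' ∧ F ⊆ F' ∧ D.lev w ⊆ Prod.fst '' F' ∧ D.lev w ⊆ Prod.snd '' F' := by
  obtain ⟨F1, h1, h2, h3⟩ := extend_dom D c hd w F hF
  obtain ⟨F2, h4, h5, h6⟩ := extend_dom D c hd w (Prod.swap '' F1) h1.swap
  refine ⟨Prod.swap '' F2, h4.swap, ?_, ?_, ?_⟩
  · intro p hp
    exact ⟨p.swap, h5 ⟨p, h2 hp, rfl⟩, Prod.swap_swap p⟩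
  · intro x hx
    obtain ⟨p, hp, rfl⟩ := h3 hx
    exact ⟨p, ⟨p.swap, h5 ⟨p, hp, rfl⟩, Prod.swap_swap p⟩, rfl⟩
  · intro x hx
    obtain ⟨p, hp, rfl⟩ := h6 hx
    exact ⟨p.swap, ⟨p, hp, rfl⟩, rfl⟩

/-- Back and forth along the filtration. -/
theorem exists_iso_of_dense [WellFoundedLT W] {K : Type*} (D : Filt L W) (c : L → K)
    (hd : Dense D.lev c) (x y : L) (hxy : c x = c y) :
    ∃ f : L ≃o L, f x = y ∧ ∀ t, c (f t) = c t := by
  classical
  obtain ⟨wx, hwx⟩ := D.cover x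
  obtain ⟨wy, hwy⟩ := D.cover y
  have hbase : PI D.lev c {((x, y) : L × L)} := by
    refine ⟨?_, ?_, ?_, ?_⟩
    · rintro p rfl q rfl; simp
    · rintro p rfl; exact hxy
    · rw [image_singleton]; exact loc_of_bdd (w := wx) (by simpa using hwx)
    · rw [image_singleton]; exact loc_of_bdd (w := wy) (by simpa using hwy)
  obtain ⟨f, hgood, hmono, hF0, hR⟩ := exists_chain (W := W) ({((x, y) : L × L)})
    (PI D.lev c) (fun w _ F' => D.lev w ⊆ Prod.fst '' F' ∧ D.lev w ⊆ Prod.snd '' F')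
    (by
      intro w f hg hm h0
      refine ⟨?_, ?_, ?_, ?_⟩
      · have aux : ∀ p ∈ ({((x, y) : L × L)} ∪ ⋃ v ∈ Iio w, f v),
            ∀ q ∈ ({((x, y) : L × L)} ∪ ⋃ v ∈ Iio w, f v),
            (p = (x, y) ∧ q = (x, y)) ∨ ∃ v, v < w ∧ p ∈ f v ∧ q ∈ f v := by
          rintro p (hp | hp) q (hq | hq)
          · exact Or.inl ⟨hp, hq⟩
          · obtain ⟨v, hv, hqv⟩ := mem_iUnion₂.mp hq
            exact Or.inr ⟨v, hv, h0 v hv hp, hqv⟩
          · obtain ⟨v, hv, hpv⟩ := mem_iUnion₂.mp hp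
            exact Or.inr ⟨v, hv, hpv, h0 v hv hq⟩
          · obtain ⟨v, hv, hpv⟩ := mem_iUnion₂.mp hp
            obtain ⟨v', hv', hqv⟩ := mem_iUnion₂.mp hq
            refine Or.inr ⟨max v v', max_lt hv hv', hm v _ (le_max_left _ _) (max_lt hv hv') hpv,
              hm v' _ (le_max_right _ _) (max_lt hv hv') hqv⟩
        intro p hp q hq
        rcases aux p hp q hq with ⟨rfl, rfl⟩ | ⟨v, hv, h1, h2⟩
        · simp
        · exact (hg v hv).ord p h1 q h2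
      · rintro p (hp | hp)
        · rw [mem_singleton_iff] at hp; subst hp; exact hxy
        · obtain ⟨v, hv, hpv⟩ := mem_iUnion₂.mp hp
          exact (hg v hv).col p hpv
      · rw [image_union, image_iUnion₂]
        exact loc_union D.mono hbase.loc1 (loc_iUnion D w _ (fun v hv => (hg v hv).loc1))
      · rw [image_union, image_iUnion₂]
        exact loc_union D.mono hbase.loc2 (loc_iUnion D w _ (fun v hv => (hg v hv).loc2)))
    (by
      intro w F hF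
      obtain ⟨F', h1, h2, h3, h4⟩ := extend_both D c hd w F hF
      exact ⟨F', h1, h2, h3, h4⟩)
  -- the union of the chain is the graph of an automorphism
  have hG : ∀ p q : L × L, (∃ v, p ∈ f v) → (∃ v, q ∈ f v) → (p.1 < q.1 ↔ p.2 < q.2) := by
    rintro p q ⟨v, hv⟩ ⟨v', hv'⟩
    exact (hgood (max v v')).ord p (hmono _ _ (le_max_left _ _) hv) q
      (hmono _ _ (le_max_right _ _) hv')
  have hdom : ∀ t, ∃ s, ∃ v, (t, s) ∈ f v := by
    intro t
    obtain ⟨w, hw⟩ := D.cover t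
    obtain ⟨p, hp, rfl⟩ := (hR w).1 hw
    exact ⟨p.2, w, hp⟩
  have hran : ∀ s, ∃ t, ∃ v, (t, s) ∈ f v := by
    intro s
    obtain ⟨w, hw⟩ := D.cover s
    obtain ⟨p, hp, rfl⟩ := (hR w).2 hw
    exact ⟨p.1, w, hp⟩
  choose φ hφ using hdom
  have hsm : StrictMono φ := fun a b hab => (hG (a, φ a) (b, φ b) (hφ a) (hφ b)).mp hab
  have huniq : ∀ t s, (∃ v, (t, s) ∈ f v) → φ t = s := by
    intro t s h
    have h1 := hG (t, φ t) (t, s) (hφ t) h
    have h2 := hG (t, s) (t, φ t) h (hφ t)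
    simp only [lt_self_iff_false, false_iff, not_lt] at h1 h2
    exact le_antisymm h2 h1
  have hsurj : Function.Surjective φ := by
    intro s
    obtain ⟨t, ht⟩ := hran s
    exact ⟨t, huniq t s ht⟩
  refine ⟨StrictMono.orderIsoOfSurjective φ hsm hsurj, ?_, ?_⟩
  · show φ x = y
    exact huniq x y ⟨wx, hF0 wx rfl⟩
  · intro t
    show c (φ t) = c t
    obtain ⟨v, hv⟩ := hφ t
    exact ((hgood v).col _ hv).symm

end

end Pool.Agent.Hhelper36.ColOrder
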