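import Pool.Agent.Hhelper36.ColOrder

/-!
Homogenisation: inside a suitable small interval every colour is either absent or dense;
the back-and-forth automorphism of that interval is extended by the identity.
-/

set_option autoImplicit false
set_option linter.unusedSectionVars false

namespace Pool.Agent.Hhelper36.ColOrder

open Set

universe u v

section

variable {L : Type u} [LinearOrder L] {W : Type v} [LinearOrder W]

/-- the interval coded by a set of marked bounds -/
def Iv (S : Set (L × Bool)) : Set L :=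
  {x | (∀ a, (a, false) ∈ S → a < x) ∧ (∀ b, (b, true) ∈ S → x < b)}

/-- bounded and consistent sets of bounds -/
def GoodIv (D : Filt L W) (S : Set (L × Bool)) : Prop :=
  (∃ w, ∀ s ∈ S, s.1 ∈ D.lev w) ∧ ∀ a, (a, false) ∈ S → ∀ b, (b, true) ∈ S → a < b

theorem Iv_anti {S T : Set (L × Bool)} (h : S ⊆ T) : Iv T ⊆ Iv S :=
  fun _ hx => ⟨fun a ha => hx.1 a (h ha), fun b hb => hx.2 b (h hb)⟩

theorem Iv_ordConnected {S : Set (L × Bool)} {x y z : L} (hx : x ∈ Iv S) (hz : z ∈ Iv S)
    (hxy : x ≤ y) (hyz : y ≤ z) : y ∈ Iv S :=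
  ⟨fun a ha => (hx.1 a ha).trans_le hxy, fun b hb => hyz.trans_lt (hz.2 b hb)⟩

theorem exists_homog [WellFoundedLT W] {K : Type*} (D : Filt L W) (c : L → K)
    (hK : ∀ g : W → K, ¬ Function.Injective g) :
    ∃ S, GoodIv D S ∧ ∀ S', GoodIv D S' → S ⊆ S' → c '' Iv S ⊆ c '' Iv S' := by
  classical
  by_contra hcon
  push Not at hcon
  obtain ⟨f, hgood, hmono, -, hR⟩ := exists_chain (W := W) (∅ : Set (L × Bool))
    (GoodIv D) (fun _ F F' => ∃ k, k ∈ c '' Iv F ∧ k ∉ c '' Iv F')
    (by
      intro w f hg hm _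
      rw [empty_union]
      constructor
      · have : ∀ v, ∃ u, v < w → ∀ s ∈ f v, s.1 ∈ D.lev u := by
          intro v
          by_cases hv : v < w
          · obtain ⟨u, hu⟩ := (hg v hv).1
            exact ⟨u, fun _ => hu⟩
          · exact ⟨w, fun h => absurd h hv⟩
        choose g hg' using this
        obtain ⟨u, hu⟩ := D.bdd w g
        refine ⟨u, fun s hs => ?_⟩
        obtain ⟨v, hv, hsv⟩ := mem_iUnion₂.mp hs
        exact D.mono (hu v hv) (hg' v hv s hsv)
      · intro a ha b hb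
        obtain ⟨v, hv, hav⟩ := mem_iUnion₂.mp ha
        obtain ⟨v', hv', hbv⟩ := mem_iUnion₂.mp hb
        exact (hg (max v v') (max_lt hv hv')).2 a (hm v _ (le_max_left _ _) (max_lt hv hv') hav) b
          (hm v' _ (le_max_right _ _) (max_lt hv hv') hbv))
    (by
      intro w F hF
      obtain ⟨S', h1, h2, h3⟩ := hcon F hF
      obtain ⟨k, hk, hk'⟩ := not_subset.mp h3
      exact ⟨S', h1, h2, k, hk, hk'⟩)
  choose s hs1 hs2 using hR
  refine hK s ?_
  have key : ∀ v w, v < w → s v ≠ s w := by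
    intro v w hvw e
    have h1 : s w ∈ c '' Iv (f v) := by
      refine image_mono ?_ (hs1 w)
      refine Iv_anti ?_
      intro x hx
      right
      exact mem_biUnion (show v ∈ Iio w from hvw) hx
    rw [← e] at h1
    exact hs2 v h1
  intro v w e
  rcases lt_trichotomy v w with h | h | h
  · exact absurd e (key v w h)
  · exact h
  · exact absurd e.symm (key w v h)

/-- The induced filtration on a small interval. -/
def restrict (D : Filt L W) (S : Set (L × Bool)) (hS : GoodIv D S) : Filt (Iv S) W where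
  lev w := {x | x.1 ∈ D.lev w}
  mono v w hvw x hx := D.mono hvw hx
  cover x := D.cover x.1
  bdd := D.bdd
  fill := by
    classical
    intro w A B hA hB hAB
    obtain ⟨⟨w0, hw0⟩, hcons⟩ := hS
    obtain ⟨w', y, z, h1, h2⟩ := D.fill (max w w0)
      (Subtype.val '' A ∪ {a | (a, false) ∈ S}) (Subtype.val '' B ∪ {b | (b, true) ∈ S})
      (by
        rintro a (⟨a, ha, rfl⟩ | ha)
        · exact D.mono (le_max_left _ _) (hA ha)
        · exact D.mono (le_max_right _ _) (hw0 _ ha))
      (by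
        rintro a (⟨a, ha, rfl⟩ | ha)
        · exact D.mono (le_max_left _ _) (hB ha)
        · exact D.mono (le_max_right _ _) (hw0 _ ha))
      (by
        rintro a (⟨a, ha, rfl⟩ | ha) b (⟨b, hb, rfl⟩ | hb)
        · exact hAB a ha b hb
        · exact a.2.2 b hb
        · exact b.2.1 a ha
        · exact hcons a ha b hb)
    have hyI : ∀ x ∈ D.lev (max w w0), y x ∈ Iv S := by
      intro x hx
      obtain ⟨-, -, e3, e4, e5⟩ := h1 x hx
      exact ⟨fun a ha => e4 a (Or.inr ha), fun b hb => e3.trans (e5 b (Or.inr hb))⟩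
    have hzI : ∀ x ∈ D.lev (max w w0), z x ∈ Iv S := by
      intro x hx
      obtain ⟨-, -, e3, e4, e5⟩ := h1 x hx
      exact ⟨fun a ha => (e4 a (Or.inr ha)).trans e3, fun b hb => (e5 b (Or.inr hb))⟩
    let y' : Iv S → Iv S := fun x => if h : y x.1 ∈ Iv S then ⟨y x.1, h⟩ else x
    let z' : Iv S → Iv S := fun x => if h : z x.1 ∈ Iv S then ⟨z x.1, h⟩ else x
    have hy' : ∀ x : Iv S, x.1 ∈ D.lev w → (y' x).1 = y x.1 := by
      intro x hx
      have := hyI x.1 (D.mono (le_max_left _ _) hx)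
      simp [y', this]
    have hz' : ∀ x : Iv S, x.1 ∈ D.lev w → (z' x).1 = z x.1 := by
      intro x hx
      have := hzI x.1 (D.mono (le_max_left _ _) hx)
      simp [z', this]
    refine ⟨w', y', z', ?_, ?_⟩
    · intro x hx
      obtain ⟨e1, e2, e3, e4, e5⟩ := h1 x.1 (D.mono (le_max_left _ _) hx)
      refine ⟨?_, ?_, ?_, ?_, ?_⟩
      · show (y' x).1 ∈ D.lev w'
        rw [hy' x hx]; exact e1
      · show (z' x).1 ∈ D.lev w'
        rw [hz' x hx]; exact e2
      · show (y' x).1 < (z' x).1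
        rw [hy' x hx, hz' x hx]; exact e3
      · intro a ha
        show a.1 < (y' x).1
        rw [hy' x hx]; exact e4 a.1 (Or.inl ⟨a, ha, rfl⟩)
      · intro b hb
        show (z' x).1 < b.1
        rw [hz' x hx]; exact e5 b.1 (Or.inl ⟨b, hb, rfl⟩)
    · intro x hx x' hx' hlt
      show (z' x).1 < (y' x').1
      rw [hz' x hx, hy' x' hx']
      exact h2 x.1 (D.mono (le_max_left _ _) hx) x'.1 (D.mono (le_max_left _ _) hx') hlt

/-- extension by the identity of an automorphism of a convex subset -/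
theorem extend_iso (S : Set (L × Bool)) (f : Iv S ≃o Iv S) :
    ∃ F : L ≃o L, (∀ x : Iv S, F x.1 = (f x).1) ∧ ∀ x, x ∉ Iv S → F x = x := by
  classical
  let φ : L → L := fun x => if h : x ∈ Iv S then (f ⟨x, h⟩).1 else x
  have h1 : ∀ x (h : x ∈ Iv S), φ x = (f ⟨x, h⟩).1 := fun x h => by simp [φ, h]
  have h2 : ∀ x, x ∉ Iv S → φ x = x := fun x h => by simp [φ, h]
  have hsm : StrictMono φ := by
    intro x y hxy
    by_cases hx : x ∈ Iv S <;> by_cases hy : y ∈ Iv S
    · rw [h1 x hx, h1 y hy]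
      have : f ⟨x, hx⟩ < f ⟨y, hy⟩ := f.strictMono (show (⟨x, hx⟩ : Iv S) < ⟨y, hy⟩ from hxy)
      exact this
    · rw [h1 x hx, h2 y hy]
      by_contra hc
      exact hy (Iv_ordConnected hx (f ⟨x, hx⟩).2 hxy.le (not_lt.mp hc))
    · rw [h2 x hx, h1 y hy]
      by_contra hc
      exact hx (Iv_ordConnected (f ⟨y, hy⟩).2 hy (not_lt.mp hc) hxy.le)
    · rw [h2 x hx, h2 y hy]; exact hxy
  have hsurj : Function.Surjective φ := by
    intro y
    by_cases hy : y ∈ Iv S
    · refine ⟨(f.symm ⟨y, hy⟩).1, ?_⟩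
      rw [h1 _ (f.symm ⟨y, hy⟩).2]
      simp
    · exact ⟨y, h2 y hy⟩
  refine ⟨StrictMono.orderIsoOfSurjective φ hsm hsurj, ?_, ?_⟩
  · intro x
    show φ x.1 = _
    exact h1 x.1 x.2
  · intro x hx
    exact h2 x hx

/-- Every colouring that is coarse with respect to `W` is preserved by a non-identity order
automorphism. -/
theorem exists_aut [WellFoundedLT W] [Nonempty L] {K : Type*} (D : Filt L W)
    (hK : ∀ g : W → K, ¬ Function.Injective g) (c : L → K) :
    ∃ f : L ≃o L, (∃ x, f x ≠ x) ∧ ∀ t, c (f t) = c t := by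
  classical
  obtain ⟨S, hS, hhom⟩ := exists_homog D c hK
  let D' := restrict D S hS
  obtain ⟨w0, hw0⟩ := hS.1
  -- a point in the interval
  obtain ⟨x0⟩ := ‹Nonempty L›
  obtain ⟨wx, hwx⟩ := D.cover x0
  obtain ⟨w', y, z, h1, -⟩ := D.fill (max w0 wx) {a | (a, false) ∈ S} {b | (b, true) ∈ S}
    (fun a ha => D.mono (le_max_left _ _) (hw0 _ ha))
    (fun a ha => D.mono (le_max_left _ _) (hw0 _ ha))
    (fun a ha b hb => hS.2 a ha b hb)
  obtain ⟨-, -, e3, e4, e5⟩ := h1 x0 (D.mono (le_max_right _ _) hwx)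
  have hy : y x0 ∈ Iv S := ⟨e4, fun b hb => e3.trans (e5 b hb)⟩
  set p := y x0 with hp
  obtain ⟨wp, hwp⟩ := D.cover p
  -- a larger point of the same colour
  have hS1 : GoodIv D (S ∪ {(p, false)}) := by
    constructor
    · refine ⟨max w0 wp, ?_⟩
      rintro s (hs | hs)
      · exact D.mono (le_max_left _ _) (hw0 _ hs)
      · rw [mem_singleton_iff] at hs
        subst hs
        exact D.mono (le_max_right _ _) hwp
    · rintro a (ha | ha) b (hb | hb)
      · exact hS.2 a ha b hb
      · simp at hb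
      · have : a = p := by simpa using ha
        rw [this]; exact hy.2 b hb
      · simp at hb
  obtain ⟨q, hq, hcq⟩ := hhom _ hS1 subset_union_left ⟨p, hy, rfl⟩
  have hqS : q ∈ Iv S := Iv_anti subset_union_left hq
  have hpq : p < q := hq.1 p (Or.inr rfl)
  have hdense : Dense D'.lev (fun x : Iv S => c x.1) := by
    intro w A B hA hB hAB x1
    have hS2 : GoodIv D (S ∪ (fun a : Iv S => (a.1, false)) '' A ∪
        (fun b : Iv S => (b.1, true)) '' B) := by
      constructor
      · refine ⟨max w0 w, ?_⟩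
        rintro s ((hs | ⟨a, ha, rfl⟩) | ⟨b, hb, rfl⟩)
        · exact D.mono (le_max_left _ _) (hw0 _ hs)
        · exact D.mono (le_max_right _ _) (hA ha)
        · exact D.mono (le_max_right _ _) (hB hb)
      · rintro a ((ha | ⟨a, ha, e⟩) | ⟨b, hb, e⟩) b' ((hb' | ⟨a', ha', e'⟩) | ⟨b', hb', e'⟩)
        · exact hS.2 _ ha _ hb'
        · simp at e'
        · simp only [Prod.mk.injEq, and_true] at e'
          subst e'
          exact b'.2.1 _ ha
        · simp only [Prod.mk.injEq, and_true] at e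
          subst e
          exact a.2.2 _ hb'
        · simp at e'
        · simp only [Prod.mk.injEq, and_true] at e e'
          subst e
          subst e'
          exact hAB a ha b' hb'
        · simp at e
        · simp at e
        · simp at e
    obtain ⟨t, ht, hct⟩ := hhom _ hS2 (subset_union_left.trans subset_union_left)
      ⟨x1.1, x1.2, rfl⟩
    refine ⟨⟨t, Iv_anti (subset_union_left.trans subset_union_left) ht⟩, hct, ?_, ?_⟩
    · intro a ha
      exact ht.1 a.1 (Or.inl (Or.inr ⟨a, ha, rfl⟩))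
    · intro b hb
      exact ht.2 b.1 (Or.inr ⟨b, hb, rfl⟩)
  obtain ⟨f, hf1, hf2⟩ := exists_iso_of_dense D' (fun x : Iv S => c x.1) hdense ⟨p, hy⟩ ⟨q, hqS⟩
    hcq.symm
  obtain ⟨F, hF1, hF2⟩ := extend_iso S f
  refine ⟨F, ⟨p, ?_⟩, ?_⟩
  · rw [hF1 ⟨p, hy⟩, hf1]
    exact hpq.ne'
  · intro t
    by_cases ht : t ∈ Iv S
    · rw [hF1 ⟨t, ht⟩]
      exact hf2 ⟨t, ht⟩
    · rw [hF2 t ht]

end

end Pool.Agent.Hhelper36.ColOrder
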