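import Pool.Agent.Hhelper36.KostkaFactor

/-!
Assembly: finiteness of the set of stretched functions with prescribed value at 1, given
finiteness for a fixed number of rows.
-/

set_option autoImplicit false

namespace Pool.Agent.Hhelper36.Kostka

open Finset

/-- the stretched function -/
noncomputable def SF (n : ℕ) (lam nu : ℕ → ℕ) : ℕ → ℕ :=
  fun k => K n (fun i => k * lam i) (fun i => k * nu i)

theorem SF_factor {n i : ℕ} {lam nu : ℕ → ℕ} (hin : i ≤ n) (hanti : Anti n lam)
    (heq : ∑ j ∈ range i, nu j = ∑ j ∈ range i, lam j) :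
    SF n lam nu = SF i lam nu * SF (n - i) (fun j => lam (i + j)) (fun j => nu (i + j)) := by
  funext k
  exact K_factor hin (fun i hi => Nat.mul_le_mul_left k (hanti i hi))
    (by rw [← mul_sum, ← mul_sum, heq])

theorem special_scale {n : ℕ} {lam : ℕ → ℕ} (k : ℕ) (h : Special n lam) :
    Special n (fun i => k * lam i) := by
  rcases h with h | h
  · left; intro i h1 h2; simp only; rw [h i h1 h2]
  · right; intro i h1; simp only; rw [h i h1]

theorem SF_special {n : ℕ} {lam nu : ℕ → ℕ} (hs : Special n lam) (hpos : 0 < K n lam nu) :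
    SF n lam nu = 1 := by
  funext k
  have h1 := special_le_one (nu := fun i => k * nu i) (special_scale k hs)
  have h2 := K_scale_pos k hpos
  show K n (fun i => k * lam i) (fun i => k * nu i) = 1
  omega

/-- either primitive or factorisable -/
theorem prim_or {n : ℕ} {lam nu : ℕ → ℕ} (h1 : Anti n lam) (h2 : Anti n nu)
    (hpos : 0 < K n lam nu) : Prim n lam nu ∨ ∃ i, 0 < i ∧ i < n ∧
      ∑ j ∈ range i, nu j = ∑ j ∈ range i, lam j := by
  obtain ⟨x, hx⟩ := K_pos_iff.mp hpos
  by_cases h : ∃ i, 0 < i ∧ i < n ∧ ∑ j ∈ range i, nu j = ∑ j ∈ range i, lam j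
  · exact Or.inr h
  · push Not at h
    left
    refine ⟨⟨h1, h2, gt_sum hx, fun l hl => gt_dom hx hl⟩, fun l hl1 hl2 => ?_⟩
    exact lt_of_le_of_ne (gt_dom hx hl2.le) (h l hl1 hl2)

theorem Anti.shift {n i : ℕ} {lam : ℕ → ℕ} (h : Anti n lam) (hin : i ≤ n) :
    Anti (n - i) (fun j => lam (i + j)) := fun j hj => h (i + j) (by omega)

theorem SF_one : ∀ (n : ℕ) (lam nu : ℕ → ℕ), Anti n lam → Anti n nu → K n lam nu = 1 →
    SF n lam nu = 1 := by
  intro n
  induction n using Nat.strong_induction_on with
  | _ n ih =>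
    intro lam nu h1 h2 hK
    rcases prim_or h1 h2 (by omega) with hp | ⟨i, hi0, hin, heq⟩
    · by_cases hs : Special n lam
      · exact SF_special hs (by omega)
      · have := lower_bound hp hs
        omega
    · have hf := K_factor hin.le h1 heq
      rw [hK] at hf
      have hf' := Nat.eq_one_of_mul_eq_one_right hf.symm
      have hf'' := Nat.eq_one_of_mul_eq_one_left hf.symm
      rw [SF_factor hin.le h1 heq, ih i hin lam nu (h1.mono hin.le) (h2.mono hin.le) hf',
        ih (n - i) (by omega) _ _ (h1.shift hin.le) (h2.shift hin.le) hf'']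
      simp

/-- all stretched functions with value `m` at `1` -/
def SS (m : ℕ) : Set (ℕ → ℕ) :=
  {F | ∃ (n : ℕ) (lam nu : ℕ → ℕ), Anti n lam ∧ Anti n nu ∧ K n lam nu = m ∧ F = SF n lam nu}

/-- those with a fixed number of rows -/
def SSn (n m : ℕ) : Set (ℕ → ℕ) :=
  {F | ∃ (lam nu : ℕ → ℕ), K n lam nu = m ∧ F = SF n lam nu}

theorem SS_finite (hfix : ∀ n m, 0 < m → (SSn n m).Finite) : ∀ m, 0 < m → (SS m).Finite := by
  intro m
  induction m using Nat.strong_induction_on with
  | _ m ihm =>
    intro hm
    -- the covering set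
    have hcov : ∀ (n : ℕ) (lam nu : ℕ → ℕ), Anti n lam → Anti n nu → K n lam nu = m →
        SF n lam nu ∈ ({1} : Set (ℕ → ℕ)) ∪ (⋃ n' ∈ Set.Iic (2 * m), SSn n' m) ∪
          (⋃ a ∈ {a | 0 < a ∧ a < m}, ⋃ b ∈ {b | 0 < b ∧ b < m},
            (fun p : (ℕ → ℕ) × (ℕ → ℕ) => p.1 * p.2) '' (SS a ×ˢ SS b)) := by
      intro n
      induction n using Nat.strong_induction_on with
      | _ n ihn =>
        intro lam nu h1 h2 hK
        rcases prim_or h1 h2 (by omega) with hp | ⟨i, hi0, hin, heq⟩
        · by_cases hs : Special n lam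
          · left; left
            exact SF_special hs (by omega)
          · left; right
            have := lower_bound hp hs
            refine Set.mem_biUnion (show n ∈ Set.Iic (2 * m) from ?_) ⟨lam, nu, hK, rfl⟩
            simp only [Set.mem_Iic]
            omega
        · have hf := K_factor hin.le h1 heq
          rw [hK] at hf
          set a := K i lam nu with ha
          set b := K (n - i) (fun j => lam (i + j)) (fun j => nu (i + j)) with hb
          have ha0 : 0 < a := Nat.pos_of_ne_zero (fun h => by rw [h] at hf; omega)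
          have hb0 : 0 < b := Nat.pos_of_ne_zero (fun h => by rw [h] at hf; omega)
          by_cases ha1 : a = 1
          · have hbm : b = m := by rw [hf, ha1, one_mul]
            rw [SF_factor hin.le h1 heq, SF_one i lam nu (h1.mono hin.le) (h2.mono hin.le) ha1,
              one_mul]
            exact ihn (n - i) (by omega) _ _ (h1.shift hin.le) (h2.shift hin.le) hbm
          · by_cases hb1 : b = 1
            · have ham : a = m := by rw [hf, hb1, mul_one]
              rw [SF_factor hin.le h1 heq,
                SF_one (n - i) _ _ (h1.shift hin.le) (h2.shift hin.le) hb1, mul_one]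
              exact ihn i hin _ _ (h1.mono hin.le) (h2.mono hin.le) ham
            · right
              have ham : a < m := by
                rw [hf]
                exact (Nat.lt_mul_iff_one_lt_right ha0).mpr (by omega)
              have hbm : b < m := by
                rw [hf]
                exact (Nat.lt_mul_iff_one_lt_left hb0).mpr (by omega)
              refine Set.mem_biUnion (show a ∈ {a | 0 < a ∧ a < m} from ⟨ha0, ham⟩) ?_
              refine Set.mem_biUnion (show b ∈ {b | 0 < b ∧ b < m} from ⟨hb0, hbm⟩) ?_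
              refine ⟨(SF i lam nu, SF (n - i) (fun j => lam (i + j)) (fun j => nu (i + j))),
                ⟨⟨i, lam, nu, h1.mono hin.le, h2.mono hin.le, ha.symm, rfl⟩,
                  ⟨n - i, _, _, h1.shift hin.le, h2.shift hin.le, hb.symm, rfl⟩⟩, ?_⟩
              exact (SF_factor hin.le h1 heq).symm
    have hfin : (({1} : Set (ℕ → ℕ)) ∪ (⋃ n' ∈ Set.Iic (2 * m), SSn n' m) ∪
          (⋃ a ∈ {a | 0 < a ∧ a < m}, ⋃ b ∈ {b | 0 < b ∧ b < m},
            (fun p : (ℕ → ℕ) × (ℕ → ℕ) => p.1 * p.2) '' (SS a ×ˢ SS b))).Finite := by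
      have hf1 : {a | 0 < a ∧ a < m}.Finite := (Set.finite_lt_nat m).subset (fun a ha => ha.2)
      refine ((Set.finite_singleton _).union ?_).union ?_
      · exact (Set.finite_Iic _).biUnion (fun n' _ => hfix n' m hm)
      · refine hf1.biUnion (fun a ha => hf1.biUnion (fun b hb => ?_))
        exact ((ihm a ha.2 ha.1).prod (ihm b hb.2 hb.1)).image _
    refine hfin.subset ?_
    rintro F ⟨n, lam, nu, h1, h2, hK, rfl⟩
    exact hcov n lam nu h1 h2 hK

end Pool.Agent.Hhelper36.Kostka
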