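import Pool.Agent.Hhelper36.KostkaGT

/-!
Basic facts on Gelfand-Tsetlin patterns: finiteness, extension by a top row, scaling, dominance.
-/

set_option autoImplicit false

namespace Pool.Agent.Hhelper36.Kostka

open Finset

theorem gt_top {n : ℕ} {lam nu : ℕ → ℕ} {x : ℕ → ℕ → ℕ} (hx : x ∈ GT n lam nu) {i : ℕ}
    (hi : i < n) : x n i = lam i := hx.2.1 i hi

/-- entries increase along columns -/
theorem gt_mono {n : ℕ} {lam nu : ℕ → ℕ} {x : ℕ → ℕ → ℕ} (hx : x ∈ GT n lam nu) {i c : ℕ}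
    (hic : i < c) : ∀ d, c + d ≤ n → x c i ≤ x (c + d) i := by
  intro d
  induction d with
  | zero => intro _; exact le_rfl
  | succ d ih =>
    intro h
    exact (ih (by omega)).trans (hx.2.2.1 (c + d) i (by omega) (by omega)).2

theorem gt_le_top {n : ℕ} {lam nu : ℕ → ℕ} {x : ℕ → ℕ → ℕ} (hx : x ∈ GT n lam nu) {i c : ℕ}
    (hic : i < c) (hcn : c ≤ n) : x c i ≤ lam i := by
  have h := gt_mono hx hic (n - c) (by omega)
  rw [show c + (n - c) = n by omega] at h
  rwa [gt_top hx (by omega)] at h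

theorem gt_finite (n : ℕ) (lam nu : ℕ → ℕ) : (GT n lam nu).Finite := by
  classical
  set B := ∑ i ∈ range n, lam i with hB
  have hbound : ∀ x ∈ GT n lam nu, ∀ c i, x c i ≤ B := by
    intro x hx c i
    by_cases h : n < c ∨ c ≤ i
    · rw [hx.1 c i h]; exact Nat.zero_le _
    · push Not at h
      refine (gt_le_top hx h.2 h.1).trans ?_
      exact single_le_sum (f := lam) (fun _ _ => Nat.zero_le _) (mem_range.mpr (by omega))
  let Φ : (ℕ → ℕ → ℕ) → (Fin (n + 1) → Fin (n + 1) → Fin (B + 1)) :=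
    fun x c i => Fin.ofNat (B + 1) (x c i)
  refine Set.Finite.of_finite_image (Set.toFinite (Φ '' GT n lam nu)) ?_
  intro x hx y hy hxy
  funext c i
  by_cases h : n < c ∨ c ≤ i
  · rw [hx.1 c i h, hy.1 c i h]
  · push Not at h
    have h1 := congrFun (congrFun hxy ⟨c, by omega⟩) ⟨i, by omega⟩
    have h2 := congrArg Fin.val h1
    simp only [Φ, Fin.val_ofNat] at h2
    have hx' := hbound x hx c i
    have hy' := hbound y hy c i
    rwa [Nat.mod_eq_of_lt (by omega), Nat.mod_eq_of_lt (by omega)] at h2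

/-- number of patterns -/
noncomputable def K (n : ℕ) (lam nu : ℕ → ℕ) : ℕ := (GT n lam nu).ncard

theorem K_pos_iff {n : ℕ} {lam nu : ℕ → ℕ} : 0 < K n lam nu ↔ (GT n lam nu).Nonempty :=
  Set.ncard_pos (gt_finite n lam nu)

/-- interlacing of a possible next row -/
def Inter (n : ℕ) (lam mu : ℕ → ℕ) : Prop := ∀ i, i < n → lam (i + 1) ≤ mu i ∧ mu i ≤ lam i

/-- add a top row -/
def addTop (n : ℕ) (lam : ℕ → ℕ) (x : ℕ → ℕ → ℕ) : ℕ → ℕ → ℕ :=
  fun c i => if c = n + 1 then (if i < n + 1 then lam i else 0) else x c i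

theorem addTop_top {n : ℕ} {lam : ℕ → ℕ} {x : ℕ → ℕ → ℕ} {i : ℕ} (hi : i < n + 1) :
    addTop n lam x (n + 1) i = lam i := by
  simp [addTop, hi]

theorem addTop_ne {n : ℕ} {lam : ℕ → ℕ} {x : ℕ → ℕ → ℕ} {c i : ℕ} (hc : c ≠ n + 1) :
    addTop n lam x c i = x c i := by
  simp [addTop, hc]

theorem addTop_mem {n : ℕ} {lam mu nu : ℕ → ℕ} (hint : Inter n lam mu)
    (hsum : ∑ i ∈ range (n + 1), lam i = ∑ i ∈ range (n + 1), nu i)
    {x : ℕ → ℕ → ℕ} (hx : x ∈ GT n mu nu) : addTop n lam x ∈ GT (n + 1) lam nu := by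
  refine ⟨?_, ?_, ?_, ?_⟩
  · intro c i h
    simp only [addTop]
    split_ifs with h1 h2
    · omega
    · rfl
    · exact hx.1 c i (by omega)
  · intro i hi
    simp [addTop, hi]
  · intro c i hc hi
    rcases Nat.lt_succ_iff_lt_or_eq.mp hc with h | h
    · rw [addTop_ne (by omega), addTop_ne (by omega), addTop_ne (by omega)]
      exact hx.2.2.1 c i h hi
    · subst h
      rw [addTop_top (by omega), addTop_ne (by omega), addTop_top (by omega), gt_top hx hi]
      exact hint i hi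
  · intro c hc
    rcases Nat.le_succ_iff.mp hc with h | h
    · rw [← hx.2.2.2 c h]
      exact sum_congr rfl (fun i _ => addTop_ne (by omega))
    · subst h
      rw [← hsum]
      exact sum_congr rfl (fun i hi => addTop_top (mem_range.mp hi))

theorem addTop_injOn (n : ℕ) (lam mu nu : ℕ → ℕ) :
    Set.InjOn (addTop n lam) (GT n mu nu) := by
  intro x hx y hy h
  funext c i
  by_cases hc : c = n + 1
  · rw [hx.1 c i (by omega), hy.1 c i (by omega)]
  · have := congrFun (congrFun h c) i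
    simpa [addTop, hc] using this

theorem K_add_le {n : ℕ} {lam mu mu' nu : ℕ → ℕ} (h1 : Inter n lam mu) (h2 : Inter n lam mu')
    (hsum : ∑ i ∈ range (n + 1), lam i = ∑ i ∈ range (n + 1), nu i)
    (hne : ∃ i, i < n ∧ mu i ≠ mu' i) : K n mu nu + K n mu' nu ≤ K (n + 1) lam nu := by
  obtain ⟨i, hi, hne⟩ := hne
  unfold K
  rw [← (addTop_injOn n lam mu nu).ncard_image, ← (addTop_injOn n lam mu' nu).ncard_image]
  rw [← Set.ncard_union_eq ?_ ((gt_finite _ _ _).image _) ((gt_finite _ _ _).image _)]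
  · refine Set.ncard_le_ncard ?_ (gt_finite _ _ _)
    rintro _ (⟨x, hx, rfl⟩ | ⟨x, hx, rfl⟩)
    · exact addTop_mem h1 hsum hx
    · exact addTop_mem h2 hsum hx
  · rw [Set.disjoint_left]
    rintro _ ⟨x, hx, rfl⟩ ⟨y, hy, h⟩
    have := congrFun (congrFun h n) i
    simp only [addTop] at this
    rw [if_neg (by omega), if_neg (by omega), gt_top hx hi, gt_top hy hi] at this
    exact hne this.symm

theorem K_le_of_inter {n : ℕ} {lam mu nu : ℕ → ℕ} (h1 : Inter n lam mu)
    (hsum : ∑ i ∈ range (n + 1), lam i = ∑ i ∈ range (n + 1), nu i) :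
    K n mu nu ≤ K (n + 1) lam nu := by
  unfold K
  rw [← (addTop_injOn n lam mu nu).ncard_image]
  refine Set.ncard_le_ncard ?_ (gt_finite _ _ _)
  rintro _ ⟨x, hx, rfl⟩
  exact addTop_mem h1 hsum hx

/-- scaling a pattern -/
theorem scale_mem {n : ℕ} {lam nu : ℕ → ℕ} {x : ℕ → ℕ → ℕ} (k : ℕ) (hx : x ∈ GT n lam nu) :
    (fun c i => k * x c i) ∈ GT n (fun i => k * lam i) (fun i => k * nu i) := by
  refine ⟨?_, ?_, ?_, ?_⟩
  · intro c i h
    simp [hx.1 c i h]
  · intro i hi
    simp [hx.2.1 i hi]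
  · intro c i hc hi
    obtain ⟨h1, h2⟩ := hx.2.2.1 c i hc hi
    exact ⟨Nat.mul_le_mul_left k h1, Nat.mul_le_mul_left k h2⟩
  · intro c hc
    rw [← mul_sum, ← mul_sum, hx.2.2.2 c hc]

theorem K_scale_pos {n : ℕ} {lam nu : ℕ → ℕ} (k : ℕ) (h : 0 < K n lam nu) :
    0 < K n (fun i => k * lam i) (fun i => k * nu i) := by
  rw [K_pos_iff] at h ⊢
  obtain ⟨x, hx⟩ := h
  exact ⟨_, scale_mem k hx⟩

/-- the top row of a pattern is weakly decreasing -/
theorem gt_anti {n : ℕ} {lam nu : ℕ → ℕ} {x : ℕ → ℕ → ℕ} (hx : x ∈ GT n lam nu) {i : ℕ}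
    (hi : i + 1 < n) : lam (i + 1) ≤ lam i := by
  obtain ⟨m, rfl⟩ : ∃ m, n = m + 1 := ⟨n - 1, by omega⟩
  obtain ⟨h1, h2⟩ := hx.2.2.1 m i (by omega) (by omega)
  rw [gt_top hx (by omega)] at h1 h2
  exact h1.trans h2

/-- dominance -/
theorem gt_dom {n : ℕ} {lam nu : ℕ → ℕ} {x : ℕ → ℕ → ℕ} (hx : x ∈ GT n lam nu) {l : ℕ}
    (hl : l ≤ n) : ∑ i ∈ range l, nu i ≤ ∑ i ∈ range l, lam i := by
  rw [← hx.2.2.2 l hl]
  refine sum_le_sum (fun i hi => ?_)
  exact gt_le_top hx (mem_range.mp hi) hl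

theorem gt_sum {n : ℕ} {lam nu : ℕ → ℕ} {x : ℕ → ℕ → ℕ} (hx : x ∈ GT n lam nu) :
    ∑ i ∈ range n, lam i = ∑ i ∈ range n, nu i := by
  rw [← hx.2.2.2 n le_rfl]
  exact sum_congr rfl (fun i hi => (gt_top hx (mem_range.mp hi)).symm)

/-- weakly decreasing on the first `n` places -/
def Anti (n : ℕ) (lam : ℕ → ℕ) : Prop := ∀ i, i + 1 < n → lam (i + 1) ≤ lam i

theorem Anti.le {n : ℕ} {lam : ℕ → ℕ} (h : Anti n lam) {i j : ℕ} (hij : i ≤ j) (hj : j < n) :
    lam j ≤ lam i := by
  obtain ⟨d, rfl⟩ := Nat.exists_eq_add_of_le hij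
  clear hij
  induction d with
  | zero => exact le_rfl
  | succ d ih => exact (h (i + d) (by omega)).trans (ih (by omega))

/-- the greedy next row: remove `t` boxes as low as possible -/
def greedy (t : ℕ) (lam : ℕ → ℕ) : ℕ → ℕ :=
  fun i => max (lam (i + 1)) (min (lam i) (lam i + lam (i + 1) - t))

theorem greedy_inter {n : ℕ} {lam : ℕ → ℕ} (h : Anti (n + 1) lam) (t : ℕ) :
    Inter n lam (greedy t lam) := by
  intro i hi
  have := h i (by omega)
  simp only [greedy]
  omega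

theorem greedy_sum {n : ℕ} {lam : ℕ → ℕ} {t : ℕ} (h : Anti (n + 1) lam) (ht : t ≤ lam 0) :
    ∀ l, l ≤ n → ∑ i ∈ range l, greedy t lam i =
      min (∑ i ∈ range l, lam i) (∑ i ∈ range (l + 1), lam i - t) := by
  intro l
  induction l with
  | zero => intro _; simp
  | succ l ih =>
    intro hl
    rw [sum_range_succ, ih (by omega), sum_range_succ (fun i => lam i) (l + 1),
      sum_range_succ (fun i => lam i) l]
    have h1 := h l (by omega)
    have h0 : lam l ≤ lam 0 := h.le (Nat.zero_le _) (by omega)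
    have h2 : lam 0 ≤ ∑ i ∈ range l, lam i ∨ l = 0 := by
      rcases Nat.eq_zero_or_pos l with h | h
      · exact Or.inr h
      · left
        exact single_le_sum (f := lam) (fun _ _ => Nat.zero_le _) (mem_range.mpr h)
    simp only [greedy]
    rcases h2 with h2 | rfl
    · omega
    · simp only [range_zero, sum_empty]
      omega

/-- weak dominance data -/
structure Weak (n : ℕ) (lam nu : ℕ → ℕ) : Prop where
  anti : Anti n lam
  anti' : Anti n nu
  sum : ∑ i ∈ range n, lam i = ∑ i ∈ range n, nu i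
  dom : ∀ l, l ≤ n → ∑ i ∈ range l, nu i ≤ ∑ i ∈ range l, lam i

/-- primitive pairs -/
structure Prim (n : ℕ) (lam nu : ℕ → ℕ) : Prop extends Weak n lam nu where
  strict : ∀ l, 0 < l → l < n → ∑ i ∈ range l, nu i < ∑ i ∈ range l, lam i

theorem Anti.mono {n m : ℕ} {lam : ℕ → ℕ} (h : Anti n lam) (hmn : m ≤ n) : Anti m lam :=
  fun i hi => h i (by omega)

theorem inter_anti {n : ℕ} {lam mu : ℕ → ℕ} (h : Inter n lam mu) : Anti n mu :=
  fun i hi => ((h (i + 1) (by omega)).2).trans ((h i (by omega)).1)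

theorem last_le_first {n : ℕ} {lam nu : ℕ → ℕ} (h : Weak (n + 1) lam nu) : nu n ≤ lam 0 := by
  have h1 := h.dom 1 (by omega)
  simp only [sum_range_one] at h1
  exact (h.anti'.le (Nat.zero_le _) (by omega)).trans h1

theorem sum_pred {n : ℕ} {lam nu mu : ℕ → ℕ} (h : Weak (n + 1) lam nu)
    (hs : ∑ i ∈ range n, mu i = ∑ i ∈ range (n + 1), lam i - nu n) :
    ∑ i ∈ range n, mu i = ∑ i ∈ range n, nu i := by
  have h1 := h.sum
  rw [sum_range_succ (fun i => nu i)] at h1
  omega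

theorem greedy_weak {n : ℕ} {lam nu : ℕ → ℕ} (h : Weak (n + 1) lam nu) :
    Weak n (greedy (nu n) lam) nu := by
  have ht := last_le_first h
  have hs := greedy_sum h.anti ht
  refine ⟨inter_anti (greedy_inter h.anti _), h.anti'.mono (by omega), ?_, ?_⟩
  · rw [hs n le_rfl]
    have h1 := h.sum
    have h2 := h.dom n (by omega)
    rw [sum_range_succ (fun i => lam i), sum_range_succ (fun i => nu i)] at *
    have h3 : ∑ i ∈ range n, nu i ≤ ∑ i ∈ range n, lam i := h2
    omega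
  · intro l hl
    rw [hs l hl]
    have h2 := h.dom l (by omega)
    have h3 := h.dom (l + 1) (by omega)
    rw [sum_range_succ (fun i => nu i)] at h3
    have h4 : nu n ≤ nu l := h.anti'.le hl (by omega)
    omega

theorem greedy_prim {n : ℕ} {lam nu : ℕ → ℕ} (h : Prim (n + 1) lam nu) :
    Prim n (greedy (nu n) lam) nu := by
  refine ⟨greedy_weak h.toWeak, ?_⟩
  have ht := last_le_first h.toWeak
  intro l hl hln
  rw [greedy_sum h.anti ht l hln.le]
  have h2 := h.strict l hl (by omega)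
  have h3 := h.strict (l + 1) (by omega) (by omega)
  rw [sum_range_succ (fun i => nu i)] at h3
  have h4 : nu n ≤ nu l := h.anti'.le hln.le (by omega)
  omega

/-- existence of a pattern -/
theorem exists_gt : ∀ (n : ℕ) (lam nu : ℕ → ℕ), Weak n lam nu → 0 < K n lam nu := by
  intro n
  induction n with
  | zero =>
    intro lam nu _
    rw [K_pos_iff]
    refine ⟨fun _ _ => 0, fun _ _ _ => rfl, fun i hi => absurd hi (by omega),
      fun c i hc => absurd hc (by omega), fun c hc => ?_⟩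
    obtain rfl : c = 0 := by omega
    simp
  | succ n ih =>
    intro lam nu h
    have := ih _ _ (greedy_weak h)
    exact this.trans_le (K_le_of_inter (greedy_inter h.anti _) h.sum)

/-- saturation -/
theorem K_zero_of_zero {n : ℕ} {lam nu : ℕ → ℕ} (h1 : Anti n lam) (h2 : Anti n nu)
    (h0 : K n lam nu = 0) {k : ℕ} (hk : 1 ≤ k) :
    K n (fun i => k * lam i) (fun i => k * nu i) = 0 := by
  by_contra hne
  obtain ⟨x, hx⟩ := K_pos_iff.mp (Nat.pos_of_ne_zero hne)
  have hw : Weak n lam nu := by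
    refine ⟨h1, h2, ?_, ?_⟩
    · have := gt_sum hx
      rw [← mul_sum, ← mul_sum] at this
      exact Nat.eq_of_mul_eq_mul_left (by omega) this
    · intro l hl
      have := gt_dom hx hl
      rw [← mul_sum, ← mul_sum] at this
      exact Nat.le_of_mul_le_mul_left this (by omega)
  have := exists_gt n lam nu hw
  omega

end Pool.Agent.Hhelper36.Kostka
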