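import Pool.Agent.Hhelper36.KostkaFixed

/-!
Semistandard tableaux (in the form of the frozen statement) and Gelfand-Tsetlin patterns.
-/

set_option autoImplicit false

namespace Pool.Agent.Hhelper36.Kostka

open Finset

/-- the tableaux of the frozen statement -/
def Tab (lam nu : ℕ → ℕ) (T : ℕ × ℕ → ℕ) : Prop :=
  (∀ x : ℕ × ℕ, ¬ (x.2 < lam x.1) → T x = 0) ∧
  (∀ i j : ℕ, j + 1 < lam i → T (i, j) ≤ T (i, j + 1)) ∧
  (∀ i j : ℕ, j < lam (i + 1) → T (i, j) < T (i + 1, j)) ∧
  (∀ c : ℕ, Set.ncard {x : ℕ × ℕ | x.2 < lam x.1 ∧ T x = c} = nu c)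

/-- number of entries smaller than `c` in row `i` -/
noncomputable def cnt (lam : ℕ → ℕ) (T : ℕ × ℕ → ℕ) (c i : ℕ) : ℕ :=
  ((range (lam i)).filter (fun j => T (i, j) < c)).card

section

variable {lam nu : ℕ → ℕ} {T : ℕ × ℕ → ℕ}

theorem tab_row (hT : Tab lam nu T) {i j j' : ℕ} (h : j ≤ j') (h' : j' < lam i) :
    T (i, j) ≤ T (i, j') := by
  obtain ⟨d, rfl⟩ := Nat.exists_eq_add_of_le h
  clear h
  induction d with
  | zero => exact le_rfl
  | succ d ih => exact (ih (by omega)).trans (hT.2.1 i (j + d) h')

/-- membership in the initial segment -/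
theorem lt_cnt_iff (hT : Tab lam nu T) {c i j : ℕ} : j < cnt lam T c i ↔ j < lam i ∧ T (i, j) < c := by
  classical
  -- the filtered set is an initial segment
  have hseg : (range (lam i)).filter (fun j => T (i, j) < c) = range (cnt lam T c i) := by
    have hsub : ∀ s : Finset ℕ, (∀ a ∈ s, ∀ b, b < a → b ∈ s) → s = range s.card := by
      intro s hs
      apply eq_of_subset_of_card_le
      · intro a ha
        rw [mem_range]
        have : range (a + 1) ⊆ s := by
          intro b hb
          rw [mem_range] at hb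
          rcases Nat.lt_succ_iff_lt_or_eq.mp hb with h | h
          · exact hs a ha b h
          · rw [h]; exact ha
        have := card_le_card this
        rw [card_range] at this
        omega
      · rw [card_range]
    refine hsub _ ?_
    intro a ha b hb
    rw [mem_filter, mem_range] at ha ⊢
    exact ⟨by omega, (tab_row hT hb.le ha.1).trans_lt ha.2⟩
  rw [← mem_range, ← hseg, mem_filter, mem_range]

theorem cnt_le (c i : ℕ) : cnt lam T c i ≤ lam i := by
  unfold cnt
  exact (card_filter_le _ _).trans (card_range _).le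

theorem tab_ge (hT : Tab lam nu T) (hl : Antitone lam) : ∀ i j, j < lam i → i ≤ T (i, j) := by
  intro i
  induction i with
  | zero => intro j _; exact Nat.zero_le _
  | succ i ih =>
    intro j hj
    have h1 := ih j (hj.trans_le (hl (Nat.le_succ i)))
    have h2 := hT.2.2.1 i j hj
    omega

theorem cnt_eq_zero (hT : Tab lam nu T) (hl : Antitone lam) {c i : ℕ} (h : c ≤ i) :
    cnt lam T c i = 0 := by
  by_contra hne
  have := (lt_cnt_iff hT (c := c) (i := i) (j := 0)).mp (Nat.pos_of_ne_zero hne)
  have h2 := tab_ge hT hl i 0 this.1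
  omega

theorem cnt_mono (c i : ℕ) : cnt lam T c i ≤ cnt lam T (c + 1) i := by
  unfold cnt
  refine card_le_card (fun j hj => ?_)
  rw [mem_filter] at hj ⊢
  exact ⟨hj.1, by omega⟩

theorem cnt_inter (hT : Tab lam nu T) (hl : Antitone lam) (c i : ℕ) :
    cnt lam T (c + 1) (i + 1) ≤ cnt lam T c i := by
  by_contra hc
  push Not at hc
  have h1 := (lt_cnt_iff hT).mp hc
  have h2 := hT.2.2.1 i _ h1.1
  have h3 : cnt lam T c i < cnt lam T c i :=
    (lt_cnt_iff hT).mpr ⟨h1.1.trans_le (hl (Nat.le_succ i)), by omega⟩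
  exact lt_irrefl _ h3

/-- all entries are smaller than `N` -/
theorem tab_lt {N : ℕ} (hT : Tab lam nu T) (hN : ∀ i, N ≤ i → lam i = 0 ∧ nu i = 0) {i j : ℕ}
    (hj : j < lam i) : T (i, j) < N := by
  classical
  by_contra hc
  push Not at hc
  have h1 := hT.2.2.2 (T (i, j))
  rw [(hN _ hc).2] at h1
  have hfin : {x : ℕ × ℕ | x.2 < lam x.1 ∧ T x = T (i, j)}.Finite := by
    refine ((range N).product (range (∑ i ∈ range N, lam i + 1))).finite_toSet.subset ?_
    rintro ⟨i', j'⟩ ⟨h2, -⟩
    simp only at h2
    have hi' : i' < N := by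
      by_contra hge
      rw [(hN i' (not_lt.mp hge)).1] at h2
      omega
    have := single_le_sum (f := lam) (fun _ _ => Nat.zero_le _) (mem_range.mpr hi')
    rw [mem_coe]
    refine mem_product.mpr ⟨mem_range.mpr hi', mem_range.mpr ?_⟩
    simp only
    omega
  rw [Set.ncard_eq_zero hfin] at h1
  have : (i, j) ∈ {x : ℕ × ℕ | x.2 < lam x.1 ∧ T x = T (i, j)} := ⟨hj, rfl⟩
  rw [h1] at this
  exact this

theorem cnt_top {N : ℕ} (hT : Tab lam nu T) (hN : ∀ i, N ≤ i → lam i = 0 ∧ nu i = 0) {c : ℕ}
    (hc : N ≤ c) (i : ℕ) : cnt lam T c i = lam i := by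
  unfold cnt
  rw [filter_true_of_mem, card_range]
  intro j hj
  exact (tab_lt hT hN (mem_range.mp hj)).trans_le hc

/-- content and counts -/
theorem ncard_eq_sum {N : ℕ} (hN : ∀ i, N ≤ i → lam i = 0) (T : ℕ × ℕ → ℕ) (c : ℕ) :
    Set.ncard {x : ℕ × ℕ | x.2 < lam x.1 ∧ T x = c} =
      ∑ i ∈ range N, ((range (lam i)).filter (fun j => T (i, j) = c)).card := by
  classical
  have : {x : ℕ × ℕ | x.2 < lam x.1 ∧ T x = c} =
      (((range N).sigma (fun i => (range (lam i)).filter (fun j => T (i, j) = c))).map
        (Equiv.sigmaEquivProd ℕ ℕ).toEmbedding : Finset (ℕ × ℕ)) := by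
    ext ⟨i, j⟩
    simp only [Set.mem_ofPred_eq, coe_map, Set.mem_image, mem_coe, mem_sigma, mem_range, mem_filter,
      Equiv.coe_toEmbedding]
    constructor
    · rintro ⟨h1, h2⟩
      refine ⟨⟨i, j⟩, ⟨?_, h1, h2⟩, rfl⟩
      by_contra hge
      rw [hN i (not_lt.mp hge)] at h1
      omega
    · rintro ⟨⟨i', j'⟩, ⟨-, h1, h2⟩, h3⟩
      simp only [Equiv.sigmaEquivProd_apply, Prod.mk.injEq] at h3
      obtain ⟨rfl, rfl⟩ := h3
      exact ⟨h1, h2⟩
  rw [this, Set.ncard_coe_finset, card_map, card_sigma]

theorem card_eq_cnt_sub (c i : ℕ) (T : ℕ × ℕ → ℕ) :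
    ((range (lam i)).filter (fun j => T (i, j) = c)).card + cnt lam T c i =
      cnt lam T (c + 1) i := by
  classical
  unfold cnt
  rw [← card_union_of_disjoint]
  · congr 1
    ext j
    simp only [mem_union, mem_filter, mem_range]
    constructor
    · rintro (⟨h1, h2⟩ | ⟨h1, h2⟩)
      · exact ⟨h1, by omega⟩
      · exact ⟨h1, by omega⟩
    · rintro ⟨h1, h2⟩
      rcases Nat.lt_succ_iff_lt_or_eq.mp h2 with h | h
      · exact Or.inr ⟨h1, h⟩
      · exact Or.inl ⟨h1, h⟩
  · rw [disjoint_left]
    intro j h1 h2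
    rw [mem_filter] at h1 h2
    omega

theorem sum_cnt {N : ℕ} (hN : ∀ i, N ≤ i → lam i = 0)
    (hcont : ∀ c : ℕ, Set.ncard {x : ℕ × ℕ | x.2 < lam x.1 ∧ T x = c} = nu c) :
    ∀ c, ∑ i ∈ range N, cnt lam T c i = ∑ i ∈ range c, nu i := by
  intro c
  induction c with
  | zero =>
    simp [cnt]
  | succ c ih =>
    rw [sum_range_succ, ← ih, ← hcont c, ncard_eq_sum hN T c, ← sum_add_distrib]
    refine sum_congr rfl (fun i _ => ?_)
    rw [← card_eq_cnt_sub, add_comm]

end

/-- the number of tableaux equals the number of patterns -/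
theorem card_ssyt (lam nu : ℕ → ℕ) (hl : Antitone lam) (N : ℕ)
    (hN : ∀ i, N ≤ i → lam i = 0 ∧ nu i = 0) :
    Nat.card {T : ℕ × ℕ → ℕ // Tab lam nu T} = K N lam nu := by
  classical
  rw [show Nat.card {T : ℕ × ℕ → ℕ // Tab lam nu T} = Set.ncard {T | Tab lam nu T} from rfl]
  unfold K
  refine Set.ncard_congr (fun T _ => fun c i => if c ≤ N then cnt lam T c i else 0) ?_ ?_ ?_
  · intro T hT
    refine ⟨?_, ?_, ?_, ?_⟩
    · intro c i h
      simp only
      split_ifs with h1
      · exact cnt_eq_zero hT hl (by omega)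
      · rfl
    · intro i hi
      simp only
      rw [if_pos le_rfl]
      exact cnt_top hT hN le_rfl i
    · intro c i hc hi
      simp only
      rw [if_pos (by omega), if_pos (by omega), if_pos (by omega)]
      exact ⟨cnt_inter hT hl c i, cnt_mono c i⟩
    · intro c hc
      have h1 := sum_cnt (fun i hi => (hN i hi).1) hT.2.2.2 c
      rw [← h1, ← Nat.add_sub_cancel' hc, sum_range_add]
      rw [Nat.add_sub_cancel' hc]
      have h2 : ∑ x ∈ range (N - c), cnt lam T c (c + x) = 0 :=
        sum_eq_zero (fun x _ => cnt_eq_zero hT hl (by omega))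
      rw [h2, add_zero]
      exact sum_congr rfl (fun i _ => if_pos hc)
  · intro T S hT hS h
    funext ⟨i, j⟩
    by_cases hj : j < lam i
    · have hTN := tab_lt hT hN hj
      have hSN := tab_lt hS hN hj
      have key : ∀ c, c ≤ N → (T (i, j) < c ↔ S (i, j) < c) := by
        intro c hc
        have h1 := congrFun (congrFun h c) i
        simp only [if_pos hc] at h1
        have h2 := lt_cnt_iff hT (c := c) (i := i) (j := j)
        have h3 := lt_cnt_iff hS (c := c) (i := i) (j := j)
        rw [h1] at h2
        constructor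
        · intro h4; exact (h3.mp (h2.mpr ⟨hj, h4⟩)).2
        · intro h4; exact (h2.mp (h3.mpr ⟨hj, h4⟩)).2
      have h1 := key (T (i, j) + 1) (by omega)
      have h2 := key (S (i, j) + 1) (by omega)
      omega
    · rw [hT.1 (i, j) hj, hS.1 (i, j) hj]
  · intro x hx
    -- the tableau of a pattern
    have hex : ∀ i j, j < lam i → ∃ c, c < N ∧ j < x (c + 1) i := by
      intro i j hj
      have hi : i < N := by
        by_contra hge
        rw [(hN i (not_lt.mp hge)).1] at hj
        omega
      refine ⟨N - 1, by omega, ?_⟩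
      rw [show N - 1 + 1 = N by omega, gt_top hx hi]
      exact hj
    let T : ℕ × ℕ → ℕ := fun p =>
      if h : p.2 < lam p.1 then Nat.find (hex p.1 p.2 h) else 0
    have hTdef : ∀ i j (h : j < lam i), T (i, j) = Nat.find (hex i j h) := by
      intro i j h
      simp only [T]
      rw [dif_pos h]
    have hTN : ∀ i j, j < lam i → T (i, j) < N := by
      intro i j h
      rw [hTdef i j h]
      exact (Nat.find_spec (hex i j h)).1
    -- monotonicity of the pattern in the row index, including zero entries
    have hxm : ∀ i c d, c + d ≤ N → x c i ≤ x (c + d) i := by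
      intro i c d hcd
      rcases Nat.lt_or_ge i c with h | h
      · exact gt_mono hx h d hcd
      · rw [hx.1 c i (Or.inr h)]; exact Nat.zero_le _
    have hlt : ∀ i j c, j < lam i → c ≤ N → (T (i, j) < c ↔ j < x c i) := by
      intro i j c hj hc
      constructor
      · intro h
        have h1 := (Nat.find_spec (hex i j hj)).2
        rw [← hTdef i j hj] at h1
        have h2 := hxm i (T (i, j) + 1) (c - (T (i, j) + 1)) (by omega)
        rw [show T (i, j) + 1 + (c - (T (i, j) + 1)) = c by omega] at h2
        omega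
      · intro h
        have hc0 : c ≠ 0 := by
          rintro rfl
          rw [hx.1 0 i (Or.inr (Nat.zero_le _))] at h
          omega
        rw [hTdef i j hj]
        have : Nat.find (hex i j hj) ≤ c - 1 := by
          apply Nat.find_min'
          rw [show c - 1 + 1 = c by omega]
          exact ⟨by omega, h⟩
        omega
    have hxle : ∀ i c, c ≤ N → x c i ≤ lam i := by
      intro i c hc
      rcases Nat.lt_or_ge i c with h | h
      · exact gt_le_top hx h hc
      · rw [hx.1 c i (Or.inr h)]; exact Nat.zero_le _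
    have hcntx : ∀ c i, c ≤ N → cnt lam T c i = x c i := by
      intro c i hc
      unfold cnt
      have : (range (lam i)).filter (fun j => T (i, j) < c) = range (x c i) := by
        ext j
        rw [mem_filter, mem_range, mem_range]
        constructor
        · rintro ⟨h1, h2⟩; exact (hlt i j c h1 hc).mp h2
        · intro h1
          have h2 := h1.trans_le (hxle i c hc)
          exact ⟨h2, (hlt i j c h2 hc).mpr h1⟩
      rw [this, card_range]
    have hcntN : ∀ c i, N ≤ c → cnt lam T c i = lam i := by
      intro c i hc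
      unfold cnt
      rw [filter_true_of_mem, card_range]
      intro j hj
      exact (hTN i j (mem_range.mp hj)).trans_le hc
    have hTab : Tab lam nu T := by
      refine ⟨?_, ?_, ?_, ?_⟩
      · rintro ⟨i, j⟩ h
        simp only [T]
        rw [dif_neg h]
      · intro i j hj
        have h1 := hTN i (j + 1) hj
        have h2 := (hlt i (j + 1) (T (i, j + 1) + 1) hj (by omega)).mp (by omega)
        have h3 := (hlt i j (T (i, j + 1) + 1) (by omega) (by omega)).mpr (by omega)
        omega
      · intro i j hj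
        have hji : j < lam i := hj.trans_le (hl (Nat.le_succ i))
        have h1 := hTN (i + 1) j hj
        have h2 := (hlt (i + 1) j (T (i + 1, j) + 1) hj (by omega)).mp (by omega)
        rw [hlt i j _ hji h1.le]
        have hne : i + 1 < T (i + 1, j) + 1 := by
          by_contra hge
          rw [hx.1 _ _ (Or.inr (not_lt.mp hge))] at h2
          omega
        have h3 := (hx.2.2.1 (T (i + 1, j)) i h1 (by omega)).1
        omega
      · intro c
        rw [ncard_eq_sum (fun i hi => (hN i hi).1) T c]
        have h1 : ∑ i ∈ range N, ((range (lam i)).filter (fun j => T (i, j) = c)).card +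
            ∑ i ∈ range N, cnt lam T c i = ∑ i ∈ range N, cnt lam T (c + 1) i := by
          rw [← sum_add_distrib]
          exact sum_congr rfl (fun i _ => card_eq_cnt_sub c i T)
        have hrow : ∀ c, c ≤ N → ∑ i ∈ range N, cnt lam T c i = ∑ i ∈ range c, nu i := by
          intro c hc
          rw [← hx.2.2.2 c hc]
          have e : ∑ i ∈ range N, cnt lam T c i = ∑ i ∈ range N, x c i :=
            sum_congr rfl (fun i _ => hcntx c i hc)
          obtain ⟨d, hd⟩ := Nat.exists_eq_add_of_le hc
          rw [e, hd, sum_range_add]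
          have h2 : ∑ y ∈ range d, x c (c + y) = 0 :=
            sum_eq_zero (fun y _ => hx.1 _ _ (Or.inr (by omega)))
          rw [h2, add_zero]
        rcases Nat.lt_or_ge c N with h | h
        · have h2 := hrow c h.le
          have h3 := hrow (c + 1) h
          rw [sum_range_succ] at h3
          omega
        · have h2 : ∑ i ∈ range N, cnt lam T c i = ∑ i ∈ range N, cnt lam T (c + 1) i :=
            sum_congr rfl (fun i _ => by rw [hcntN c i h, hcntN (c + 1) i (by omega)])
          rw [(hN c h).2]
          omega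
    refine ⟨T, hTab, ?_⟩
    funext c i
    split_ifs with h
    · exact hcntx c i h
    · exact (hx.1 c i (Or.inl (by omega))).symm

end Pool.Agent.Hhelper36.Kostka
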