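import Pool.Agent.Hhelper36.KostkaLower

/-!
Factorisation of the number of patterns at a place where the partial sums agree.
-/

set_option autoImplicit false

namespace Pool.Agent.Hhelper36.Kostka

open Finset

theorem eq_of_sum_eq {i : ℕ} {f g : ℕ → ℕ} (hle : ∀ j, j < i → f j ≤ g j)
    (hs : ∑ j ∈ range i, f j = ∑ j ∈ range i, g j) : ∀ j, j < i → f j = g j := by
  intro j hj
  have := (sum_eq_sum_iff_of_le (fun j hj => hle j (mem_range.mp hj))).mp hs
  exact this j (mem_range.mpr hj)

theorem frozen_rows {n i : ℕ} {lam nu : ℕ → ℕ} {x : ℕ → ℕ → ℕ} (hx : x ∈ GT n lam nu)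
    (hin : i ≤ n) (heq : ∑ j ∈ range i, nu j = ∑ j ∈ range i, lam j) {c j : ℕ} (hic : i ≤ c)
    (hcn : c ≤ n) (hj : j < i) : x c j = lam j := by
  have h1 : ∀ j, j < i → x i j = lam j :=
    eq_of_sum_eq (fun j hj => gt_le_top hx hj hin) (by rw [hx.2.2.2 i hin, heq])
  have h2 := gt_mono hx hj (c - i) (by omega)
  rw [show i + (c - i) = c by omega, h1 j hj] at h2
  exact le_antisymm (gt_le_top hx (by omega) hcn) h2

theorem K_factor {n i : ℕ} {lam nu : ℕ → ℕ} (hin : i ≤ n) (hanti : Anti n lam)
    (heq : ∑ j ∈ range i, nu j = ∑ j ∈ range i, lam j) :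
    K n lam nu = K i lam nu * K (n - i) (fun j => lam (i + j)) (fun j => nu (i + j)) := by
  classical
  unfold K
  rw [← Set.ncard_prod]
  refine Set.ncard_congr (fun x _ => ((fun c j => if c ≤ i then x c j else 0),
    (fun c j => if c ≤ n - i ∧ j < c then x (i + c) (i + j) else 0))) ?_ ?_ ?_
  · intro x hx
    constructor
    · refine ⟨?_, ?_, ?_, ?_⟩
      · intro c j h
        simp only
        split_ifs with h1
        · exact hx.1 c j (by omega)
        · rfl
      · intro j hj
        simp only
        rw [if_pos le_rfl]
        exact frozen_rows hx hin heq le_rfl hin hj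
      · intro c j hc hj
        simp only
        rw [if_pos (by omega), if_pos (by omega), if_pos (by omega)]
        exact hx.2.2.1 c j (by omega) hj
      · intro c hc
        rw [← hx.2.2.2 c (by omega)]
        exact sum_congr rfl (fun j _ => if_pos hc)
    · refine ⟨?_, ?_, ?_, ?_⟩
      · intro c j h
        simp only
        rw [if_neg (by omega)]
      · intro j hj
        simp only
        rw [if_pos ⟨le_rfl, hj⟩, show i + (n - i) = n by omega]
        exact gt_top hx (by omega)
      · intro c j hc hj
        simp only
        rw [if_pos (by omega), if_pos (by omega), if_pos (by omega)]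
        have := hx.2.2.1 (i + c) (i + j) (by omega) (by omega)
        rw [show i + c + 1 = i + (c + 1) by omega, show i + j + 1 = i + (j + 1) by omega] at this
        exact this
      · intro c hc
        have h1 := hx.2.2.2 (i + c) (by omega)
        rw [sum_range_add, sum_range_add] at h1
        have h2 : ∑ j ∈ range i, x (i + c) j = ∑ j ∈ range i, nu j := by
          rw [heq]
          exact sum_congr rfl (fun j hj =>
            frozen_rows hx hin heq (by omega) (by omega) (mem_range.mp hj))
        have h3 : ∑ j ∈ range c, (if c ≤ n - i ∧ j < c then x (i + c) (i + j) else 0) =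
            ∑ j ∈ range c, x (i + c) (i + j) := by
          refine sum_congr rfl (fun j hj => ?_)
          rw [if_pos ⟨hc, mem_range.mp hj⟩]
        simp only
        rw [h3]
        omega
  · intro x y hx hy h
    simp only [Prod.mk.injEq] at h
    obtain ⟨h1, h2⟩ := h
    funext c j
    by_cases hcj : n < c ∨ c ≤ j
    · rw [hx.1 c j hcj, hy.1 c j hcj]
    push Not at hcj
    rcases Nat.lt_or_ge i c with hc | hc
    · rcases Nat.lt_or_ge j i with hj | hj
      · rw [frozen_rows hx hin heq hc.le hcj.1 hj, frozen_rows hy hin heq hc.le hcj.1 hj]
      · have := congrFun (congrFun h2 (c - i)) (j - i)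
        rw [if_pos (by omega), if_pos (by omega), show i + (c - i) = c by omega,
          show i + (j - i) = j by omega] at this
        exact this
    · have := congrFun (congrFun h1 c) j
      rwa [if_pos hc, if_pos hc] at this
  · rintro ⟨y, z⟩ ⟨hy, hz⟩
    have hy : y ∈ GT i lam nu := hy
    have hz : z ∈ GT (n - i) (fun j => lam (i + j)) (fun j => nu (i + j)) := hz
    let g : ℕ → ℕ → ℕ := fun c j => if c ≤ i then y c j else if n < c then 0
      else if j < i then lam j else z (c - i) (j - i)
    have g1 : ∀ c j, c ≤ i → g c j = y c j := by
      intro c j h; simp [g, h]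
    have g2 : ∀ c j, i ≤ c → c ≤ n → j < i → g c j = lam j := by
      intro c j h1 h2 h3
      rcases h1.eq_or_lt with rfl | h1
      · rw [g1 _ _ le_rfl]; exact gt_top hy h3
      · simp [g, not_le.mpr h1, not_lt.mpr h2, h3]
    have g3 : ∀ c j, i ≤ c → c ≤ n → i ≤ j → g c j = z (c - i) (j - i) := by
      intro c j h1 h2 h3
      rcases h1.eq_or_lt with rfl | h1
      · rw [g1 _ _ le_rfl, hy.1 _ _ (by omega), hz.1 _ _ (by omega)]
      · simp [g, not_le.mpr h1, not_lt.mpr h2, not_lt.mpr h3]
    have hg : g ∈ GT n lam nu := by
      refine ⟨?_, ?_, ?_, ?_⟩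
      · intro c j h
        rcases Nat.lt_or_ge i c with hc | hc
        · rcases Nat.lt_or_ge n c with hn | hn
          · simp [g, not_le.mpr hc, hn]
          · rw [g3 c j hc.le hn (by omega)]
            exact hz.1 _ _ (by omega)
        · rw [g1 c j hc]
          exact hy.1 c j (by omega)
      · intro j hj
        rcases Nat.lt_or_ge j i with h | h
        · exact g2 n j hin le_rfl h
        · rw [g3 n j hin le_rfl h, gt_top hz (by omega), show i + (j - i) = j by omega]
      · intro c j hc hj
        rcases Nat.lt_or_ge c i with h | h
        · rw [g1 _ _ (by omega), g1 _ _ (by omega), g1 _ _ (by omega)]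
          exact hy.2.2.1 c j h hj
        · rcases lt_trichotomy (j + 1) i with h1 | h1 | h1
          · rw [g2 _ _ (by omega) (by omega) h1, g2 _ _ h (by omega) (by omega),
              g2 _ _ (by omega) (by omega) (by omega)]
            exact ⟨hanti j (by omega), le_rfl⟩
          · rw [g3 (c + 1) (j + 1) (by omega) (by omega) (by omega),
              g2 c j h (by omega) (by omega), g2 (c + 1) j (by omega) (by omega) (by omega)]
            refine ⟨?_, le_rfl⟩
            have h2 := gt_le_top hz (i := j + 1 - i) (c := c + 1 - i) (by omega) (by omega)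
            refine h2.trans ?_
            rw [show i + (j + 1 - i) = j + 1 by omega]
            exact hanti j (by omega)
          · rw [g3 (c + 1) (j + 1) (by omega) (by omega) (by omega),
              g3 c j h (by omega) (by omega), g3 (c + 1) j (by omega) (by omega) (by omega)]
            have := hz.2.2.1 (c - i) (j - i) (by omega) (by omega)
            rw [show c - i + 1 = c + 1 - i by omega, show j - i + 1 = j + 1 - i by omega] at this
            exact this
      · intro c hc
        rcases Nat.lt_or_ge c i with h | h
        · rw [← hy.2.2.2 c h.le]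
          exact sum_congr rfl (fun j _ => g1 c j h.le)
        · obtain ⟨d, rfl⟩ := Nat.exists_eq_add_of_le h
          rw [sum_range_add, sum_range_add]
          congr 1
          · rw [heq]
            exact sum_congr rfl (fun j hj => g2 _ j (by omega) hc (mem_range.mp hj))
          · rw [← hz.2.2.2 d (by omega)]
            refine sum_congr rfl (fun j _ => ?_)
            rw [g3 _ _ (by omega) hc (by omega), show i + d - i = d by omega,
              show i + j - i = j by omega]
    refine ⟨g, hg, ?_⟩
    simp only [Prod.mk.injEq]
    constructor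
    · funext c j
      split_ifs with h
      · exact g1 c j h
      · exact (hy.1 c j (by omega)).symm
    · funext c j
      split_ifs with h
      · rw [g3 _ _ (by omega) (by omega) (by omega), show i + c - i = c by omega,
          show i + j - i = j by omega]
      · exact (hz.1 c j (by omega)).symm

end Pool.Agent.Hhelper36.Kostka
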