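import Mathlib

/-!
Lattice points in systems of linear inequalities with a fixed matrix and varying right-hand side:
for each `m > 0` only finitely many functions `k ↦ #Q(k s)` occur with `#Q(s) = m`.
-/

set_option autoImplicit false

namespace Pool.Agent.Hhelper36.LinearFibres

variable {V : Type*} [AddCommGroup V] {I : Type*} [Fintype I]

/-- the solution set with slack vector `s` -/
def Q (a : V →+ (I → ℤ)) (s : I → ℕ) : Set V := {y | ∀ i, 0 ≤ a y i + (s i : ℤ)}

theorem eventually_const {f : ℕ → ℕ} (hf : Monotone f) {B : ℕ} (hB : ∀ j, f j ≤ B) :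
    ∃ J, ∀ j, J ≤ j → f j = f J := by
  obtain ⟨J, hJ⟩ : ∃ J, ∀ j, f j ≤ f J := by
    by_contra hc
    push Not at hc
    have : ∀ n, ∃ J, n ≤ f J := by
      intro n
      induction n with
      | zero => exact ⟨0, Nat.zero_le _⟩
      | succ n ih =>
        obtain ⟨J, hJ⟩ := ih
        obtain ⟨j, hj⟩ := hc J
        exact ⟨j, by omega⟩
    obtain ⟨J, hJ⟩ := this (B + 1)
    have := hB J
    omega
  exact ⟨J, fun j hj => le_antisymm (hJ j) (hf hj)⟩

theorem linear_bound (a : V →+ (I → ℤ)) (htf : ∀ (t : ℕ) (z : V), 0 < t → t • z = 0 → z = 0)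
    (D : Set I) (c : I → ℕ) (hfin : {y : V | ∀ i ∈ D, 0 ≤ a y i + (c i : ℤ)}.Finite)
    (b : V →+ ℤ) :
    ∃ C : ℕ, ∀ (k : ℕ) (y : V), (∀ i ∈ D, 0 ≤ a y i + (k : ℤ) * (c i : ℤ)) →
      0 ≤ b y + (C : ℤ) * (k : ℤ) := by
  classical
  by_contra hcon
  push Not at hcon
  -- recession vectors vanish
  have hrec : ∀ z : V, (∀ i ∈ D, 0 ≤ a z i) → z = 0 := by
    intro z hz
    by_contra hne
    have hinj : Function.Injective (fun t : ℕ => t • z) := by
      have key : ∀ t t' : ℕ, t < t' → t • z ≠ t' • z := by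
        intro t t' h e
        apply hne
        refine htf (t' - t) z (by omega) ?_
        have h1 : t' • z = (t' - t) • z + t • z := by
          rw [← add_nsmul]; congr 1; omega
        rw [h1] at e
        simpa using e.symm
      intro t t' e
      rcases lt_trichotomy t t' with h | h | h
      · exact absurd e (key t t' h)
      · exact h
      · exact absurd e.symm (key t' t h)
    refine (Set.infinite_range_of_injective hinj) (hfin.subset ?_)
    rintro _ ⟨t, rfl⟩ i hi
    simp only [map_nsmul, Pi.smul_apply, nsmul_eq_mul]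
    have := hz i hi
    positivity
  let size : ℕ × V → ℕ := fun p =>
    p.1 + ∑ i, if i ∈ D then (a p.2 i + (p.1 : ℤ) * (c i : ℤ)).toNat else 0
  let Bad : ℕ → Set (ℕ × V) := fun C =>
    {p | (∀ i ∈ D, 0 ≤ a p.2 i + (p.1 : ℤ) * (c i : ℤ)) ∧ b p.2 + (C : ℤ) * (p.1 : ℤ) < 0}
  have hmin : ∀ C, ∃ p ∈ Bad C, ∀ q ∈ Bad C, size p ≤ size q := by
    intro C
    obtain ⟨k, y, h1, h2⟩ := hcon C
    obtain ⟨p, hp, hp'⟩ := (measure size).wf.has_min (Bad C) ⟨(k, y), h1, h2⟩
    exact ⟨p, hp, fun q hq => not_lt.mp (hp' q hq)⟩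
  choose p hp hpmin using hmin
  let f : ℕ → (I → ℕ) × ℕ := fun C =>
    (fun i => if i ∈ D then (a (p C).2 i + ((p C).1 : ℤ) * (c i : ℤ)).toNat else 0, (p C).1)
  obtain ⟨g, hg⟩ := (wellQuasiOrdered_le (α := (I → ℕ) × ℕ)).exists_monotone_subseq f
  have hk0 : 1 ≤ (p (g 0)).1 := by
    by_contra hc
    have h0 : (p (g 0)).1 = 0 := by omega
    obtain ⟨h1, h2⟩ := hp (g 0)
    rw [h0] at h1 h2
    have : (p (g 0)).2 = 0 := hrec _ (fun i hi => by simpa using h1 i hi)
    rw [this] at h2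
    simp at h2
  set j := (b (p (g 0)).2).natAbs with hj
  have hgj : j ≤ g j := g.strictMono.le_apply
  have hle := hg 0 j (Nat.zero_le _)
  obtain ⟨hle1, hle2⟩ := Prod.mk_le_mk.mp hle
  have hD : ∀ i ∈ D, a (p (g 0)).2 i + ((p (g 0)).1 : ℤ) * (c i : ℤ) ≤
      a (p (g j)).2 i + ((p (g j)).1 : ℤ) * (c i : ℤ) := by
    intro i hi
    have h1 := hle1 i
    simp only [if_pos hi] at h1
    have h2 := (hp (g 0)).1 i hi
    have h3 := (hp (g j)).1 i hi
    omega
  have hbad : ((p (g j)).1 - (p (g 0)).1, (p (g j)).2 - (p (g 0)).2) ∈ Bad (g j) := by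
    constructor
    · intro i hi
      have := hD i hi
      simp only [map_sub, Pi.sub_apply]
      rw [Nat.cast_sub hle2]
      linarith [this]
    · simp only [map_sub]
      rw [Nat.cast_sub hle2]
      have h1 := (hp (g j)).2
      have h2 : 0 ≤ b (p (g 0)).2 + ((g j : ℕ) : ℤ) * ((p (g 0)).1 : ℤ) := by
        have h3 : (j : ℤ) ≤ ((g j : ℕ) : ℤ) * ((p (g 0)).1 : ℤ) := by
          calc (j : ℤ) = (j : ℤ) * 1 := by ring
            _ ≤ ((g j : ℕ) : ℤ) * ((p (g 0)).1 : ℤ) := by
              apply mul_le_mul (by exact_mod_cast hgj) (by exact_mod_cast hk0) (by norm_num)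
                (by positivity)
        have h4 : -(j : ℤ) ≤ b (p (g 0)).2 := by
          rw [hj, Int.natCast_natAbs]
          exact neg_abs_le _
        linarith
      linarith
  have hsz := hpmin (g j) _ hbad
  have : size ((p (g j)).1 - (p (g 0)).1, (p (g j)).2 - (p (g 0)).2) + size (p (g 0)) =
      size (p (g j)) := by
    simp only [size]
    have e1 : ∀ i, (if i ∈ D then (a ((p (g j)).2 - (p (g 0)).2) i +
        (((p (g j)).1 - (p (g 0)).1 : ℕ) : ℤ) * (c i : ℤ)).toNat else 0) +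
        (if i ∈ D then (a (p (g 0)).2 i + ((p (g 0)).1 : ℤ) * (c i : ℤ)).toNat else 0) =
        if i ∈ D then (a (p (g j)).2 i + ((p (g j)).1 : ℤ) * (c i : ℤ)).toNat else 0 := by
      intro i
      by_cases hi : i ∈ D
      · simp only [if_pos hi, map_sub, Pi.sub_apply]
        rw [Nat.cast_sub hle2]
        have h1 := hD i hi
        have h2 := (hp (g 0)).1 i hi
        have e2 : a (p (g j)).2 i - a (p (g 0)).2 i +
            (((p (g j)).1 : ℤ) - ((p (g 0)).1 : ℤ)) * (c i : ℤ) =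
            (a (p (g j)).2 i + ((p (g j)).1 : ℤ) * (c i : ℤ)) -
            (a (p (g 0)).2 i + ((p (g 0)).1 : ℤ) * (c i : ℤ)) := by ring
        rw [e2]
        omega
      · simp [hi]
    have e3 := Finset.sum_congr rfl (fun i (_ : i ∈ Finset.univ) => e1 i)
    rw [Finset.sum_add_distrib] at e3
    have hle2' : (p (g 0)).1 ≤ (p (g j)).1 := hle2
    omega
  have hpos : 1 ≤ size (p (g 0)) := by
    simp only [size]; omega
  omega

theorem finite_functions (a : V →+ (I → ℤ))
    (htf : ∀ (t : ℕ) (z : V), 0 < t → t • z = 0 → z = 0) (m : ℕ) (hm : 0 < m) :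
    {F : ℕ → ℕ | ∃ s : I → ℕ, (Q a s).ncard = m ∧ ∀ k, F k = (Q a (k • s)).ncard}.Finite := by
  classical
  by_contra hinf
  rw [← Set.not_infinite, not_not] at hinf
  let e := hinf.natEmbedding
  have he : ∀ j, ∃ s : I → ℕ, (Q a s).ncard = m ∧ ∀ k, (e j).1 k = (Q a (k • s)).ncard :=
    fun j => (e j).2
  choose s hs1 hs2 using he
  obtain ⟨g, hg⟩ := (wellQuasiOrdered_le (α := I → ℕ)).exists_monotone_subseq s
  let s' : ℕ → I → ℕ := fun j => s (g j)
  have hmono : ∀ i, Monotone (fun j => s' j i) := fun i j j' h => hg j j' h i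
  let D : Set I := {i | ∃ B, ∀ j, s' j i ≤ B}
  have hJ : ∀ i, ∃ J, i ∈ D → ∀ j, J ≤ j → s' j i = s' J i := by
    intro i
    by_cases hi : i ∈ D
    · obtain ⟨B, hB⟩ := hi
      obtain ⟨J, hJ⟩ := eventually_const (hmono i) hB
      exact ⟨J, fun _ => hJ⟩
    · exact ⟨0, fun h => absurd h hi⟩
  choose Ji hJi using hJ
  let J := Finset.univ.sup Ji
  have hJle : ∀ i, Ji i ≤ J := fun i => Finset.le_sup (Finset.mem_univ i)
  let c : I → ℕ := s' J
  have hc : ∀ i ∈ D, ∀ j, J ≤ j → s' j i = c i := by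
    intro i hi j hj
    rw [hJi i hi j ((hJle i).trans hj)]
    exact (hJi i hi J (hJle i)).symm
  -- unbounded coordinates
  have hub : ∀ (C : I → ℕ), ∃ j0, J ≤ j0 ∧ ∀ i, i ∉ D → ∀ j, j0 ≤ j → C i ≤ s' j i := by
    intro C
    have : ∀ i, ∃ j, i ∉ D → C i ≤ s' j i := by
      intro i
      by_cases hi : i ∈ D
      · exact ⟨0, fun h => absurd hi h⟩
      · have hi' : ¬ ∃ B, ∀ j, s' j i ≤ B := hi
        push Not at hi'
        obtain ⟨j, hj⟩ := hi' (C i)
        exact ⟨j, fun _ => hj.le⟩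
    choose jj hjj using this
    refine ⟨max J (Finset.univ.sup jj), le_max_left _ _, fun i hi j hj => ?_⟩
    refine (hjj i hi).trans (hmono i ?_)
    exact (Finset.le_sup (Finset.mem_univ i)).trans ((le_max_right _ _).trans hj)
  -- the limiting set is finite
  have hfinQ : ∀ j, (Q a (s' j)).Finite := fun j =>
    Set.finite_of_ncard_pos (by rw [show (Q a (s' j)).ncard = m from hs1 (g j)]; exact hm)
  have hQ1 : {y : V | ∀ i ∈ D, 0 ≤ a y i + (c i : ℤ)}.Finite := by
    by_contra hinf1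
    rw [← Set.not_infinite, not_not] at hinf1
    obtain ⟨t, ht, htc⟩ := hinf1.exists_subset_card_eq (m + 1)
    obtain ⟨j0, hj0, hj0'⟩ := hub (fun i => t.sup (fun y => (a y i).natAbs))
    have hsub : (t : Set V) ⊆ Q a (s' j0) := by
      intro y hy i
      by_cases hi : i ∈ D
      · rw [hc i hi j0 hj0]
        exact ht hy i hi
      · have h1 := hj0' i hi j0 le_rfl
        have h2 : (a y i).natAbs ≤ t.sup (fun y => (a y i).natAbs) :=
          Finset.le_sup (f := fun y => (a y i).natAbs) hy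
        omega
    have h3 := Set.ncard_le_ncard hsub (hfinQ j0)
    rw [Set.ncard_coe_finset, htc, show (Q a (s' j0)).ncard = m from hs1 (g j0)] at h3
    omega
  -- linear bounds
  have hlin : ∀ i, ∃ C : ℕ, ∀ (k : ℕ) (y : V), (∀ i ∈ D, 0 ≤ a y i + (k : ℤ) * (c i : ℤ)) →
      0 ≤ a y i + (C : ℤ) * (k : ℤ) := fun i =>
    linear_bound a htf D c hQ1 ((Pi.evalAddMonoidHom (fun _ : I => ℤ) i).comp a)
  choose C hC using hlin
  obtain ⟨j0, hj0, hj0'⟩ := hub C
  have hQk : ∀ j, j0 ≤ j → ∀ k : ℕ, Q a (k • s' j) =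
      {y : V | ∀ i ∈ D, 0 ≤ a y i + (k : ℤ) * (c i : ℤ)} := by
    intro j hj k
    ext y
    constructor
    · intro hy i hi
      have h1 := hy i
      rw [Pi.smul_apply, hc i hi j (hj0.trans hj)] at h1
      simpa using h1
    · intro hy i
      rw [Pi.smul_apply]
      by_cases hi : i ∈ D
      · rw [hc i hi j (hj0.trans hj)]
        simpa using hy i hi
      · have h1 := hC i k y hy
        have h2 := hj0' i hi j hj
        have h3 : (C i : ℤ) * (k : ℤ) ≤ ((k • s' j i : ℕ) : ℤ) := by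
          rw [smul_eq_mul]
          push_cast
          rw [mul_comm]
          exact mul_le_mul_of_nonneg_left (by exact_mod_cast h2) (by positivity)
        linarith
  have heq : (e (g j0)).1 = (e (g (j0 + 1))).1 := by
    funext k
    rw [hs2 (g j0) k, hs2 (g (j0 + 1)) k]
    have h1 := hQk j0 le_rfl k
    have h2 := hQk (j0 + 1) (by omega) k
    rw [show s (g j0) = s' j0 from rfl, show s (g (j0 + 1)) = s' (j0 + 1) from rfl, h1, h2]
  have := e.injective (Subtype.ext heq)
  have := g.injective this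
  omega

end Pool.Agent.Hhelper36.LinearFibres
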