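import Pool.Agent.Hhelper36.KostkaAssembly
import Pool.Agent.Hhelper36.LinearFibres

/-!
Finiteness for a fixed number of rows.
-/

set_option autoImplicit false

namespace Pool.Agent.Hhelper36.Kostka

open Finset Pool.Agent.Hhelper36.LinearFibres

/-- differences of patterns with the same top row and row sums -/
def VV (n : ℕ) : AddSubgroup (ℕ → ℕ → ℤ) where
  carrier := {y | (∀ c i, n < c ∨ c ≤ i → y c i = 0) ∧ (∀ i, y n i = 0) ∧
    ∀ c, ∑ i ∈ range c, y c i = 0}
  zero_mem' := ⟨fun _ _ _ => rfl, fun _ => rfl, fun c => by simp⟩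
  add_mem' := by
    rintro y z ⟨h1, h2, h3⟩ ⟨h1', h2', h3'⟩
    refine ⟨fun c i h => ?_, fun i => ?_, fun c => ?_⟩
    · simp [h1 c i h, h1' c i h]
    · simp [h2 i, h2' i]
    · simp [sum_add_distrib, h3 c, h3' c]
  neg_mem' := by
    rintro y ⟨h1, h2, h3⟩
    refine ⟨fun c i h => ?_, fun i => ?_, fun c => ?_⟩
    · simp [h1 c i h]
    · simp [h2 i]
    · simp [h3 c]

/-- index set of the inequalities -/
abbrev II (n : ℕ) := Fin 3 × Fin (n + 1) × Fin (n + 1)

/-- the inequalities -/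
def aa (n : ℕ) : VV n →+ (II n → ℤ) where
  toFun y := fun p =>
    if (p.2.2 : ℕ) < p.2.1 then
      (if p.1 = 0 then (if (p.2.1 : ℕ) < n then y.1 p.2.1 p.2.2 - y.1 (p.2.1 + 1) (p.2.2 + 1) else 0)
      else if p.1 = 1 then (if (p.2.1 : ℕ) < n then y.1 (p.2.1 + 1) p.2.2 - y.1 p.2.1 p.2.2 else 0)
      else y.1 p.2.1 p.2.2)
    else 0
  map_zero' := by
    funext p
    simp
  map_add' := by
    intro y z
    funext p
    simp only [AddSubgroup.coe_add, Pi.add_apply]
    split_ifs <;> ring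

/-- the slack vector of a pattern -/
def slack (n : ℕ) (x : ℕ → ℕ → ℕ) : II n → ℕ := fun p =>
    if (p.2.2 : ℕ) < p.2.1 then
      (if p.1 = 0 then (if (p.2.1 : ℕ) < n then x p.2.1 p.2.2 - x (p.2.1 + 1) (p.2.2 + 1) else 0)
      else if p.1 = 1 then (if (p.2.1 : ℕ) < n then x (p.2.1 + 1) p.2.2 - x p.2.1 p.2.2 else 0)
      else x p.2.1 p.2.2)
    else 0

theorem slack_smul (n : ℕ) (x : ℕ → ℕ → ℕ) (k : ℕ) :
    slack n (fun c i => k * x c i) = k • slack n x := by
  funext p
  simp only [slack, Pi.smul_apply, smul_eq_mul]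
  split_ifs <;> simp [Nat.mul_sub]

theorem mem_Q_iff {n : ℕ} {lam nu : ℕ → ℕ} {x : ℕ → ℕ → ℕ} (hx : x ∈ GT n lam nu) (y : VV n) :
    y ∈ Q (aa n) (slack n x) ↔
      (∀ c i, i < c → c < n → ((x (c + 1) (i + 1) : ℕ) : ℤ) + y.1 (c + 1) (i + 1) ≤ x c i + y.1 c i ∧
        ((x c i : ℕ) : ℤ) + y.1 c i ≤ x (c + 1) i + y.1 (c + 1) i) ∧
      (∀ c i, i < c → c ≤ n → 0 ≤ ((x c i : ℕ) : ℤ) + y.1 c i) := by
  constructor
  · intro h
    constructor
    · intro c i hi hc
      obtain ⟨e1, e2⟩ := hx.2.2.1 c i hc hi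
      have h0 := h (0, ⟨c, by omega⟩, ⟨i, by omega⟩)
      have h1 := h (1, ⟨c, by omega⟩, ⟨i, by omega⟩)
      simp only [aa, slack, AddMonoidHom.coe_mk, ZeroHom.coe_mk, hi, hc, if_true] at h0
      simp only [aa, slack, AddMonoidHom.coe_mk, ZeroHom.coe_mk, hi, hc, if_true, one_ne_zero,
        if_false] at h1
      rw [Nat.cast_sub e1] at h0
      rw [Nat.cast_sub e2] at h1
      constructor <;> linarith
    · intro c i hi hc
      have h2 := h (2, ⟨c, by omega⟩, ⟨i, by omega⟩)
      have e0 : ¬ ((2 : Fin 3) = 0) := by decide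
      have e1 : ¬ ((2 : Fin 3) = 1) := by decide
      simp only [aa, slack, AddMonoidHom.coe_mk, ZeroHom.coe_mk, hi, if_true, e0, e1,
        if_false] at h2
      linarith
  · rintro ⟨h1, h2⟩ ⟨t, ⟨c, hc⟩, ⟨i, hi⟩⟩
    simp only [aa, slack, AddMonoidHom.coe_mk, ZeroHom.coe_mk]
    by_cases hic : i < c
    · rw [if_pos hic, if_pos hic]
      by_cases hcn : c < n
      · obtain ⟨e1, e2⟩ := hx.2.2.1 c i hcn hic
        obtain ⟨h3, h4⟩ := h1 c i hic hcn
        rw [if_pos hcn, if_pos hcn, if_pos hcn, if_pos hcn]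
        split_ifs
        · rw [Nat.cast_sub e1]; linarith
        · rw [Nat.cast_sub e2]; linarith
        · have := h2 c i hic (by omega); linarith
      · rw [if_neg hcn, if_neg hcn, if_neg hcn, if_neg hcn]
        split_ifs
        · simp
        · simp
        · have := h2 c i hic (by omega); linarith
    · rw [if_neg hic, if_neg hic]; simp

theorem ncard_Q {n : ℕ} {lam nu : ℕ → ℕ} {x : ℕ → ℕ → ℕ} (hx : x ∈ GT n lam nu) :
    (Q (aa n) (slack n x)).ncard = K n lam nu := by
  unfold K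
  have hcast : ∀ y ∈ Q (aa n) (slack n x), ∀ c i,
      (((((x c i : ℕ) : ℤ) + y.1 c i).toNat : ℕ) : ℤ) = (x c i : ℤ) + y.1 c i := by
    intro y hy c i
    rw [Int.toNat_of_nonneg]
    by_cases h : n < c ∨ c ≤ i
    · rw [y.2.1 c i h]; simp
    · push Not at h
      exact ((mem_Q_iff hx y).mp hy).2 c i h.2 h.1
  refine Set.ncard_congr (fun y _ => fun c i => (((x c i : ℕ) : ℤ) + y.1 c i).toNat) ?_ ?_ ?_
  · intro y hy
    have hc := hcast y hy
    obtain ⟨h1, h2⟩ := (mem_Q_iff hx y).mp hy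
    refine ⟨?_, ?_, ?_, ?_⟩
    · intro c i h
      simp only
      rw [hx.1 c i h, y.2.1 c i h]
      rfl
    · intro i hi
      simp only
      rw [y.2.2.1 i, hx.2.1 i hi]
      simp
    · intro c i hcn hi
      obtain ⟨h3, h4⟩ := h1 c i hi hcn
      have e1 := hc c i
      have e2 := hc (c + 1) (i + 1)
      have e3 := hc (c + 1) i
      simp only
      constructor <;> omega
    · intro c hcn
      have h3 : ((∑ i ∈ range c, (((x c i : ℕ) : ℤ) + y.1 c i).toNat : ℕ) : ℤ) =
          ((∑ i ∈ range c, nu i : ℕ) : ℤ) := by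
        rw [Nat.cast_sum, ← hx.2.2.2 c hcn, Nat.cast_sum]
        rw [sum_congr rfl (fun i _ => hc c i), sum_add_distrib, y.2.2.2 c]
        simp
      exact_mod_cast h3
  · intro y z hy hz h
    apply Subtype.ext
    funext c i
    have h1 : (((x c i : ℕ) : ℤ) + y.1 c i).toNat = (((x c i : ℕ) : ℤ) + z.1 c i).toNat :=
      congrFun (congrFun h c) i
    have h2 := hcast y hy c i
    have h3 := hcast z hz c i
    rw [h1] at h2
    omega
  · intro z hz
    refine ⟨⟨fun c i => (z c i : ℤ) - (x c i : ℤ), ?_, ?_, ?_⟩, ?_, ?_⟩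
    · intro c i h
      simp only
      rw [hx.1 c i h, hz.1 c i h]; simp
    · intro i
      simp only
      rcases Nat.lt_or_ge i n with h | h
      · rw [hx.2.1 i h, hz.2.1 i h]; simp
      · rw [hx.1 n i (Or.inr h), hz.1 n i (Or.inr h)]; simp
    · intro c
      rcases Nat.lt_or_ge n c with h | h
      · refine sum_eq_zero (fun i _ => ?_)
        simp only
        rw [hx.1 c i (Or.inl h), hz.1 c i (Or.inl h)]; simp
      · rw [sum_sub_distrib]
        have h1 := hx.2.2.2 c h
        have h2 := hz.2.2.2 c h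
        have h3 : (∑ i ∈ range c, (z c i : ℤ)) = (∑ i ∈ range c, (x c i : ℤ)) := by
          exact_mod_cast h2.trans h1.symm
        rw [h3]; simp
    · rw [mem_Q_iff hx]
      constructor
      · intro c i hi hc
        obtain ⟨h1, h2⟩ := hz.2.2.1 c i hc hi
        simp only
        constructor <;> omega
      · intro c i hi hc
        simp only
        omega
    · funext c i
      simp

theorem VV_torsionFree (n : ℕ) (t : ℕ) (z : VV n) (ht : 0 < t) (h : t • z = 0) : z = 0 := by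
  apply Subtype.ext
  funext c i
  have h1 := congrArg (fun v : VV n => v.1 c i) h
  simp only [AddSubgroup.coe_nsmul, Pi.smul_apply, nsmul_eq_mul, ZeroMemClass.coe_zero,
    Pi.zero_apply, mul_eq_zero, Nat.cast_eq_zero] at h1
  rcases h1 with h1 | h1
  · omega
  · simpa using h1

theorem SSn_finite (n m : ℕ) (hm : 0 < m) : (SSn n m).Finite := by
  refine (finite_functions (aa n) (VV_torsionFree n) m hm).subset ?_
  rintro F ⟨lam, nu, hK, rfl⟩
  obtain ⟨x, hx⟩ := K_pos_iff.mp (by omega : 0 < K n lam nu)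
  refine ⟨slack n x, ?_, fun k => ?_⟩
  · rw [ncard_Q hx, hK]
  · rw [← slack_smul, ncard_Q (scale_mem k hx)]
    rfl

/-- For every `m > 0` only finitely many stretched functions take the value `m` at `1`. -/
theorem SS_finite' (m : ℕ) (hm : 0 < m) : (SS m).Finite := SS_finite SSn_finite m hm

end Pool.Agent.Hhelper36.Kostka
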