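import Mathlib

/-!
Gelfand-Tsetlin patterns: common definition for the work on stretched Kostka numbers.
-/

set_option autoImplicit false

namespace Pool.Agent.Hhelper36.Kostka

/-- Gelfand-Tsetlin patterns with `n` rows, top row `lam` (only its first `n` entries matter)
and row sums given by the partial sums of `nu`.  Row `c` has `c` entries `x c 0, ..., x c (c-1)`. -/
def GT (n : ℕ) (lam nu : ℕ → ℕ) : Set (ℕ → ℕ → ℕ) :=
  {x | (∀ c i, n < c ∨ c ≤ i → x c i = 0) ∧
       (∀ i, i < n → x n i = lam i) ∧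
       (∀ c i, c < n → i < c → x (c + 1) (i + 1) ≤ x c i ∧ x c i ≤ x (c + 1) i) ∧
       (∀ c, c ≤ n → ∑ i ∈ Finset.range c, x c i = ∑ i ∈ Finset.range c, nu i)}

end Pool.Agent.Hhelper36.Kostka
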