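import Pool.Agent.Hhelper36.KostkaBasic

/-!
Special shapes have at most one pattern; all other primitive pairs with `n` rows have at least
`n / 2` patterns.
-/

set_option autoImplicit false

namespace Pool.Agent.Hhelper36.Kostka

open Finset

/-- `λ = (a, b, ..., b)` or `λ = (a, ..., a, b)` on the first `n` places -/
def Special (n : ℕ) (lam : ℕ → ℕ) : Prop :=
  (∀ i, 1 ≤ i → i + 1 < n → lam i = lam (i + 1)) ∨ (∀ i, i + 2 < n → lam i = lam (i + 1))

/-- at most one descent -/
def TwoVal (n : ℕ) (lam : ℕ → ℕ) : Prop :=
  ∃ r, ∀ i, i + 1 < n → i ≠ r → lam i = lam (i + 1)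

theorem Special.twoVal {n : ℕ} {lam : ℕ → ℕ} (h : Special n lam) : TwoVal n lam := by
  rcases h with h | h
  · exact ⟨0, fun i hi hne => h i (by omega) hi⟩
  · exact ⟨n - 2, fun i hi hne => h i (by omega)⟩

theorem gt_ge_top {n : ℕ} {lam nu : ℕ → ℕ} {x : ℕ → ℕ → ℕ} (hx : x ∈ GT n lam nu) :
    ∀ d i c, i < c → c + d = n → lam (i + d) ≤ x c i := by
  intro d
  induction d with
  | zero =>
    intro i c hic hc
    obtain rfl : c = n := by omega
    exact (gt_top hx hic).ge
  | succ d ih =>
    intro i c hic hc
    have h1 := ih (i + 1) (c + 1) (by omega) (by omega)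
    have h2 := (hx.2.2.1 c i (by omega) hic).1
    rw [show i + (d + 1) = i + 1 + d by omega]
    exact h1.trans h2

theorem const_of_eq {lam : ℕ → ℕ} {a b : ℕ} (hab : a ≤ b)
    (h : ∀ i, a ≤ i → i < b → lam i = lam (i + 1)) : lam a = lam b := by
  obtain ⟨d, rfl⟩ := Nat.exists_eq_add_of_le hab
  clear hab
  induction d with
  | zero => rfl
  | succ d ih =>
    rw [ih (fun i h1 h2 => h i h1 (by omega))]
    exact h (a + d) (by omega) (by omega)

theorem special_le_one {n : ℕ} {lam nu : ℕ → ℕ} (hs : Special n lam) : K n lam nu ≤ 1 := by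
  unfold K
  rw [Set.ncard_le_one (gt_finite n lam nu)]
  intro x hx y hy
  funext c i
  by_cases hci : n < c ∨ c ≤ i
  · rw [hx.1 c i hci, hy.1 c i hci]
  push Not at hci
  obtain ⟨hcn, hic⟩ := hci
  have hsum : ∑ j ∈ range c, x c j = ∑ j ∈ range c, y c j := by
    rw [hx.2.2.2 c hcn, hy.2.2.2 c hcn]
  rcases hs with hs | hs
  · have key : ∀ z ∈ GT n lam nu, ∀ j, 1 ≤ j → j < c → z c j = lam j := by
      intro z hz j h1 h2
      have h3 := gt_ge_top hz (n - c) j c h2 (by omega)
      have h4 := gt_le_top hz h2 hcn
      have h5 : lam j = lam (j + (n - c)) :=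
        const_of_eq (by omega) (fun i hi1 hi2 => hs i (by omega) (by omega))
      omega
    rcases Nat.eq_zero_or_pos i with rfl | hi
    · obtain ⟨m, rfl⟩ : ∃ m, c = m + 1 := ⟨c - 1, by omega⟩
      rw [sum_range_succ', sum_range_succ'] at hsum
      have : ∑ j ∈ range m, x (m + 1) (j + 1) = ∑ j ∈ range m, y (m + 1) (j + 1) := by
        refine sum_congr rfl (fun j hj => ?_)
        rw [mem_range] at hj
        rw [key x hx (j + 1) (by omega) (by omega), key y hy (j + 1) (by omega) (by omega)]
      omega
    · rw [key x hx i hi hic, key y hy i hi hic]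
  · have key : ∀ z ∈ GT n lam nu, ∀ j, j + 1 < c → z c j = lam j := by
      intro z hz j h2
      have h3 := gt_ge_top hz (n - c) j c (by omega) (by omega)
      have h4 := gt_le_top hz (show j < c by omega) hcn
      have h5 : lam j = lam (j + (n - c)) :=
        const_of_eq (by omega) (fun i hi1 hi2 => hs i (by omega))
      omega
    rcases Nat.lt_or_ge (i + 1) c with hi | hi
    · rw [key x hx i hi, key y hy i hi]
    · obtain rfl : c = i + 1 := by omega
      rw [sum_range_succ, sum_range_succ] at hsum
      have : ∑ j ∈ range i, x (i + 1) j = ∑ j ∈ range i, y (i + 1) j := by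
        refine sum_congr rfl (fun j hj => ?_)
        rw [mem_range] at hj
        rw [key x hx j (by omega), key y hy j (by omega)]
      omega

/-- the row where the greedy strip starts -/
theorem exists_r {n : ℕ} {lam nu : ℕ → ℕ} (h : Prim (n + 1) lam nu) (hn : 1 ≤ n) :
    ∃ r, r < n ∧ lam (r + 1) < nu n ∧ nu n ≤ lam r := by
  classical
  have h0 := last_le_first h.toWeak
  have hlast : lam n < nu n := by
    have h1 := h.strict n (by omega) (by omega)
    have h2 := h.sum
    rw [sum_range_succ (fun i => lam i), sum_range_succ (fun i => nu i)] at h2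
    omega
  have hex : ∃ j, lam j < nu n := ⟨n, hlast⟩
  have h1 := Nat.find_spec hex
  have h2 : Nat.find hex ≤ n := Nat.find_min' hex hlast
  have h3 : 0 < Nat.find hex := by
    by_contra hc
    have : Nat.find hex = 0 := by omega
    rw [this] at h1
    omega
  refine ⟨Nat.find hex - 1, by omega, ?_, ?_⟩
  · rw [show Nat.find hex - 1 + 1 = Nat.find hex by omega]
    exact h1
  · have := Nat.find_min hex (m := Nat.find hex - 1) (by omega)
    omega

theorem first_gt_last {n : ℕ} {lam nu : ℕ → ℕ} (h : Prim (n + 1) lam nu) (hn : 1 ≤ n) :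
    nu n < lam 0 := by
  have h1 := h.strict 1 (by omega) (by omega)
  simp only [sum_range_one] at h1
  exact (h.anti'.le (Nat.zero_le _) (by omega)).trans_lt h1

theorem greedy_lt_r {n : ℕ} {lam : ℕ → ℕ} {t r : ℕ} (h : Anti (n + 1) lam) (hr : r < n)
    (ht : t ≤ lam r) {i : ℕ} (hi : i < r) : greedy t lam i = lam i := by
  have h1 : lam r ≤ lam (i + 1) := h.le (by omega) (by omega)
  have h2 := h i (by omega)
  simp only [greedy]; omega

theorem greedy_gt_r {n : ℕ} {lam : ℕ → ℕ} {t r : ℕ} (h : Anti (n + 1) lam)
    (ht : lam (r + 1) < t) {i : ℕ} (hi : r < i) (hin : i < n) : greedy t lam i = lam (i + 1) := by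
  have h1 : lam i ≤ lam (r + 1) := h.le (by omega) (by omega)
  have h2 := h i (by omega)
  simp only [greedy]; omega

theorem greedy_r {lam : ℕ → ℕ} {t r : ℕ} (ht : lam (r + 1) < t) (ht' : t ≤ lam r) :
    greedy t lam r = lam r + lam (r + 1) - t := by
  simp only [greedy]; omega

/-- moving one box up in the strip -/
def move (i j : ℕ) (mu : ℕ → ℕ) : ℕ → ℕ :=
  fun l => if l = i then mu i - 1 else if l = j then mu j + 1 else mu l

theorem move_sum {i j : ℕ} {mu : ℕ → ℕ} (hij : i < j) (hpos : 0 < mu i) :
    ∀ s, ∑ l ∈ range s, move i j mu l + (if i < s ∧ s ≤ j then 1 else 0) =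
      ∑ l ∈ range s, mu l := by
  intro s
  induction s with
  | zero => simp
  | succ s ih =>
    rw [sum_range_succ, sum_range_succ, ← ih]
    simp only [move]
    rcases lt_trichotomy s i with h | h | h
    · rw [if_neg (by omega), if_neg (by omega), if_neg (by omega), if_neg (by omega)]
      ring
    · subst h
      rw [if_pos rfl, if_pos (by omega), if_neg (by omega)]
      omega
    · rw [if_neg (by omega)]
      rcases lt_trichotomy s j with h' | h' | h'
      · rw [if_neg (by omega), if_pos (by omega), if_pos (by omega)]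
        omega
      · subst h'
        rw [if_pos rfl, if_neg (by omega), if_pos (by omega)]
        omega
      · rw [if_neg (by omega), if_neg (by omega), if_neg (by omega)]
        ring

theorem move_valid {n : ℕ} {lam mu nu : ℕ → ℕ} {i j : ℕ} (hint : Inter n lam mu)
    (hp : Prim n mu nu) (hij : i < j) (hjn : j < n) (h1 : lam (i + 1) < mu i)
    (h2 : mu j < lam j) : Inter n lam (move i j mu) ∧ Weak n (move i j mu) nu ∧
      move i j mu i ≠ mu i := by
  have hI : Inter n lam (move i j mu) := by
    intro l hl
    have := hint l hl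
    simp only [move]
    split_ifs with e1 e2
    · subst e1; omega
    · subst e2; omega
    · exact this
  have hs := move_sum (mu := mu) hij (by omega)
  refine ⟨hI, ⟨inter_anti hI, hp.anti', ?_, ?_⟩, ?_⟩
  · rw [← hp.sum, ← hs n, if_neg (by omega)]
    rfl
  · intro l hl
    have h3 := hs l
    rcases Nat.lt_or_ge i l with h4 | h4
    · rcases Nat.lt_or_ge j l with h5 | h5
      · rw [if_neg (by omega)] at h3
        have := hp.dom l hl
        omega
      · rw [if_pos (by omega)] at h3
        have := hp.strict l (by omega) (by omega)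
        omega
    · rw [if_neg (by omega)] at h3
      have := hp.dom l hl
      omega
  · simp only [move, if_true]
    omega

/-- a second possible strip -/
theorem exists_alt {n : ℕ} {lam nu : ℕ → ℕ} (h : Prim (n + 1) lam nu) (hn : 1 ≤ n)
    (h2 : ¬ TwoVal (n + 1) lam) :
    ∃ mu, Inter n lam mu ∧ Weak n mu nu ∧ ∃ i, i < n ∧ mu i ≠ greedy (nu n) lam i := by
  obtain ⟨r, hr, ht, ht'⟩ := exists_r h hn
  have hlt := first_gt_last h hn
  have hint := greedy_inter h.anti (nu n)
  have hp := greedy_prim h
  have hdesc : ∃ i, i + 1 < n + 1 ∧ i ≠ r ∧ lam i ≠ lam (i + 1) := by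
    by_contra hc
    push Not at hc
    exact h2 ⟨r, hc⟩
  -- the upward move into row `r`
  have up : ∀ i, i < r → lam i ≠ lam (i + 1) →
      ∃ mu, Inter n lam mu ∧ Weak n mu nu ∧ ∃ i, i < n ∧ mu i ≠ greedy (nu n) lam i := by
    intro i hir hne
    have h3 := h.anti i (by omega)
    have h4 : greedy (nu n) lam i = lam i := greedy_lt_r h.anti hr ht' hir
    have h5 : greedy (nu n) lam r = lam r + lam (r + 1) - nu n := greedy_r ht ht'
    obtain ⟨m1, m2, m3⟩ := move_valid hint hp hir hr (by omega) (by omega)
    exact ⟨_, m1, m2, i, by omega, m3⟩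
  obtain ⟨i, hi, hir, hne⟩ := hdesc
  rcases lt_or_gt_of_ne hir with h3 | h3
  · exact up i h3 hne
  · rcases Nat.lt_or_ge (nu n) (lam r) with h4 | h4
    · have h5 := h.anti i (by omega)
      have h6 : greedy (nu n) lam i = lam (i + 1) := greedy_gt_r h.anti ht h3 (by omega)
      have h7 : greedy (nu n) lam r = lam r + lam (r + 1) - nu n := greedy_r ht ht'
      obtain ⟨m1, m2, m3⟩ := move_valid hint hp h3 (by omega) (by omega) (by omega)
      exact ⟨_, m1, m2, r, by omega, m3⟩
    · have h5 : ∃ i', i' < r ∧ lam i' ≠ lam (i' + 1) := by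
        by_contra hc
        push Not at hc
        have := const_of_eq (lam := lam) (Nat.zero_le r) (fun i _ hi => hc i hi)
        omega
      obtain ⟨i', h6, h7⟩ := h5
      exact up i' h6 h7

/-- the type A step -/
theorem typeA {n : ℕ} {lam nu : ℕ → ℕ} (h : Prim (n + 1) lam nu) (hn : 3 ≤ n)
    (hc : ∀ i, 2 ≤ i → i < n → lam i = lam (i + 1)) (h12 : lam 2 < lam 1) (ht : lam 1 ≤ nu n) :
    ∃ mu, Inter n lam mu ∧ Prim n mu nu ∧ ¬ TwoVal n mu ∧
      ∃ i, i < n ∧ mu i ≠ greedy (nu n) lam i := by
  have h0 := first_gt_last h (by omega)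
  have h01 := h.anti 0 (by omega)
  simp only [zero_add] at h01
  set mu : ℕ → ℕ := fun i => if i = 0 then lam 0 + lam 1 - nu n - 1
    else if i = 1 then lam 2 + 1 else lam (i + 1) with hmu
  have e0 : mu 0 = lam 0 + lam 1 - nu n - 1 := rfl
  have e1 : mu 1 = lam 2 + 1 := rfl
  have e2 : ∀ i, 2 ≤ i → mu i = lam (i + 1) := by
    intro i hi
    simp only [hmu]
    rw [if_neg (by omega), if_neg (by omega)]
  have hint : Inter n lam mu := by
    intro i hi
    rcases Nat.lt_or_ge i 2 with h | h
    · interval_cases i
      · rw [e0]; simp only [zero_add]; omega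
      · rw [e1]; simp only [Nat.reduceAdd]; omega
    · rw [e2 i h, hc i h hi]
      exact ⟨le_rfl, le_rfl⟩
  -- partial sums
  have hsum : ∀ l, 2 ≤ l → ∑ i ∈ range l, mu i + nu n = ∑ i ∈ range (l + 1), lam i := by
    intro l hl
    obtain ⟨d, rfl⟩ := Nat.exists_eq_add_of_le hl
    clear hl
    induction d with
    | zero =>
      simp only [add_zero, Nat.reduceAdd, sum_range_succ, range_zero, sum_empty, zero_add]
      rw [e0, e1]; omega
    | succ d ih =>
      rw [show 2 + (d + 1) = (2 + d) + 1 by omega, sum_range_succ,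
        sum_range_succ (fun i => lam i) (2 + d + 1), e2 (2 + d) (by omega)]
      omega
  have hnu : ∀ i, i < n + 1 → nu n ≤ nu i := fun i hi => h.anti'.le (by omega) (by omega)
  -- slack at place 2
  have hslack : ∑ i ∈ range 2, nu i + (n - 1) ≤ ∑ i ∈ range 2, lam i := by
    have hgen : ∀ d, 2 + d ≤ n + 1 → ∑ i ∈ range (2 + d), lam i + ∑ i ∈ range 2, nu i + d ≤
        ∑ i ∈ range (2 + d), nu i + ∑ i ∈ range 2, lam i := by
      intro d
      induction d with
      | zero => intro _; simp only [add_zero]; omega
      | succ d ih =>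
        intro hd
        have ih' := ih (by omega)
        rw [show 2 + (d + 1) = (2 + d) + 1 by omega, sum_range_succ,
          sum_range_succ (fun i => nu i) (2 + d)]
        have h3 : lam (2 + d) = lam 2 :=
          (const_of_eq (by omega) (fun i hi1 hi2 => hc i hi1 (by omega))).symm
        have h4 := hnu (2 + d) (by omega)
        omega
    have := hgen (n - 1) (by omega)
    rw [show 2 + (n - 1) = n + 1 by omega, h.sum] at this
    omega
  have hprim : Prim n mu nu := by
    refine ⟨⟨inter_anti hint, h.anti'.mono (by omega), ?_, ?_⟩, ?_⟩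
    · have h3 := hsum n (by omega)
      rw [h.sum, sum_range_succ] at h3
      omega
    · intro l hl
      rcases Nat.lt_or_ge l 2 with h3 | h3
      · interval_cases l
        · simp
        · simp only [sum_range_succ, range_zero, sum_empty, zero_add] at hslack ⊢
          have h4 := hnu 1 (by omega)
          rw [e0]; omega
      · have h4 := hsum l h3
        have h5 := h.dom (l + 1) (by omega)
        rw [sum_range_succ (fun i => nu i)] at h5
        have h6 := hnu l (by omega)
        omega
    · intro l hl1 hl
      rcases Nat.lt_or_ge l 2 with h3 | h3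
      · obtain rfl : l = 1 := by omega
        simp only [sum_range_succ, range_zero, sum_empty, zero_add] at hslack ⊢
        have h4 := hnu 1 (by omega)
        rw [e0]; omega
      · have h4 := hsum l h3
        have h5 := h.strict (l + 1) (by omega) (by omega)
        rw [sum_range_succ (fun i => nu i)] at h5
        have h6 := hnu l (by omega)
        omega
  refine ⟨mu, hint, hprim, ?_, 1, by omega, ?_⟩
  · rintro ⟨r, hr⟩
    have h3 : mu 0 ≠ mu 1 := by
      have h4 := hprim.strict 1 (by omega) (by omega)
      simp only [sum_range_one] at h4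
      have h5 := hnu 0 (by omega)
      rw [e1]; omega
    have h4 : mu 1 ≠ mu 2 := by
      rw [e1, e2 2 le_rfl]
      have := hc 2 le_rfl (by omega)
      omega
    by_cases hr0 : r = 0
    · exact h4 (hr 1 (by omega) (by omega))
    · exact h3 (hr 0 (by omega) (by omega))
  · rw [e1]
    have h3 : greedy (nu n) lam 1 = lam 2 := by
      simp only [greedy, Nat.reduceAdd]
      omega
    omega

/-- the type B step -/
theorem typeB {m : ℕ} {lam nu : ℕ → ℕ} (h : Prim (m + 2 + 1) lam nu) (hm : 1 ≤ m)
    (hc : ∀ i, i < m → lam i = lam (i + 1)) (h12 : lam (m + 1) < lam m)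
    (ht : nu (m + 2) ≤ lam (m + 1)) :
    ∃ mu, Inter (m + 2) lam mu ∧ Prim (m + 2) mu nu ∧ ¬ TwoVal (m + 2) mu ∧
      ∃ i, i < m + 2 ∧ mu i ≠ greedy (nu (m + 2)) lam i := by
  set t := nu (m + 2) with htdef
  have hlast : lam (m + 2) < t := by
    have h1 := h.strict (m + 2) (by omega) (by omega)
    have h2 := h.sum
    rw [sum_range_succ (fun i => lam i) (m + 2), sum_range_succ (fun i => nu i) (m + 2)] at h2
    omega
  have hcon : ∀ i, i ≤ m → lam i = lam m := fun i hi =>
    const_of_eq hi (fun j _ hj => hc j hj)
  set a := lam m with ha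
  have hnu : ∀ i, i < m + 3 → nu i + 1 ≤ a := by
    intro i hi
    have h1 := h.strict 1 (by omega) (by omega)
    simp only [sum_range_one] at h1
    have h2 : nu i ≤ nu 0 := h.anti'.le (by omega) (by omega)
    have h3 := hcon 0 (by omega)
    omega
  set mu : ℕ → ℕ := fun i => if i = m then a - 1
    else if i = m + 1 then lam (m + 1) + lam (m + 2) + 1 - t else lam i with hmu
  have e0 : mu m = a - 1 := by simp [hmu]
  have e1 : mu (m + 1) = lam (m + 1) + lam (m + 2) + 1 - t := by simp [hmu]
  have e2 : ∀ i, i < m → mu i = a := by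
    intro i hi
    simp only [hmu]
    rw [if_neg (by omega), if_neg (by omega)]
    exact hcon i hi.le
  have hint : Inter (m + 2) lam mu := by
    intro i hi
    rcases lt_trichotomy i m with h3 | h3 | h3
    · rw [e2 i h3]
      have h4 := hcon i h3.le
      have h5 := hcon (i + 1) (by omega)
      omega
    · subst h3
      rw [e0]; omega
    · obtain rfl : i = m + 1 := by omega
      rw [e1]
      simp only [show m + 1 + 1 = m + 2 by omega]
      omega
  have hsum1 : ∀ l, l ≤ m → ∑ i ∈ range l, mu i = l * a := by
    intro l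
    induction l with
    | zero => intro _; simp
    | succ l ih =>
      intro hl
      rw [sum_range_succ, ih (by omega), e2 l (by omega)]
      ring
  have hlam1 : ∀ l, l ≤ m + 1 → ∑ i ∈ range l, lam i = l * a := by
    intro l
    induction l with
    | zero => intro _; simp
    | succ l ih =>
      intro hl
      rw [sum_range_succ, ih (by omega), hcon l (by omega)]
      ring
  have hnusum : ∀ l, l ≤ m + 2 → ∑ i ∈ range l, nu i + l ≤ l * a := by
    intro l
    induction l with
    | zero => intro _; simp
    | succ l ih =>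
      intro hl
      rw [sum_range_succ]
      have h3 := ih (by omega)
      have h4 := hnu l (by omega)
      rw [show (l + 1) * a = l * a + a by ring]
      omega
  have hs1 : ∑ i ∈ range (m + 1), mu i + 1 = (m + 1) * a := by
    rw [sum_range_succ, hsum1 m le_rfl, e0, show (m + 1) * a = m * a + a by ring]
    have := hnu 0 (by omega)
    omega
  have hs2 : ∑ i ∈ range (m + 2), mu i = ∑ i ∈ range (m + 2), nu i := by
    have h3 := h.sum
    rw [sum_range_succ (fun i => lam i) (m + 2), sum_range_succ (fun i => lam i) (m + 1),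
      sum_range_succ (fun i => nu i) (m + 2), hlam1 (m + 1) le_rfl] at h3
    rw [sum_range_succ (fun i => mu i) (m + 1), e1]
    omega
  have hprim : Prim (m + 2) mu nu := by
    refine ⟨⟨inter_anti hint, h.anti'.mono (by omega), hs2, ?_⟩, ?_⟩
    · intro l hl
      rcases Nat.lt_or_ge m l with h3 | h3
      · rcases Nat.lt_or_ge (m + 1) l with h4 | h4
        · obtain rfl : l = m + 2 := by omega
          exact hs2.ge
        · obtain rfl : l = m + 1 := by omega
          have := hnusum (m + 1) (by omega)
          omega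
      · rw [hsum1 l h3]
        have := hnusum l (by omega)
        omega
    · intro l hl1 hl
      rcases Nat.lt_or_ge m l with h3 | h3
      · obtain rfl : l = m + 1 := by omega
        have := hnusum (m + 1) (by omega)
        omega
      · rw [hsum1 l h3]
        have := hnusum l (by omega)
        omega
  refine ⟨mu, hint, hprim, ?_, m, by omega, ?_⟩
  · rintro ⟨r, hr⟩
    have h3 : mu (m - 1) ≠ mu m := by
      rw [e2 (m - 1) (by omega), e0]
      have := hnu 0 (by omega)
      omega
    have h4 : mu m ≠ mu (m + 1) := by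
      have h5 := hprim.strict (m + 1) (by omega) (by omega)
      have h6 := hprim.sum
      rw [sum_range_succ (fun i => mu i) (m + 1), sum_range_succ (fun i => nu i) (m + 1)] at h6
      have h7 := hnu (m + 1) (by omega)
      rw [e0]; omega
    by_cases hr0 : r = m
    · have := hr (m - 1) (by omega) (by omega)
      rw [show m - 1 + 1 = m by omega] at this
      exact h3 this
    · exact h4 (hr m (by omega) (Ne.symm hr0))
  · rw [e0]
    have h3 : greedy t lam m = a := by
      have := h.anti m (by omega)
      simp only [greedy]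
      omega
    have := hnu 0 (by omega)
    omega

/-- for two-valued non-special shapes the greedy row is not two-valued -/
theorem greedy_twoVal {n : ℕ} {lam nu : ℕ → ℕ} (h : Prim (n + 1) lam nu) (hn : 1 ≤ n)
    (hs : ¬ Special (n + 1) lam) (h2 : TwoVal (n + 1) lam) : ¬ TwoVal n (greedy (nu n) lam) := by
  obtain ⟨r, hr, ht, ht'⟩ := exists_r h hn
  have hlt := first_gt_last h hn
  obtain ⟨r0, hr0⟩ := h2
  have hrr : r0 = r := by
    by_contra hne
    have := hr0 r (by omega) (Ne.symm hne)
    omega
  subst hrr
  have hr1 : 1 ≤ r0 := by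
    by_contra hc
    exact hs (Or.inl (fun i hi hin => hr0 i hin (by omega)))
  have hr2 : r0 + 1 < n := by
    by_contra hc
    exact hs (Or.inr (fun i hi => hr0 i (by omega) (by omega)))
  have hfirst : lam 0 = lam r0 := const_of_eq (Nat.zero_le _) (fun i _ hi => hr0 i (by omega) (by omega))
  have g1 : greedy (nu n) lam (r0 - 1) = lam (r0 - 1) := greedy_lt_r h.anti hr ht' (by omega)
  have g2 : greedy (nu n) lam r0 = lam r0 + lam (r0 + 1) - nu n := greedy_r ht ht'
  have g3 : greedy (nu n) lam (r0 + 1) = lam (r0 + 1 + 1) :=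
    greedy_gt_r h.anti ht (by omega) (by omega)
  have d1 : lam (r0 - 1) = lam r0 := by
    have := hr0 (r0 - 1) (by omega) (by omega)
    rwa [show r0 - 1 + 1 = r0 by omega] at this
  have d2 : lam (r0 + 1) = lam (r0 + 1 + 1) := hr0 (r0 + 1) (by omega) (by omega)
  rintro ⟨r, hr'⟩
  by_cases hrr : r = r0
  · have := hr' (r0 - 1) (by omega) (by omega)
    rw [show r0 - 1 + 1 = r0 by omega] at this
    omega
  · have := hr' r0 (by omega) (Ne.symm hrr)
    omega

/-- if the greedy row is special then the shape is of type A or B -/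
theorem greedy_special {m : ℕ} {lam nu : ℕ → ℕ} (h : Prim (m + 2 + 1) lam nu) (hm : 1 ≤ m)
    (hs : ¬ Special (m + 2 + 1) lam) (hg : Special (m + 2) (greedy (nu (m + 2)) lam)) :
    ((∀ i, 2 ≤ i → i < m + 2 → lam i = lam (i + 1)) ∧ lam 2 < lam 1 ∧ lam 1 ≤ nu (m + 2)) ∨
    ((∀ i, i < m → lam i = lam (i + 1)) ∧ lam (m + 1) < lam m ∧ nu (m + 2) ≤ lam (m + 1)) := by
  obtain ⟨r, hr, ht, ht'⟩ := exists_r h (by omega)
  have hlt := first_gt_last h (by omega)
  set t := nu (m + 2) with htdef
  have g1 : ∀ i, i < r → greedy t lam i = lam i := fun i hi => greedy_lt_r h.anti hr ht' hi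
  have g2 : greedy t lam r = lam r + lam (r + 1) - t := greedy_r ht ht'
  have g3 : ∀ i, r < i → i < m + 2 → greedy t lam i = lam (i + 1) :=
    fun i h1 h2 => greedy_gt_r h.anti ht h1 h2
  have hanti := h.anti
  rcases hg with hg | hg
  · left
    have hr1 : r ≤ 1 := by
      by_contra hc
      have h3 := hg (r - 1) (by omega) (by omega)
      rw [show r - 1 + 1 = r by omega, g1 (r - 1) (by omega), g2] at h3
      have h4 := hanti (r - 1) (by omega)
      rw [show r - 1 + 1 = r by omega] at h4
      omega
    have hconst : ∀ i, 2 ≤ i → i < m + 2 → lam i = lam (i + 1) := by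
      intro i h2i hi
      rcases Nat.lt_or_ge 2 i with h5 | h5
      · have h6 := hg (i - 1) (by omega) (by omega)
        rw [show i - 1 + 1 = i by omega, g3 (i - 1) (by omega) (by omega),
          g3 i (by omega) (by omega), show i - 1 + 1 = i by omega] at h6
        exact h6
      · obtain rfl : i = 2 := by omega
        have h6 := hg 1 le_rfl (by omega)
        simp only [Nat.reduceAdd] at h6 ⊢
        rw [g3 2 (by omega) (by omega)] at h6
        simp only [Nat.reduceAdd] at h6
        rcases Nat.lt_or_ge 0 r with h7 | h7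
        · obtain rfl : r = 1 := by omega
          rw [g2] at h6
          have h8 := hanti 2 (by omega)
          simp only [Nat.reduceAdd] at h8 h6 ht
          omega
        · obtain rfl : r = 0 := by omega
          rw [g3 1 (by omega) (by omega)] at h6
          simpa using h6
    refine ⟨hconst, ?_, ?_⟩
    · by_contra hc
      apply hs
      left
      intro i hi hi'
      rcases Nat.lt_or_ge 1 i with h5 | h5
      · exact hconst i h5 (by omega)
      · obtain rfl : i = 1 := by omega
        have := hanti 1 (by omega)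
        simp only [Nat.reduceAdd] at this ⊢
        omega
    · rcases Nat.lt_or_ge 0 r with h7 | h7
      · obtain rfl : r = 1 := by omega
        have h6 := hg 1 le_rfl (by omega)
        simp only [Nat.reduceAdd] at h6
        rw [g3 2 (by omega) (by omega), g2] at h6
        have h8 := hanti 2 (by omega)
        simp only [Nat.reduceAdd] at h8 h6 ht
        omega
      · obtain rfl : r = 0 := by omega
        simp only [zero_add] at ht
        omega
  · right
    have hrm : r = m + 1 := by
      by_contra hc
      rcases Nat.eq_zero_or_pos r with h5 | h5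
      · subst h5
        -- all later entries equal, so t = lam 0
        simp only [zero_add] at ht g2
        have h6 := hg 0 (by omega)
        simp only [zero_add] at h6
        rw [g2, g3 1 (by omega) (by omega)] at h6
        have h8 := hanti 1 (by omega)
        simp only [Nat.reduceAdd] at h8 h6
        omega
      · have h3 := hg (r - 1) (by omega)
        rw [show r - 1 + 1 = r by omega, g1 (r - 1) (by omega), g2] at h3
        have h4 := hanti (r - 1) (by omega)
        rw [show r - 1 + 1 = r by omega] at h4
        omega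
    subst hrm
    have hconst : ∀ i, i < m → lam i = lam (i + 1) := by
      intro i hi
      have h6 := hg i (by omega)
      rwa [g1 i (by omega), g1 (i + 1) (by omega)] at h6
    refine ⟨hconst, ?_, ht'⟩
    by_contra hc
    apply hs
    right
    intro i hi
    rcases Nat.lt_or_ge i m with h5 | h5
    · exact hconst i h5
    · obtain rfl : i = m := by omega
      have := hanti i (by omega)
      omega

/-- main lower bound -/
theorem lower_bound_aux : ∀ (m : ℕ) (lam nu : ℕ → ℕ), Prim (m + 3) lam nu →
    ¬ Special (m + 3) lam →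
    (¬ TwoVal (m + 3) lam → m + 4 ≤ 2 * K (m + 3) lam nu) ∧ m + 3 ≤ 2 * K (m + 3) lam nu := by
  intro m
  induction m with
  | zero =>
    intro lam nu h hs
    have h2 : ¬ TwoVal (0 + 3) lam := by
      rintro ⟨r, hr⟩
      apply hs
      by_cases hr1 : r = 1
      · right
        intro i hi
        exact hr i (by omega) (by omega)
      · left
        intro i hi hi'
        exact hr i (by omega) (by omega)
    obtain ⟨mu, m1, m2, i, hi, hne⟩ := exists_alt (n := 2) h (by omega) h2
    have k1 := K_add_le m1 (greedy_inter h.anti (nu 2)) h.sum ⟨i, hi, hne⟩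
    have k2 := exists_gt _ _ _ m2
    have k3 := exists_gt _ _ _ (greedy_weak (n := 2) h.toWeak)
    simp only [Nat.reduceAdd] at k1 ⊢
    constructor
    · intro _; omega
    · omega
  | succ m ih =>
    intro lam nu h hs
    have h' : Prim (m + 1 + 2 + 1) lam nu := h
    have hs' : ¬ Special (m + 1 + 2 + 1) lam := hs
    by_cases h2 : TwoVal (m + 1 + 3) lam
    · refine ⟨fun hc => absurd h2 hc, ?_⟩
      have g := greedy_twoVal (n := m + 3) h (by omega) hs h2
      have gs : ¬ Special (m + 3) (greedy (nu (m + 3)) lam) := fun hc => g hc.twoVal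
      obtain ⟨i1, -⟩ := ih _ nu (greedy_prim (n := m + 3) h) gs
      have i2 := i1 g
      have k1 := K_le_of_inter (n := m + 3) (greedy_inter (n := m + 3) h.anti (nu (m + 3))) h.sum
      have e : m + 1 + 3 = m + 3 + 1 := by omega
      rw [e]
      omega
    · have key : m + 1 + 4 ≤ 2 * K (m + 1 + 3) lam nu := by
        have e : m + 1 + 3 = m + 3 + 1 := by omega
        by_cases hg : Special (m + 3) (greedy (nu (m + 3)) lam)
        · have hAB := greedy_special (m := m + 1) h' (by omega) hs' hg
          have hnext : ∃ mu, Inter (m + 3) lam mu ∧ Prim (m + 3) mu nu ∧ ¬ TwoVal (m + 3) mu ∧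
              ∃ i, i < m + 3 ∧ mu i ≠ greedy (nu (m + 3)) lam i := by
            rcases hAB with ⟨a1, a2, a3⟩ | ⟨b1, b2, b3⟩
            · exact typeA (n := m + 3) h (by omega) a1 a2 a3
            · exact typeB (m := m + 1) h' (by omega) b1 b2 b3
          obtain ⟨mu, m1, m2, m3, i, hi, hne⟩ := hnext
          have k1 := K_add_le (n := m + 3) m1 (greedy_inter (n := m + 3) h.anti (nu (m + 3)))
            h.sum ⟨i, hi, hne⟩
          have k2 := (ih mu nu m2 (fun hc => m3 hc.twoVal)).1 m3
          have k3 := exists_gt _ _ _ (greedy_weak (n := m + 3) h.toWeak)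
          rw [e]
          omega
        · obtain ⟨mu, m1, m2, i, hi, hne⟩ := exists_alt (n := m + 3) h (by omega) h2
          have k1 := K_add_le (n := m + 3) m1 (greedy_inter (n := m + 3) h.anti (nu (m + 3)))
            h.sum ⟨i, hi, hne⟩
          have k2 := (ih _ nu (greedy_prim (n := m + 3) h) hg).2
          have k3 := exists_gt _ _ _ m2
          rw [e]
          omega
      exact ⟨fun _ => key, by omega⟩

theorem lower_bound {n : ℕ} {lam nu : ℕ → ℕ} (h : Prim n lam nu) (hs : ¬ Special n lam) :
    3 ≤ n ∧ n ≤ 2 * K n lam nu := by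
  have hn : 3 ≤ n := by
    by_contra hc
    apply hs
    right
    intro i hi
    omega
  obtain ⟨m, rfl⟩ := Nat.exists_eq_add_of_le hn
  rw [Nat.add_comm 3 m] at h hs ⊢
  exact ⟨by omega, (lower_bound_aux m lam nu h hs).2⟩

end Pool.Agent.Hhelper36.Kostka
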