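import Pool.Agent.Hhelper36.KostkaAssembly

/-!
Symmetry of the number of Gelfand-Tsetlin patterns in the content (Bender-Knuth involutions).
-/

set_option autoImplicit false

namespace Pool.Agent.Hhelper36.Kostka

open Finset

theorem K_congr {n : ℕ} {lam nu nu' : ℕ → ℕ} (h : ∀ i, i < n → nu i = nu' i) :
    K n lam nu = K n lam nu' := by
  have h1 : GT n lam nu = GT n lam nu' := by
    ext x
    unfold GT
    simp only [Set.mem_setOf_eq]
    have h2 : ∀ c, c ≤ n → ∑ i ∈ range c, nu i = ∑ i ∈ range c, nu' i := fun c hc =>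
      sum_congr rfl fun i hi => h i (by rw [mem_range] at hi; omega)
    constructor
    · rintro ⟨a, b, c, d⟩
      exact ⟨a, b, c, fun e he => (d e he).trans (h2 e he)⟩
    · rintro ⟨a, b, c, d⟩
      exact ⟨a, b, c, fun e he => (d e he).trans (h2 e he).symm⟩
  unfold K
  rw [h1]

/-- upper bound of the entry `i` of row `d` -/
def up (d : ℕ) (x : ℕ → ℕ → ℕ) (i : ℕ) : ℕ :=
  if i = 0 then x (d + 1) 0 else min (x (d + 1) i) (x (d - 1) (i - 1))

/-- lower bound of the entry `i` of row `d` -/
def lo (d : ℕ) (x : ℕ → ℕ → ℕ) (i : ℕ) : ℕ := max (x (d + 1) (i + 1)) (x (d - 1) i)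

/-- the toggle of row `d` -/
def tog (d : ℕ) (x : ℕ → ℕ → ℕ) : ℕ → ℕ → ℕ :=
  fun c i => if c = d ∧ i < d then up d x i + lo d x i - x d i else x c i

theorem lo_le_up {n d : ℕ} {lam nu : ℕ → ℕ} {x : ℕ → ℕ → ℕ} (hx : x ∈ GT n lam nu) (hd : 0 < d)
    (hdn : d < n) {i : ℕ} (hi : i < d) : lo d x i ≤ x d i ∧ x d i ≤ up d x i := by
  have h1 := hx.2.2.1 d i hdn hi
  constructor
  · unfold lo
    refine max_le h1.1 ?_
    by_cases h2 : i < d - 1
    · have h3 := (hx.2.2.1 (d - 1) i (by omega) h2).2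
      rwa [show d - 1 + 1 = d by omega] at h3
    · rw [hx.1 (d - 1) i (by omega)]
      exact Nat.zero_le _
  · unfold up
    split_ifs with h2
    · rw [h2] at h1 ⊢
      exact h1.2
    · refine le_min h1.2 ?_
      have h3 := (hx.2.2.1 (d - 1) (i - 1) (by omega) (by omega)).1
      rwa [show d - 1 + 1 = d by omega, show i - 1 + 1 = i by omega] at h3

theorem up_add_lo_sum {n d : ℕ} {lam nu : ℕ → ℕ} {x : ℕ → ℕ → ℕ} (hx : x ∈ GT n lam nu)
    (hd : 0 < d) : ∑ i ∈ range d, (up d x i + lo d x i) =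
      ∑ i ∈ range (d + 1), x (d + 1) i + ∑ i ∈ range (d - 1), x (d - 1) i := by
  obtain ⟨e, rfl⟩ : ∃ e, d = e + 1 := ⟨d - 1, by omega⟩
  have h0 : x e e = 0 := hx.1 e e (Or.inr le_rfl)
  simp only [Nat.add_sub_cancel]
  rw [sum_add_distrib]
  have hU : ∑ i ∈ range (e + 1), up (e + 1) x i =
      x (e + 1 + 1) 0 + ∑ i ∈ range e, min (x (e + 1 + 1) (i + 1)) (x e i) := by
    rw [sum_range_succ']
    unfold up
    simp only [Nat.add_sub_cancel, Nat.succ_ne_zero, if_false, if_true, Nat.add_eq_zero_iff,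
      one_ne_zero, and_false]
    rw [add_comm]
  have hL : ∑ i ∈ range (e + 1), lo (e + 1) x i =
      x (e + 1 + 1) (e + 1) + ∑ i ∈ range e, max (x (e + 1 + 1) (i + 1)) (x e i) := by
    rw [sum_range_succ]
    unfold lo
    simp only [Nat.add_sub_cancel]
    rw [h0, Nat.max_zero, add_comm]
  rw [hU, hL]
  have hR : ∑ i ∈ range (e + 1 + 1), x (e + 1 + 1) i =
      x (e + 1 + 1) 0 + (∑ i ∈ range e, x (e + 1 + 1) (i + 1) + x (e + 1 + 1) (e + 1)) := by
    rw [sum_range_succ', sum_range_succ, add_comm]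
  rw [hR]
  have hmm : ∑ i ∈ range e, min (x (e + 1 + 1) (i + 1)) (x e i) +
      ∑ i ∈ range e, max (x (e + 1 + 1) (i + 1)) (x e i) =
      ∑ i ∈ range e, x (e + 1 + 1) (i + 1) + ∑ i ∈ range e, x e i := by
    rw [← sum_add_distrib, ← sum_add_distrib]
    exact sum_congr rfl fun i _ => min_add_max _ _
  omega

/-- the content with the entries `d - 1` and `d` exchanged -/
def sw (d : ℕ) (nu : ℕ → ℕ) : ℕ → ℕ := fun i => nu (Equiv.swap (d - 1) d i)

theorem sw_sum_eq {d : ℕ} (hd : 0 < d) (nu : ℕ → ℕ) {c : ℕ} (hc : c ≠ d) :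
    ∑ i ∈ range c, sw d nu i = ∑ i ∈ range c, nu i := by
  rcases Nat.lt_or_gt_of_ne hc with h | h
  · refine sum_congr rfl fun i hi => ?_
    rw [mem_range] at hi
    unfold sw
    rw [Equiv.swap_apply_of_ne_of_ne (by omega) (by omega)]
  · unfold sw
    refine Finset.sum_equiv (Equiv.swap (d - 1) d) (fun i => ?_) (fun i _ => rfl)
    rw [mem_range, mem_range]
    rcases eq_or_ne i (d - 1) with h1 | h1
    · rw [h1, Equiv.swap_apply_left]
      omega
    · rcases eq_or_ne i d with h2 | h2
      · rw [h2, Equiv.swap_apply_right]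
        omega
      · rw [Equiv.swap_apply_of_ne_of_ne h1 h2]

theorem sw_sum_d {d : ℕ} (hd : 0 < d) (nu : ℕ → ℕ) :
    ∑ i ∈ range d, sw d nu i = ∑ i ∈ range (d - 1), nu i + nu d := by
  obtain ⟨e, rfl⟩ : ∃ e, d = e + 1 := ⟨d - 1, by omega⟩
  rw [sum_range_succ, Nat.add_sub_cancel]
  unfold sw
  rw [Nat.add_sub_cancel, Equiv.swap_apply_left]
  congr 1
  refine sum_congr rfl fun i hi => ?_
  rw [mem_range] at hi
  rw [Equiv.swap_apply_of_ne_of_ne (by omega) (by omega)]

theorem sw_sw (d : ℕ) (nu : ℕ → ℕ) : sw d (sw d nu) = nu := by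
  funext i
  unfold sw
  rw [Equiv.swap_apply_self]

theorem tog_mem {n d : ℕ} {lam nu : ℕ → ℕ} {x : ℕ → ℕ → ℕ} (hx : x ∈ GT n lam nu) (hd : 0 < d)
    (hdn : d < n) : tog d x ∈ GT n lam (sw d nu) := by
  have hb := fun i (hi : i < d) => lo_le_up hx hd hdn hi
  have hne : ∀ c i, c ≠ d → tog d x c i = x c i := by
    intro c i hc
    unfold tog
    rw [if_neg (fun h => hc h.1)]
  have hdd : ∀ i, i < d → tog d x d i = up d x i + lo d x i - x d i := by
    intro i hi
    unfold tog
    rw [if_pos ⟨rfl, hi⟩]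
  have hu : ∀ i, i < d → tog d x d i ≤ up d x i ∧ lo d x i ≤ tog d x d i := by
    intro i hi
    have := hb i hi
    rw [hdd i hi]
    omega
  refine ⟨?_, ?_, ?_, ?_⟩
  · intro c i hc
    by_cases h : c = d ∧ i < d
    · omega
    · unfold tog
      rw [if_neg h]
      exact hx.1 c i hc
  · intro i hi
    rw [hne n i (by omega)]
    exact hx.2.1 i hi
  · intro c i hc hi
    by_cases h1 : c = d
    · subst h1
      have h2 := hu i hi
      rw [hne (c + 1) (i + 1) (by omega), hne (c + 1) i (by omega)]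
      constructor
      · exact le_trans (le_max_left _ _) h2.2
      · refine h2.1.trans ?_
        unfold up
        split_ifs with h3
        · rw [h3]
        · exact min_le_left _ _
    · by_cases h2 : c + 1 = d
      · subst h2
        rw [hne c i (by omega)]
        constructor
        · have h3 := (hu (i + 1) (by omega)).1
          refine h3.trans ?_
          unfold up
          rw [if_neg (by omega)]
          simp only [Nat.add_sub_cancel]
          exact min_le_right _ _
        · have h3 := (hu i (by omega)).2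
          refine le_trans ?_ h3
          unfold lo
          simp only [Nat.add_sub_cancel]
          exact le_max_right _ _
      · rw [hne c i h1, hne (c + 1) (i + 1) h2, hne (c + 1) i h2]
        exact hx.2.2.1 c i hc hi
  · intro c hc
    by_cases h1 : c = d
    · subst h1
      have h2 : ∑ i ∈ range c, tog c x c i + ∑ i ∈ range c, x c i =
          ∑ i ∈ range c, (up c x i + lo c x i) := by
        rw [← sum_add_distrib]
        refine sum_congr rfl fun i hi => ?_
        rw [mem_range] at hi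
        have h3 := hb i hi
        rw [hdd i hi]
        omega
      rw [up_add_lo_sum hx hd, hx.2.2.2 c hc, hx.2.2.2 (c + 1) (by omega),
        hx.2.2.2 (c - 1) (by omega), sum_range_succ] at h2
      rw [sw_sum_d hd]
      omega
    · rw [sw_sum_eq hd nu h1, ← hx.2.2.2 c hc]
      exact sum_congr rfl fun i _ => hne c i h1

theorem tog_inj {n d : ℕ} {lam nu : ℕ → ℕ} (hd : 0 < d) (hdn : d < n) :
    Set.InjOn (tog d) (GT n lam nu) := by
  intro x hx y hy hxy
  have hne : ∀ c i, c ≠ d → x c i = y c i := by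
    intro c i hc
    have h := congrFun (congrFun hxy c) i
    unfold tog at h
    rwa [if_neg (fun h => hc h.1), if_neg (fun h => hc h.1)] at h
  have hU : ∀ i, up d x i = up d y i := by
    intro i
    unfold up
    rw [hne (d + 1) 0 (by omega), hne (d + 1) i (by omega), hne (d - 1) (i - 1) (by omega)]
  have hL : ∀ i, lo d x i = lo d y i := by
    intro i
    unfold lo
    rw [hne (d + 1) (i + 1) (by omega), hne (d - 1) i (by omega)]
  funext c i
  by_cases hc : c = d
  · subst hc
    by_cases hi : i < c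
    · have h := congrFun (congrFun hxy c) i
      unfold tog at h
      rw [if_pos ⟨rfl, hi⟩, if_pos ⟨rfl, hi⟩, hU i, hL i] at h
      have h1 := lo_le_up hx hd hdn hi
      have h2 := lo_le_up hy hd hdn hi
      rw [hU i, hL i] at h1
      omega
    · rw [hx.1 c i (by omega), hy.1 c i (by omega)]
  · exact hne c i hc

theorem K_swap {n d : ℕ} {lam nu : ℕ → ℕ} (hd : 0 < d) (hdn : d < n) :
    K n lam (sw d nu) = K n lam nu := by
  have h : ∀ nu : ℕ → ℕ, K n lam nu ≤ K n lam (sw d nu) := by
    intro nu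
    unfold K
    exact Set.ncard_le_ncard_of_injOn (tog d) (fun x hx => tog_mem hx hd hdn) (tog_inj hd hdn)
      (gt_finite n lam (sw d nu))
  refine le_antisymm ?_ (h nu)
  have h1 := h (sw d nu)
  rwa [sw_sw] at h1

/-- the content with its first entries permuted -/
def ext {n : ℕ} (τ : Equiv.Perm (Fin n)) (nu : ℕ → ℕ) : ℕ → ℕ :=
  fun i => if h : i < n then nu (τ ⟨i, h⟩) else 0

theorem K_perm {m : ℕ} (τ : Equiv.Perm (Fin (m + 1))) :
    ∀ lam nu : ℕ → ℕ, K (m + 1) lam (ext τ nu) = K (m + 1) lam nu := by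
  have hτ : τ ∈ Submonoid.closure (Set.range fun i : Fin m => Equiv.swap i.castSucc i.succ) := by
    rw [Equiv.Perm.mclosure_swap_castSucc_succ]
    trivial
  induction hτ using Submonoid.closure_induction with
  | mem x hx =>
    obtain ⟨i, rfl⟩ := hx
    intro lam nu
    rw [← K_swap (nu := nu) (d := (i : ℕ) + 1) (by omega) (by omega)]
    apply K_congr
    intro j hj
    unfold ext sw
    rw [dif_pos hj, Nat.add_sub_cancel]
    congr 1
    rcases eq_or_ne j (i : ℕ) with h1 | h1
    · have h2 : (⟨j, hj⟩ : Fin (m + 1)) = i.castSucc := by ext; exact h1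
      rw [h2, Equiv.swap_apply_left, h1, Equiv.swap_apply_left]
      rfl
    · rcases eq_or_ne j ((i : ℕ) + 1) with h2 | h2
      · have h3 : (⟨j, hj⟩ : Fin (m + 1)) = i.succ := by ext; exact h2
        rw [h3, Equiv.swap_apply_right, h2, Equiv.swap_apply_right]
        rfl
      · rw [Equiv.swap_apply_of_ne_of_ne (fun h => h1 (congrArg Fin.val h))
          (fun h => h2 (congrArg Fin.val h)), Equiv.swap_apply_of_ne_of_ne h1 h2]
  | one =>
    intro lam nu
    apply K_congr
    intro j hj
    unfold ext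
    rw [dif_pos hj]
    rfl
  | mul x y _ _ hx hy =>
    intro lam nu
    rw [← hx lam nu, ← hy lam (ext x nu)]
    apply K_congr
    intro j hj
    unfold ext
    rw [dif_pos hj, dif_pos hj, dif_pos (y ⟨j, hj⟩).2]
    rfl

/-- Every weight can be sorted without changing the numbers of patterns. -/
theorem exists_sorted {n : ℕ} {nu : ℕ → ℕ} (hn : ∀ i, n ≤ i → nu i = 0) :
    ∃ nu' : ℕ → ℕ, Antitone nu' ∧ (∀ i, n ≤ i → nu' i = 0) ∧
      ∀ (lam : ℕ → ℕ) (k : ℕ), K n lam (fun i => k * nu' i) = K n lam (fun i => k * nu i) := by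
  rcases Nat.eq_zero_or_pos n with h0 | h0
  · subst h0
    have h1 : nu = fun _ => 0 := by
      funext i
      exact hn i (Nat.zero_le _)
    refine ⟨fun _ => 0, fun _ _ _ => le_rfl, fun _ _ => rfl, fun lam k => ?_⟩
    rw [h1]
  · obtain ⟨m, rfl⟩ : ∃ m, n = m + 1 := ⟨n - 1, by omega⟩
    set f : Fin (m + 1) → ℕᵒᵈ := fun i => OrderDual.toDual (nu i) with hf
    set τ := Tuple.sort f with hτ
    have hmono : Monotone (f ∘ τ) := Tuple.monotone_sort f
    refine ⟨ext τ nu, ?_, ?_, ?_⟩
    · intro a b hab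
      unfold ext
      by_cases hb : b < m + 1
      · rw [dif_pos hb, dif_pos (by omega)]
        exact hmono (show (⟨a, by omega⟩ : Fin (m + 1)) ≤ ⟨b, hb⟩ from hab)
      · rw [dif_neg hb]
        exact Nat.zero_le _
    · intro i hi
      unfold ext
      rw [dif_neg (by omega)]
    · intro lam k
      rw [← K_perm τ lam (fun i => k * nu i)]
      apply K_congr
      intro i hi
      unfold ext
      rw [dif_pos hi, dif_pos hi]

end Pool.Agent.Hhelper36.Kostka
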