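import Pool.Agent.Hhelper36.ColOrder2

/-!
The concrete order: functions from a well order to the three signs that vanish from some point
on, compared lexicographically.
-/

set_option autoImplicit false
set_option linter.unusedSectionVars false

namespace Pool.Agent.Hhelper36.LexOrder

open Set Pool.Agent.Hhelper36.ColOrder

universe u v

section

variable {W : Type v} [LinearOrder W] [WellFoundedLT W]

theorem sep_finite {V : Type*} [LinearOrder V] [Finite V] [Nonempty V] (SA SB : Set V)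
    (h : ∀ a ∈ SA, ∀ b ∈ SB, a ≤ b) : ∃ t, (∀ a ∈ SA, a ≤ t) ∧ (∀ b ∈ SB, t ≤ b) := by
  by_cases hA : SA.Nonempty
  · obtain ⟨m, hm, hmax⟩ := Set.exists_max_image SA id (Set.toFinite SA) hA
    exact ⟨m, hmax, fun b hb => h m hm b hb⟩
  · rw [Set.not_nonempty_iff_eq_empty] at hA
    subst hA
    by_cases hB : SB.Nonempty
    · obtain ⟨m, hm, hmin⟩ := Set.exists_min_image SB id (Set.toFinite SB) hB
      exact ⟨m, by simp, hmin⟩
    · rw [Set.not_nonempty_iff_eq_empty] at hB
      subst hB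
      exact ⟨Classical.arbitrary V, by simp, by simp⟩

theorem exists_cut (A B : Set (Lex (W → SignType))) (hAB : ∀ a ∈ A, ∀ b ∈ B, a < b) :
    ∃ h : W → SignType, (∀ a ∈ A, ∀ v, (∀ u, u < v → a u = h u) → a v ≤ h v) ∧
      (∀ b ∈ B, ∀ v, (∀ u, u < v → b u = h u) → h v ≤ b v) := by
  classical
  let body : (v : W) → ((u : W) → u < v → SignType) → SignType := fun v ih =>
    if H : ∃ t : SignType, (∀ a ∈ A, (∀ u (hu : u < v), a u = ih u hu) → a v ≤ t) ∧
      (∀ b ∈ B, (∀ u (hu : u < v), b u = ih u hu) → t ≤ b v) then H.choose else 0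
  let h : W → SignType := WellFounded.fix (wellFounded_lt (α := W)) body
  have hh : ∀ v, h v = body v (fun u _ => h u) := fun v =>
    WellFounded.fix_eq (wellFounded_lt (α := W)) body v
  have key : ∀ v, (∀ a ∈ A, (∀ u, u < v → a u = h u) → a v ≤ h v) ∧
      (∀ b ∈ B, (∀ u, u < v → b u = h u) → h v ≤ b v) := by
    intro v
    have H : ∃ t : SignType, (∀ a ∈ A, (∀ u (_ : u < v), a u = h u) → a v ≤ t) ∧
      (∀ b ∈ B, (∀ u (_ : u < v), b u = h u) → t ≤ b v) := by
      obtain ⟨t, h1, h2⟩ := sep_finite {s | ∃ a ∈ A, (∀ u, u < v → a u = h u) ∧ a v = s}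
        {s | ∃ b ∈ B, (∀ u, u < v → b u = h u) ∧ b v = s} (by
          rintro _ ⟨a, ha, ha1, rfl⟩ _ ⟨b, hb, hb1, rfl⟩
          have := (hAB a ha b hb).le
          exact Pi.apply_le_of_toLex this (fun j hj => (ha1 j hj).trans (hb1 j hj).symm))
      exact ⟨t, fun a ha h' => h1 _ ⟨a, ha, h', rfl⟩, fun b hb h' => h2 _ ⟨b, hb, h', rfl⟩⟩
    have e : h v = H.choose := by
      rw [hh v]
      simp only [body]
      rw [dif_pos H]
    rw [e]
    exact H.choose_spec
  exact ⟨h, fun a ha v => (key v).1 a ha, fun b hb v => (key v).2 b hb⟩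

variable (W) in
/-- eventually vanishing sign sequences, lexicographically ordered -/
abbrev LL : Type v := {f : Lex (W → SignType) // ∃ w : W, ∀ v, w ≤ v → f v = 0}

/-- the levels -/
def levL (w : W) : Set (LL W) := {f | ∀ v, w ≤ v → f.1 v = 0}

theorem lt_def' (f g : LL W) : f < g ↔ ∃ i, (∀ j, j < i → f.1 j = g.1 j) ∧ f.1 i < g.1 i :=
  Iff.rfl

theorem exists_first_ne {f g : W → SignType} (h : ∃ u, f u ≠ g u) :
    ∃ u, f u ≠ g u ∧ ∀ v, v < u → f v = g v := by
  obtain ⟨u, hu, hmin⟩ := (wellFounded_lt (α := W)).has_min {u | f u ≠ g u} h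
  refine ⟨u, hu, fun v hv => ?_⟩
  by_contra hc
  exact hmin v hc hv

theorem exists_emb (hshift : ∀ w : W, ∃ σ : W → W, StrictMono σ ∧ ∀ u, w < σ u)
    (w : W) (A B : Set (LL W)) (hA : A ⊆ levL w) (hB : B ⊆ levL w)
    (hAB : ∀ a ∈ A, ∀ b ∈ B, a < b) :
    ∃ E : LL W → LL W, StrictMono E ∧ (∀ f, (∀ a ∈ A, a < E f) ∧ (∀ b ∈ B, E f < b)) ∧
      ∀ v, ∃ v', ∀ f ∈ levL v, E f ∈ levL v' := by
  classical
  obtain ⟨σ, hσ, hwσ⟩ := hshift w
  obtain ⟨h, hh1, hh2⟩ := exists_cut (Subtype.val '' A) (Subtype.val '' B) (by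
    rintro _ ⟨a, ha, rfl⟩ _ ⟨b, hb, rfl⟩
    exact hAB a ha b hb)
  let ε : SignType := if ∃ b ∈ B, ∀ u, u < w → b.1 u = h u then -1 else 1
  let e : (W → SignType) → (W → SignType) := fun f x =>
    if x < w then h x else if x = w then ε else if H : ∃ u, σ u = x then f H.choose else 0
  have e1 : ∀ f x, x < w → e f x = h x := by
    intro f x hx; simp [e, hx]
  have e2 : ∀ f, e f w = ε := by
    intro f; simp [e]
  have e3 : ∀ f u, e f (σ u) = f u := by
    intro f u
    have h1 : ¬ σ u < w := not_lt.mpr (hwσ u).le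
    have h2 : σ u ≠ w := (hwσ u).ne'
    have H : ∃ u', σ u' = σ u := ⟨u, rfl⟩
    have h3 : H.choose = u := hσ.injective H.choose_spec
    simp only [e, if_neg h1, if_neg h2, dif_pos H, h3]
  have e4 : ∀ f x, w < x → (¬ ∃ u, σ u = x) → e f x = 0 := by
    intro f x hx hn
    simp [e, not_lt.mpr hx.le, hx.ne', hn]
  have elev : ∀ v f, (∀ x, v ≤ x → f x = 0) → ∀ x, σ v ≤ x → e f x = 0 := by
    intro v f hf x hx
    by_cases hn : ∃ u, σ u = x
    · obtain ⟨u, rfl⟩ := hn
      rw [e3]
      exact hf u (hσ.le_iff_le.mp hx)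
    · exact e4 f x ((hwσ v).trans_le hx) hn
  let E : LL W → LL W := fun f => ⟨toLex (e f.1), by
    obtain ⟨v, hv⟩ := f.2
    exact ⟨σ v, elev v _ hv⟩⟩
  refine ⟨E, ?_, ?_, ?_⟩
  · intro f g hfg
    obtain ⟨i, hi1, hi2⟩ := (lt_def' f g).mp hfg
    refine (lt_def' _ _).mpr ⟨σ i, ?_, ?_⟩
    · intro j hj
      show e f.1 j = e g.1 j
      rcases lt_trichotomy j w with h1 | h1 | h1
      · rw [e1 _ _ h1, e1 _ _ h1]
      · subst h1; rw [e2, e2]
      · by_cases hn : ∃ u, σ u = j
        · obtain ⟨u, rfl⟩ := hn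
          rw [e3, e3]
          exact hi1 u (hσ.lt_iff_lt.mp hj)
        · rw [e4 _ _ h1 hn, e4 _ _ h1 hn]
    · show e f.1 (σ i) < e g.1 (σ i)
      rw [e3, e3]
      exact hi2
  · intro f
    constructor
    · intro a ha
      by_cases hs : ∀ u, u < w → a.1 u = h u
      · have hε : ε = 1 := by
          simp only [ε]
          rw [if_neg]
          rintro ⟨b, hb, hbh⟩
          have hab : a = b := by
            apply Subtype.ext
            funext x
            rcases lt_or_ge x w with h1 | h1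
            · exact (hs x h1).trans (hbh x h1).symm
            · exact (hA ha x h1).trans (hB hb x h1).symm
          exact absurd (hAB a ha b hb) (by rw [hab]; exact lt_irrefl _)
        refine (lt_def' _ _).mpr ⟨w, fun j hj => ?_, ?_⟩
        · show a.1 j = e f.1 j
          rw [e1 _ _ hj]; exact hs j hj
        · show a.1 w < e f.1 w
          rw [e2, hε, hA ha w le_rfl]
          decide
      · push Not at hs
        obtain ⟨u, hu1, hu2⟩ := exists_first_ne (f := a.1) (g := h) (by
          obtain ⟨u, -, hu⟩ := hs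
          exact ⟨u, hu⟩)
        obtain ⟨u', hu'w, hu'⟩ := hs
        have huw : u < w := by
          rcases lt_or_ge u w with h1 | h1
          · exact h1
          · exact absurd (hu2 u' (hu'w.trans_le h1)) hu'
        refine (lt_def' _ _).mpr ⟨u, fun j hj => ?_, ?_⟩
        · show a.1 j = e f.1 j
          rw [e1 _ _ (hj.trans huw)]; exact hu2 j hj
        · show a.1 u < e f.1 u
          rw [e1 _ _ huw]
          exact lt_of_le_of_ne (hh1 a.1 ⟨a, ha, rfl⟩ u hu2) hu1
    · intro b hb
      by_cases hs : ∀ u, u < w → b.1 u = h u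
      · have hε : ε = -1 := by
          simp only [ε]
          rw [if_pos]
          exact ⟨b, hb, hs⟩
        refine (lt_def' _ _).mpr ⟨w, fun j hj => ?_, ?_⟩
        · show e f.1 j = b.1 j
          rw [e1 _ _ hj]; exact (hs j hj).symm
        · show e f.1 w < b.1 w
          rw [e2, hε, hB hb w le_rfl]
          decide
      · push Not at hs
        obtain ⟨u, hu1, hu2⟩ := exists_first_ne (f := b.1) (g := h) (by
          obtain ⟨u, -, hu⟩ := hs
          exact ⟨u, hu⟩)
        obtain ⟨u', hu'w, hu'⟩ := hs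
        have huw : u < w := by
          rcases lt_or_ge u w with h1 | h1
          · exact h1
          · exact absurd (hu2 u' (hu'w.trans_le h1)) hu'
        refine (lt_def' _ _).mpr ⟨u, fun j hj => ?_, ?_⟩
        · show e f.1 j = b.1 j
          rw [e1 _ _ (hj.trans huw)]; exact (hu2 j hj).symm
        · show e f.1 u < b.1 u
          rw [e1 _ _ huw]
          exact lt_of_le_of_ne (hh2 b.1 ⟨b, hb, rfl⟩ u hu2) (Ne.symm hu1)
  · intro v
    exact ⟨σ v, fun f hf => elev v _ hf⟩

open Classical in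
/-- put the value `1` at place `w` -/
noncomputable def bump [NoMaxOrder W] (w : W) (f : LL W) : LL W :=
  ⟨toLex (Function.update f.1 w 1), by
    obtain ⟨v, hv⟩ := f.2
    obtain ⟨t, ht⟩ := exists_gt w
    refine ⟨max v t, fun x hx => ?_⟩
    have h1 : v ≤ x := (le_max_left _ _).trans hx
    have h2 : x ≠ w := (ht.trans_le ((le_max_right _ _).trans hx)).ne'
    show Function.update f.1 w 1 x = 0
    rw [Function.update_of_ne h2]
    exact hv x h1⟩

theorem bump_same [NoMaxOrder W] (w : W) (f : LL W) : (bump w f).1 w = 1 := by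
  show Function.update f.1 w 1 w = 1
  exact Function.update_self _ _ _

theorem bump_ne [NoMaxOrder W] (w : W) (f : LL W) (x : W) (hx : x ≠ w) :
    (bump w f).1 x = f.1 x := by
  show Function.update f.1 w 1 x = f.1 x
  exact Function.update_of_ne hx _ _

/-- the filtration of `LL W` -/
noncomputable def filtL [NoMaxOrder W] (hbdd : ∀ (w : W) (g : W → W), ∃ u, ∀ v, v < w → g v ≤ u)
    (hshift : ∀ w : W, ∃ σ : W → W, StrictMono σ ∧ ∀ u, w < σ u) : Filt (LL W) W where
  lev := levL
  mono v w hvw f hf x hx := hf x (hvw.trans hx)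
  cover f := f.2
  bdd := hbdd
  fill := by
    intro w A B hA hB hAB
    obtain ⟨E, hE, hE1, hE2⟩ := exists_emb hshift w A B hA hB hAB
    obtain ⟨t, ht⟩ := exists_gt w
    obtain ⟨w1, hw1⟩ := hE2 w
    obtain ⟨w2, hw2⟩ := hE2 t
    have hup : ∀ (v v' : W), v ≤ v' → levL v ⊆ levL v' := fun v v' h f hf x hx => hf x (h.trans hx)
    refine ⟨max w1 w2, E, fun f => E (bump w f), ?_, ?_⟩
    · intro f hf
      refine ⟨hup _ _ (le_max_left _ _) (hw1 f hf), ?_, ?_, (hE1 f).1, (hE1 _).2⟩
      · refine hup _ _ (le_max_right _ _) (hw2 _ ?_)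
        intro x hx
        rw [bump_ne w f x (ht.trans_le hx).ne']
        exact hf x (ht.le.trans hx)
      · apply hE
        refine (lt_def' _ _).mpr ⟨w, fun j hj => (bump_ne w f j hj.ne).symm, ?_⟩
        rw [bump_same, hf w le_rfl]
        decide
    · intro f hf g hg hfg
      apply hE
      obtain ⟨i, hi1, hi2⟩ := (lt_def' f g).mp hfg
      have hiw : i < w := by
        by_contra hc
        rw [hf i (not_lt.mp hc), hg i (not_lt.mp hc)] at hi2
        exact lt_irrefl _ hi2
      refine (lt_def' _ _).mpr ⟨i, fun j hj => ?_, ?_⟩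
      · rw [bump_ne w f j (hj.trans hiw).ne]
        exact hi1 j hj
      · rw [bump_ne w f i hiw.ne]
        exact hi2

/-- the sequence with a single `1` at place `w` -/
noncomputable def single [NoMaxOrder W] (w : W) : LL W :=
  bump w ⟨toLex (fun _ => 0), w, fun _ _ => rfl⟩

theorem single_injective [NoMaxOrder W] : Function.Injective (single (W := W)) := by
  intro v w h
  by_contra hne
  have h1 : (single v).1 v = 1 := bump_same _ _
  rw [h] at h1
  have h2 : (single w).1 v = 0 := bump_ne w _ v hne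
  rw [h2] at h1
  exact absurd h1 (by decide)

/-- every nonempty interval between two points contains a copy of the whole order -/
theorem exists_emb_between [NoMaxOrder W]
    (hshift : ∀ w : W, ∃ σ : W → W, StrictMono σ ∧ ∀ u, w < σ u) (x y : LL W) (hxy : x < y) :
    ∃ E : LL W → LL W, Function.Injective E ∧ ∀ f, x < E f ∧ E f < y := by
  obtain ⟨wx, hwx⟩ := x.2
  obtain ⟨wy, hwy⟩ := y.2
  obtain ⟨E, hE, hE1, -⟩ := exists_emb hshift (max wx wy) {x} {y}
    (by rintro _ rfl v hv; exact hwx v ((le_max_left _ _).trans hv))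
    (by rintro _ rfl v hv; exact hwy v ((le_max_right _ _).trans hv))
    (by rintro _ rfl _ rfl; exact hxy)
  exact ⟨E, hE.injective, fun f => ⟨(hE1 f).1 x rfl, (hE1 f).2 y rfl⟩⟩

end

end Pool.Agent.Hhelper36.LexOrder

namespace Pool.Agent.Hhelper36.LexOrder

open Set Cardinal Ordinal Pool.Agent.Hhelper36.ColOrder

universe u

section kappa

variable {κ : Cardinal.{u}}

theorem ord_noMax (hκ : κ.IsRegular) : NoMaxOrder κ.ord.ToType := by
  refine ⟨fun w => ?_⟩
  have hlim := isSuccLimit_ord hκ.1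
  have h1 : (w.toOrd : Ordinal) < κ.ord := w.toOrd.2
  refine ⟨ToType.mk ⟨Order.succ (w.toOrd : Ordinal), hlim.succ_lt h1⟩, ?_⟩
  rw [← ToType.mk.symm.lt_iff_lt, OrderIso.symm_apply_apply]
  show (w.toOrd : Ordinal) < Order.succ (w.toOrd : Ordinal)
  exact Order.lt_succ _

theorem ord_bdd (hκ : κ.IsRegular) (w : κ.ord.ToType) (g : κ.ord.ToType → κ.ord.ToType) :
    ∃ u, ∀ v, v < w → g v ≤ u := by
  have hcard : #(Iio w) < κ := by
    have := Cardinal.mk_Iio_lt w (by simp)
    simpa using this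
  have hsup : (⨆ v : Iio w, ((g v.1).toOrd : Ordinal)) < κ.ord :=
    Ordinal.iSup_lt_of_lt_cof (by rwa [hκ.cof_ord]) (fun v => (g v.1).toOrd.2)
  refine ⟨ToType.mk ⟨_, hsup⟩, fun v hv => ?_⟩
  rw [← ToType.mk.symm.le_iff_le, OrderIso.symm_apply_apply]
  exact Ordinal.le_iSup (fun v : Iio w => ((g v.1).toOrd : Ordinal)) ⟨v, hv⟩

theorem ord_shift (hκ : κ.IsRegular) (w : κ.ord.ToType) :
    ∃ σ : κ.ord.ToType → κ.ord.ToType, StrictMono σ ∧ ∀ u, w < σ u := by
  have hlim := isSuccLimit_ord hκ.1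
  have hprin := isPrincipal_add_ord hκ.1
  have h1 : Order.succ (w.toOrd : Ordinal) < κ.ord := hlim.succ_lt w.toOrd.2
  have h2 : ∀ u : κ.ord.ToType, Order.succ (w.toOrd : Ordinal) + (u.toOrd : Ordinal) < κ.ord :=
    fun u => hprin h1 (show (u.toOrd : Ordinal) < κ.ord from u.toOrd.2)
  refine ⟨fun u => ToType.mk ⟨Order.succ (w.toOrd : Ordinal) + (u.toOrd : Ordinal),
    h2 u⟩, ?_, ?_⟩
  · intro a b hab
    rw [← ToType.mk.symm.lt_iff_lt, OrderIso.symm_apply_apply, OrderIso.symm_apply_apply]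
    show Order.succ (w.toOrd : Ordinal) + (a.toOrd : Ordinal) <
      Order.succ (w.toOrd : Ordinal) + (b.toOrd : Ordinal)
    have : (a.toOrd : Ordinal) < b.toOrd := ToType.mk.symm.lt_iff_lt.mpr hab
    exact (add_lt_add_iff_left _).mpr this
  · intro u
    rw [← ToType.mk.symm.lt_iff_lt, OrderIso.symm_apply_apply]
    show (w.toOrd : Ordinal) < Order.succ (w.toOrd : Ordinal) + (u.toOrd : Ordinal)
    exact (Order.lt_succ _).trans_le (le_self_add)

end kappa

/-- Main order-theoretic theorem: for every regular cardinal `κ`, every colouring of the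
canonical `η_κ`-order with fewer than `κ` colours is preserved by a non-identity
automorphism. -/
theorem main_order {κ : Cardinal.{u}} (hκ : κ.IsRegular) {K : Type u} (hK : #K < κ)
    (c : LL κ.ord.ToType → K) :
    ∃ f : LL κ.ord.ToType ≃o LL κ.ord.ToType, (∃ x, f x ≠ x) ∧ ∀ t, c (f t) = c t := by
  have := ord_noMax hκ
  have hne : Nonempty κ.ord.ToType := by
    rw [Ordinal.nonempty_toType_iff]
    exact hκ.ord_pos.ne'
  obtain ⟨w⟩ := hne
  have : Nonempty (LL κ.ord.ToType) := ⟨single w⟩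
  refine exists_aut (filtL (ord_bdd hκ) (ord_shift hκ)) (fun g hg => ?_) c
  have := mk_le_of_injective hg
  rw [mk_ord_toType] at this
  exact absurd this (not_le.mpr hK)

end Pool.Agent.Hhelper36.LexOrder
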