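import Mathlib

/-!
A tree-like graph built from a linear order `L`: a root joined to one vertex `a_x` per point,
vertices `b_x` joined to all `a_y` with `y ≤ x`, and a private ray attached to every `a_x`
and every `b_x`.
-/

set_option autoImplicit false
set_option linter.unusedSectionVars false

namespace Pool.Agent.Hhelper36.OrderGraph

open Set Cardinal

universe u

variable {L : Type u} [LinearOrder L]

/-- `Dn u v`: the vertex `v` is a child of `u`. -/
def Dn : Option (L × Bool × ℕ) → Option (L × Bool × ℕ) → Prop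
  | none, some q => q.2.1 = false ∧ q.2.2 = 0
  | some p, some q => (p.1 = q.1 ∧ p.2.1 = q.2.1 ∧ q.2.2 = p.2.2 + 1) ∨
      (p.2.1 = false ∧ p.2.2 = 0 ∧ q.2.1 = true ∧ q.2.2 = 0 ∧ p.1 ≤ q.1)
  | _, none => False

/-- the level of a vertex -/
def lv : Option (L × Bool × ℕ) → ℕ
  | none => 0
  | some q => q.2.2 + 1 + (if q.2.1 = true then 1 else 0)

theorem lv_of_dn {u v : Option (L × Bool × ℕ)} (h : Dn u v) : lv v = lv u + 1 := by
  rcases u with _ | ⟨x, s, m⟩ <;> rcases v with _ | ⟨y, t, n⟩
  · exact h.elim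
  · obtain ⟨h1, h2⟩ := h
    simp only at h1 h2
    subst h1 h2
    simp [lv]
  · exact h.elim
  · rcases h with ⟨h1, h2, h3⟩ | ⟨h1, h2, h3, h4, -⟩
    · simp only at h1 h2 h3
      subst h1 h2 h3
      simp only [lv]; omega
    · simp only at h1 h2 h3 h4
      subst h1 h2 h3 h4
      simp [lv]

variable (L) in
/-- the graph -/
def TG : SimpleGraph (Option (L × Bool × ℕ)) where
  Adj u v := Dn u v ∨ Dn v u
  symm := ⟨fun _ _ h => h.symm⟩
  loopless := ⟨fun u h => by
    rcases h with h | h <;> · have := lv_of_dn h; omega⟩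

theorem adj_iff {u v : Option (L × Bool × ℕ)} : (TG L).Adj u v ↔ Dn u v ∨ Dn v u := Iff.rfl

theorem exists_parent (v : Option (L × Bool × ℕ)) (hv : v ≠ none) : ∃ u, Dn u v := by
  rcases v with _ | ⟨x, t, n⟩
  · exact absurd rfl hv
  · rcases n with _ | n
    · cases t
      · exact ⟨none, rfl, rfl⟩
      · exact ⟨some (x, false, 0), Or.inr ⟨rfl, rfl, rfl, rfl, le_rfl⟩⟩
    · exact ⟨some (x, t, n), Or.inl ⟨rfl, rfl, rfl⟩⟩

theorem lv_eq_zero {v : Option (L × Bool × ℕ)} (h : lv v = 0) : v = none := by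
  rcases v with _ | ⟨x, t, n⟩
  · rfl
  · simp only [lv] at h; omega

theorem exists_walk : ∀ (n : ℕ) (v : Option (L × Bool × ℕ)), lv v = n →
    ∃ p : (TG L).Walk v none, p.length = n := by
  intro n
  induction n with
  | zero =>
    intro v hv
    have := lv_eq_zero hv
    subst this
    exact ⟨SimpleGraph.Walk.nil, rfl⟩
  | succ n ih =>
    intro v hv
    have hne : v ≠ none := by
      rintro rfl
      simp [lv] at hv
    obtain ⟨u, hu⟩ := exists_parent v hne
    have h1 := lv_of_dn hu
    obtain ⟨p, hp⟩ := ih u (by omega)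
    exact ⟨SimpleGraph.Walk.cons (Or.inr hu) p, by simp [hp]⟩

theorem lv_le_length {u v : Option (L × Bool × ℕ)} (p : (TG L).Walk u v) :
    lv u ≤ lv v + p.length := by
  induction p with
  | nil => simp
  | cons h q ih =>
    rename_i a b c
    have : lv a ≤ lv b + 1 := by
      rcases h with h | h
      · have := lv_of_dn h; omega
      · have := lv_of_dn h; omega
    simp only [SimpleGraph.Walk.length_cons]
    omega

theorem dist_eq (v : Option (L × Bool × ℕ)) : (TG L).dist v none = lv v := by
  obtain ⟨p, hp⟩ := exists_walk _ v rfl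
  apply le_antisymm
  · rw [← hp]; exact SimpleGraph.dist_le p
  · obtain ⟨q, hq⟩ := (SimpleGraph.Walk.reachable p).exists_walk_length_eq_dist
    have := lv_le_length q
    rw [hq] at this
    simpa [lv] using this

theorem connected : (TG L).Connected := by
  rw [SimpleGraph.connected_iff_exists_forall_reachable]
  refine ⟨none, fun v => ?_⟩
  obtain ⟨p, -⟩ := exists_walk _ v rfl
  exact p.reachable.symm

/-- the only parent of the next vertex on a ray -/
theorem parent_unique {u : Option (L × Bool × ℕ)} {x : L} {t : Bool} {n : ℕ}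
    (h : Dn u (some (x, t, n + 1))) : u = some (x, t, n) := by
  rcases u with _ | ⟨y, s, m⟩
  · obtain ⟨-, h2⟩ := h
    simp at h2
  · rcases h with ⟨h1, h2, h3⟩ | ⟨-, -, -, h4, -⟩
    · simp only at h1 h2 h3
      have : m = n := by omega
      subst h1 h2 this
      rfl
    · simp at h4

theorem treeLike_aux [Nonempty L] (y : Option (L × Bool × ℕ)) :
    ∃ x, (TG L).Adj y x ∧
      ∀ p : (TG L).Walk x none, p.length = (TG L).dist x none → y ∈ p.support := by
  rcases y with _ | ⟨x, t, n⟩
  · obtain ⟨x0⟩ := ‹Nonempty L›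
    exact ⟨some (x0, false, 0), Or.inl ⟨rfl, rfl⟩, fun p _ => p.end_mem_support⟩
  · refine ⟨some (x, t, n + 1), Or.inl (Or.inl ⟨rfl, rfl, rfl⟩), fun p hp => ?_⟩
    rw [dist_eq] at hp
    cases p with
    | cons h q =>
      rename_i b
      have h1 := lv_le_length q
      have h0 : lv (none : Option (L × Bool × ℕ)) = 0 := rfl
      simp only [SimpleGraph.Walk.length_cons] at hp
      have hb : Dn b (some (x, t, n + 1)) := by
        rcases h with h | h
        · have := lv_of_dn h; omega
        · exact h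
      have := parent_unique hb
      subst this
      simp

/-- the automorphism induced by an order automorphism -/
def indAut (f : L ≃o L) : TG L ≃g TG L where
  toEquiv := Equiv.optionCongr (Equiv.prodCongr f.toEquiv (Equiv.refl _))
  map_rel_iff' := by
    have key : ∀ u v : Option (L × Bool × ℕ),
        Dn (Equiv.optionCongr (Equiv.prodCongr f.toEquiv (Equiv.refl _)) u)
          (Equiv.optionCongr (Equiv.prodCongr f.toEquiv (Equiv.refl _)) v) ↔ Dn u v := by
      intro u v
      rcases u with _ | ⟨x, s, m⟩ <;> rcases v with _ | ⟨y, t, n⟩ <;> simp [Dn]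
    intro u v
    simp only [adj_iff, key]

theorem indAut_none (f : L ≃o L) : indAut f none = none := rfl

theorem indAut_some (f : L ≃o L) (x : L) (t : Bool) (n : ℕ) :
    indAut f (some (x, t, n)) = some (f x, t, n) := rfl

/-- exactly two neighbours -/
def Two {V : Type u} (G : SimpleGraph V) (v : V) : Prop :=
  ∃ p q, p ≠ q ∧ ∀ x, G.Adj v x ↔ x = p ∨ x = q

theorem two_map {V : Type u} {G : SimpleGraph V} (φ : G ≃g G) (v : V) : Two G (φ v) ↔ Two G v := by
  have key : ∀ (φ : G ≃g G) (v : V), Two G v → Two G (φ v) := by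
    rintro φ v ⟨p, q, hpq, h⟩
    refine ⟨φ p, φ q, fun e => hpq (φ.injective e), fun x => ?_⟩
    obtain ⟨y, rfl⟩ := φ.surjective x
    rw [φ.map_adj_iff, h]
    simp
  constructor
  · intro h
    have := key φ.symm _ h
    simpa using this
  · exact key φ v

theorem two_ray (x : L) (t : Bool) (n : ℕ) : Two (TG L) (some (x, t, n + 1)) := by
  refine ⟨some (x, t, n), some (x, t, n + 2), by simp, fun u => ?_⟩
  constructor
  · rintro (h | h)
    · right
      rcases u with _ | ⟨y, s, m⟩
      · exact h.elim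
      · rcases h with ⟨h1, h2, h3⟩ | ⟨-, h4, -⟩
        · simp only at h1 h2 h3
          subst h1 h2 h3
          rfl
        · simp at h4
    · left; exact parent_unique h
  · rintro (rfl | rfl)
    · exact Or.inr (Or.inl ⟨rfl, rfl, rfl⟩)
    · exact Or.inl (Or.inl ⟨rfl, rfl, rfl⟩)

theorem not_two_of_three {V : Type u} {G : SimpleGraph V} {v a b c : V} (hab : a ≠ b)
    (hac : a ≠ c) (hbc : b ≠ c) (h1 : G.Adj v a) (h2 : G.Adj v b) (h3 : G.Adj v c) :
    ¬ Two G v := by
  rintro ⟨p, q, -, h⟩
  rcases (h a).mp h1 with rfl | rfl <;> rcases (h b).mp h2 with rfl | rfl <;>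
    rcases (h c).mp h3 with rfl | rfl <;> simp_all

theorem not_two_none [Nonempty L] [NoMinOrder L] : ¬ Two (TG L) (none : Option (L × Bool × ℕ)) := by
  obtain ⟨x⟩ := ‹Nonempty L›
  obtain ⟨y, hy⟩ := exists_lt x
  obtain ⟨z, hz⟩ := exists_lt y
  refine not_two_of_three (a := some (x, false, 0)) (b := some (y, false, 0))
    (c := some (z, false, 0)) ?_ ?_ ?_ (Or.inl ⟨rfl, rfl⟩) (Or.inl ⟨rfl, rfl⟩) (Or.inl ⟨rfl, rfl⟩)
  · simp [hy.ne']
  · simp [(hz.trans hy).ne']
  · simp [hz.ne']

theorem not_two_a (x : L) : ¬ Two (TG L) (some (x, false, 0)) := by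
  refine not_two_of_three (a := none) (b := some (x, false, 1))
    (c := some (x, true, 0)) (by simp) (by simp) (by simp) (Or.inr ⟨rfl, rfl⟩)
    (Or.inl (Or.inl ⟨rfl, rfl, rfl⟩)) (Or.inl (Or.inr ⟨rfl, rfl, rfl, rfl, le_rfl⟩))

theorem not_two_b [NoMinOrder L] (x : L) : ¬ Two (TG L) (some (x, true, 0)) := by
  obtain ⟨y, hy⟩ := exists_lt x
  refine not_two_of_three (a := some (x, false, 0)) (b := some (x, true, 1))
    (c := some (y, false, 0)) (by simp) (by simp [hy.ne']) (by simp)
    (Or.inr (Or.inr ⟨rfl, rfl, rfl, rfl, le_rfl⟩))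
    (Or.inl (Or.inl ⟨rfl, rfl, rfl⟩)) (Or.inr (Or.inr ⟨rfl, rfl, rfl, rfl, hy.le⟩))

/-- characterisation of the root -/
theorem root_iff [Nonempty L] [NoMinOrder L] (v : Option (L × Bool × ℕ)) :
    v = none ↔ (¬ Two (TG L) v ∧ ∀ u, (TG L).Adj v u → ¬ Two (TG L) u) := by
  constructor
  · rintro rfl
    refine ⟨not_two_none, fun u hu => ?_⟩
    rcases u with _ | ⟨x, t, n⟩
    · exact absurd hu ((TG L).irrefl)
    · rcases hu with ⟨h1, h2⟩ | h
      · simp only at h1 h2
        subst h1 h2
        exact not_two_a x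
      · exact h.elim
  · rintro ⟨h1, h2⟩
    rcases v with _ | ⟨x, t, n⟩
    · rfl
    · exact absurd (two_ray x t n) (h2 _ (Or.inl (Or.inl ⟨rfl, rfl, rfl⟩)))

theorem map_none [Nonempty L] [NoMinOrder L] (φ : TG L ≃g TG L) : φ none = none := by
  rw [root_iff]
  have h := (root_iff (L := L) none).mp rfl
  refine ⟨?_, ?_⟩
  · rw [two_map]; exact h.1
  · intro u hu
    obtain ⟨u, rfl⟩ := φ.surjective u
    rw [φ.map_adj_iff] at hu
    rw [two_map]
    exact h.2 u hu

theorem adj_none_iff (v : Option (L × Bool × ℕ)) :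
    (TG L).Adj none v ↔ ∃ x, v = some (x, false, 0) := by
  constructor
  · rintro (h | h)
    · rcases v with _ | ⟨x, t, n⟩
      · exact h.elim
      · obtain ⟨h1, h2⟩ := h
        simp only at h1 h2
        subst h1 h2
        exact ⟨x, rfl⟩
    · rcases v with _ | ⟨x, t, n⟩ <;> exact h.elim
  · rintro ⟨x, rfl⟩
    exact Or.inl ⟨rfl, rfl⟩

theorem map_a [Nonempty L] [NoMinOrder L] (φ : TG L ≃g TG L) (x : L) :
    ∃ y, φ (some (x, false, 0)) = some (y, false, 0) := by
  rw [← adj_none_iff, ← map_none φ, φ.map_adj_iff, adj_none_iff]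
  exact ⟨x, rfl⟩

theorem map_b [Nonempty L] [NoMinOrder L] (φ : TG L ≃g TG L) (x : L) :
    ∃ y, φ (some (x, true, 0)) = some (y, true, 0) := by
  have h1 : ¬ Two (TG L) (φ (some (x, true, 0))) := by
    rw [two_map]; exact not_two_b x
  have h2 : φ (some (x, true, 0)) ≠ none := by
    intro h
    rw [← map_none φ] at h
    exact absurd (φ.injective h) (by simp)
  have h3 : ¬ (TG L).Adj none (φ (some (x, true, 0))) := by
    rw [← map_none φ, φ.map_adj_iff, adj_none_iff]
    rintro ⟨y, hy⟩
    simp at hy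
  generalize φ (some (x, true, 0)) = v at h1 h2 h3
  rcases v with _ | ⟨y, t, n⟩
  · exact absurd rfl h2
  · rcases n with _ | n
    · cases t
      · exact absurd ((adj_none_iff _).mpr ⟨y, rfl⟩) h3
      · exact ⟨y, rfl⟩
    · exact absurd (two_ray y t n) h1

theorem adj_ab (x y : L) : (TG L).Adj (some (y, false, 0)) (some (x, true, 0)) ↔ y ≤ x := by
  constructor
  · rintro (h | h)
    · rcases h with ⟨-, h2, -⟩ | ⟨-, -, -, -, h5⟩
      · simp at h2
      · exact h5
    · rcases h with ⟨-, h2, -⟩ | ⟨h1, -⟩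
      · simp at h2
      · simp at h1
  · intro h
    exact Or.inl (Or.inr ⟨rfl, rfl, rfl, rfl, h⟩)

/-- an automorphism fixing all base points fixes everything -/
theorem eq_refl_of_fix [Nonempty L] [NoMinOrder L] (φ : TG L ≃g TG L)
    (h : ∀ x, φ (some (x, false, 0)) = some (x, false, 0)) : φ = RelIso.refl (TG L).Adj := by
  have hb : ∀ x, φ (some (x, true, 0)) = some (x, true, 0) := by
    intro x
    obtain ⟨y, hy⟩ := map_b φ x
    have key : ∀ z, z ≤ x ↔ z ≤ y := by
      intro z
      rw [← adj_ab, ← adj_ab, ← hy]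
      rw [← h z, φ.map_adj_iff, h z]
    have : x = y := le_antisymm ((key x).mp le_rfl) ((key y).mpr le_rfl)
    rw [hy, this]
  have h0 : ∀ x t, φ (some (x, t, 0)) = some (x, t, 0) := by
    intro x t
    cases t
    · exact h x
    · exact hb x
  have h1 : ∀ x t, φ (some (x, t, 1)) = some (x, t, 1) := by
    intro x t
    have e1 : (TG L).Adj (some (x, t, 0)) (φ (some (x, t, 1))) := by
      rw [← h0 x t, φ.map_adj_iff]
      exact Or.inl (Or.inl ⟨rfl, rfl, rfl⟩)
    have e2 : Two (TG L) (φ (some (x, t, 1))) := by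
      rw [two_map]; exact two_ray x t 0
    generalize φ (some (x, t, 1)) = v at e1 e2
    rcases v with _ | ⟨y, s, n⟩
    · exact absurd e2 not_two_none
    · rcases n with _ | n
      · cases s
        · exact absurd e2 (not_two_a y)
        · exact absurd e2 (not_two_b y)
      · rcases e1 with h | h
        · have := parent_unique h
          simp only [Option.some.injEq, Prod.mk.injEq] at this
          obtain ⟨rfl, rfl, rfl⟩ := this
          rfl
        · rcases h with ⟨-, -, h3⟩ | ⟨-, h2, -⟩
          · simp at h3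
          · simp at h2
  have hall : ∀ n x t, φ (some (x, t, n)) = some (x, t, n) ∧
      φ (some (x, t, n + 1)) = some (x, t, n + 1) := by
    intro n
    induction n with
    | zero => exact fun x t => ⟨h0 x t, h1 x t⟩
    | succ n ih =>
      intro x t
      obtain ⟨i1, i2⟩ := ih x t
      refine ⟨i2, ?_⟩
      have e1 : (TG L).Adj (some (x, t, n + 1)) (φ (some (x, t, n + 1 + 1))) := by
        rw [← i2, φ.map_adj_iff]
        exact Or.inl (Or.inl ⟨rfl, rfl, rfl⟩)
      have e2 : φ (some (x, t, n + 1 + 1)) ≠ some (x, t, n) := by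
        rw [← i1]
        intro e
        have := φ.injective e
        simp only [Option.some.injEq, Prod.mk.injEq, true_and] at this
        omega
      generalize φ (some (x, t, n + 1 + 1)) = v at e1 e2
      rcases e1 with h | h
      · rcases v with _ | ⟨y, s, m⟩
        · exact h.elim
        · rcases h with ⟨h1, h2, h3⟩ | ⟨-, h4, -⟩
          · simp only at h1 h2 h3
            subst h1 h2 h3
            rfl
          · simp at h4
      · exact absurd (parent_unique h) e2
  ext1 v
  rcases v with _ | ⟨x, t, n⟩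
  · exact map_none φ
  · exact (hall n x t).1

/-- a non-identity automorphism moves all base points of some nonempty interval -/
theorem exists_moved_interval [Nonempty L] [NoMinOrder L] (φ : TG L ≃g TG L)
    (hφ : φ ≠ RelIso.refl (TG L).Adj) :
    ∃ x y : L, x < y ∧ ∀ z, x < z → z < y → φ (some (z, false, 0)) ≠ some (z, false, 0) := by
  choose α hα using map_a φ
  choose β hβ using map_b φ
  have hβs : Function.Surjective β := by
    intro y
    obtain ⟨x, hx⟩ := map_b φ.symm y
    refine ⟨x, ?_⟩
    have h1 : φ (φ.symm (some (y, true, 0))) = some (y, true, 0) := by simp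
    rw [hx, hβ x] at h1
    simpa using h1
  have hrel : ∀ y x, y ≤ x ↔ α y ≤ β x := by
    intro y x
    rw [← adj_ab, ← adj_ab, ← hα, ← hβ, φ.map_adj_iff]
  have hmono : ∀ y y', y ≤ y' → α y ≤ α y' := by
    intro y y' h
    obtain ⟨x, hx⟩ := hβs (α y')
    have h1 : y' ≤ x := by rw [hrel, hx]
    have h2 := (hrel y x).mp (h.trans h1)
    rwa [hx] at h2
  have hne : ∃ x, α x ≠ x := by
    by_contra hc
    push Not at hc
    exact hφ (eq_refl_of_fix φ (fun x => by rw [hα, hc]))
  obtain ⟨x, hx⟩ := hne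
  rcases lt_or_gt_of_ne hx with h | h
  · refine ⟨α x, x, h, fun z h1 h2 e => ?_⟩
    rw [hα z] at e
    have e' : α z = z := by simpa using e
    have := hmono z x h2.le
    rw [e'] at this
    exact absurd h1 (not_lt.mpr this)
  · refine ⟨x, α x, h, fun z h1 h2 e => ?_⟩
    rw [hα z] at e
    have e' : α z = z := by simpa using e
    have := hmono x z h1.le
    rw [e'] at this
    exact absurd h2 (not_lt.mpr this)

/-- the motion, and more precisely: every non-identity automorphism moves exactly `#L` vertices -/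
theorem moved_eq [Nonempty L] [NoMinOrder L]
    (hE : ∀ x y : L, x < y → ∃ E : L → L, Function.Injective E ∧ ∀ f, x < E f ∧ E f < y)
    (hinf : ℵ₀ ≤ #L) (φ : TG L ≃g TG L) (hφ : φ ≠ RelIso.refl (TG L).Adj) :
    #{v // φ v ≠ v} = #L := by
  apply le_antisymm
  · calc #{v // φ v ≠ v} ≤ #(Option (L × Bool × ℕ)) := mk_subtype_le _
      _ = #L := by
        have h1 : #(L × Bool × ℕ) = #L := by
          have : #(Bool × ℕ) = ℵ₀ := mk_eq_aleph0 _
          rw [mk_prod, this, lift_aleph0]
          rw [lift_uzero]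
          exact mul_aleph0_eq hinf
        rw [mk_option, h1]
        exact add_one_eq hinf
  · obtain ⟨x, y, hxy, hmv⟩ := exists_moved_interval φ hφ
    obtain ⟨E, hE1, hE2⟩ := hE x y hxy
    refine mk_le_of_injective (f := fun z => ⟨some (E z, false, 0), hmv _ (hE2 z).1 (hE2 z).2⟩) ?_
    intro a b hab
    simp only [Subtype.mk.injEq, Option.some.injEq, Prod.mk.injEq, and_true] at hab
    exact hE1 hab

end Pool.Agent.Hhelper36.OrderGraph
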